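import Pool.Agent.Lib.H17P.Lin

set_option autoImplicit false

/-!
Chunk A1. Along one generator `chi g⁻¹ chi = P` for `s > 0`.
Proof. For `s > 0` the inverse metric is differentiable (for instance `gi = (g + n n^T)^(-1) - n n^T`, or from `g gi = P`), and
`g gi = P` gives `gi' = - 2 gi chi gi` (`gi' ` is symmetric and kills `n`). With `W = chi gi chi` the hypothesis is `chi' = W`, so
`W' = W gi chi - 2 chi gi chi gi chi + chi gi W = 0`. So `W` is constant on `(0,∞)`, `g'' = 2 W`, `g = g 0 + s g' 0 + s^2 W` and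
`g / s^2 → W`, so `W = P`.
-/

open MeasureTheory Filter Topology
open scoped ContDiff

namespace NullPen

/-- Three by three matrices. -/
abbrev A1_M := Matrix (Fin 3) (Fin 3) ℝ

theorem A1_mm (a b : Fin 3 → Fin 3 → ℝ) : (Matrix.of (mm a b) : A1_M) = Matrix.of a * Matrix.of b := by
  ext i j
  simp [mm, Matrix.mul_apply]

/-- Entrywise derivative. -/
def A1_D (A : ℝ → A1_M) (A' : A1_M) (s : ℝ) : Prop := ∀ i j, HasDerivAt (fun t => A t i j) (A' i j) s

theorem A1_D_mul {A B : ℝ → A1_M} {A' B' : A1_M} {s : ℝ} (hA : A1_D A A' s) (hB : A1_D B B' s) :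
    A1_D (fun t => A t * B t) (A' * B s + A s * B') s := by
  intro i j
  have h : (fun t => (A t * B t) i j) = fun t => ∑ k, A t i k * B t k j := by
    funext t
    exact Matrix.mul_apply
  rw [h, Matrix.add_apply, Matrix.mul_apply, Matrix.mul_apply, ← Finset.sum_add_distrib]
  exact HasDerivAt.fun_sum fun k _ => (hA i k).mul (hB k j)

theorem A1_D_unique {A : ℝ → A1_M} {A' A'' : A1_M} {s : ℝ} (hA : A1_D A A' s) (hB : A1_D A A'' s) : A' = A'' := by
  ext i j
  exact (hA i j).unique (hB i j)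

theorem A1_D_const (A : A1_M) (s : ℝ) : A1_D (fun _ => A) 0 s := fun i j => hasDerivAt_const s (A i j)

theorem A1_D_congr {A B : ℝ → A1_M} {A' : A1_M} {s : ℝ} (hs : 0 < s) (hA : A1_D A A' s)
    (h : ∀ t, 0 < t → B t = A t) : A1_D B A' s := by
  intro i j
  refine (hA i j).congr_of_eventuallyEq ?_
  filter_upwards [lt_mem_nhds hs] with t ht
  show B t i j = A t i j
  rw [h t ht]

theorem A1_adj {A : ℝ → A1_M} {s : ℝ} (h : ∀ i j, DifferentiableAt ℝ (fun t => A t i j) s) (i j : Fin 3) :
    DifferentiableAt ℝ (fun t => (A t).adjugate i j) s := by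
  have e : (fun t => (A t).adjugate i j) = fun t => (!![
      A t 1 1 * A t 2 2 - A t 1 2 * A t 2 1,
      -(A t 0 1 * A t 2 2) + A t 0 2 * A t 2 1,
      A t 0 1 * A t 1 2 - A t 0 2 * A t 1 1;
      -(A t 1 0 * A t 2 2) + A t 1 2 * A t 2 0,
      A t 0 0 * A t 2 2 - A t 0 2 * A t 2 0,
      -(A t 0 0 * A t 1 2) + A t 0 2 * A t 1 0;
      A t 1 0 * A t 2 1 - A t 1 1 * A t 2 0,
      -(A t 0 0 * A t 2 1) + A t 0 1 * A t 2 0,
      A t 0 0 * A t 1 1 - A t 0 1 * A t 1 0] : A1_M) i j := by
    funext t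
    rw [Matrix.adjugate_fin_three]
  rw [e]
  have h00 := h 0 0
  have h01 := h 0 1
  have h02 := h 0 2
  have h10 := h 1 0
  have h11 := h 1 1
  have h12 := h 1 2
  have h20 := h 2 0
  have h21 := h 2 1
  have h22 := h 2 2
  fin_cases i <;> fin_cases j <;> simp <;> fun_prop

theorem A1_det {A : ℝ → A1_M} {s : ℝ} (h : ∀ i j, DifferentiableAt ℝ (fun t => A t i j) s) :
    DifferentiableAt ℝ (fun t => (A t).det) s := by
  have e : (fun t => (A t).det) = fun t => A t 0 0 * A t 1 1 * A t 2 2 - A t 0 0 * A t 1 2 * A t 2 1 -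
      A t 0 1 * A t 1 0 * A t 2 2 + A t 0 1 * A t 1 2 * A t 2 0 + A t 0 2 * A t 1 0 * A t 2 1 -
      A t 0 2 * A t 1 1 * A t 2 0 := by
    funext t
    rw [Matrix.det_fin_three]
  rw [e]
  have h00 := h 0 0
  have h01 := h 0 1
  have h02 := h 0 2
  have h10 := h 1 0
  have h11 := h 1 1
  have h12 := h 1 2
  have h20 := h 2 0
  have h21 := h 2 1
  have h22 := h 2 2
  fun_prop

/-- Algebra of the derivative of `chi gi chi`. -/
theorem A1_alg {X H H' W : A1_M} (hH : H' = -(2 : ℝ) • (H * X * H)) (hW : W = X * H * X) :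
    (W * H + X * H') * X + X * H * W = 0 := by
  subst hH
  subst hW
  simp only [Matrix.add_mul, Matrix.mul_smul, Matrix.smul_mul, Matrix.mul_assoc]
  rw [neg_smul, two_smul]
  abel

theorem A1_const {f : ℝ → ℝ} (h : ∀ s, 0 < s → HasDerivAt f 0 s) {s : ℝ} (hs : 0 < s) : f s = f 1 := by
  have h1 : DifferentiableOn ℝ f (Set.Ioi 0) := fun x hx => (h x hx).differentiableAt.differentiableWithinAt
  exact (isOpen_Ioi).is_const_of_deriv_eq_zero (convex_Ioi (0 : ℝ)).isPreconnected h1
    (fun x hx => (h x hx).deriv) hs (by norm_num : (0 : ℝ) < 1)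

theorem A1_lim {f X : ℝ → ℝ} {w p : ℝ} (hf : ∀ s, 0 < s → HasDerivAt f (2 * X s) s)
    (hX : ∀ s, 0 < s → HasDerivAt X w s) (hp : Tendsto (fun s : ℝ => f s / s ^ 2) atTop (𝓝 p)) : w = p := by
  have h1 : ∀ s, 0 < s → X s = w * s + (X 1 - w) := by
    intro s hs
    have h2 : ∀ s, 0 < s → HasDerivAt (fun t => X t - w * t) 0 s := by
      intro s hs
      have h3 : HasDerivAt (fun t => X t - w * t) (w - w * 1) s :=
        (hX s hs).sub ((hasDerivAt_id s).const_mul w)
      rwa [mul_one, sub_self] at h3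
    have h4 := A1_const h2 hs
    simp only [mul_one] at h4
    linarith
  set c := X 1 - w with hc
  have h5 : ∀ s, 0 < s → f s = w * s ^ 2 + 2 * c * s + (f 1 - w - 2 * c) := by
    intro s hs
    have h2 : ∀ s, 0 < s → HasDerivAt (fun t => f t - (w * t ^ 2 + 2 * c * t)) 0 s := by
      intro s hs
      have h3 : HasDerivAt (fun t => f t - (w * t ^ 2 + 2 * c * t))
          (2 * X s - (w * (((2 : ℕ) : ℝ) * id s ^ (2 - 1) * 1) + 2 * c * 1)) s :=
        (hf s hs).sub ((((hasDerivAt_id s).pow 2).const_mul w).add ((hasDerivAt_id s).const_mul (2 * c)))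
      have h4 : 2 * X s - (w * (((2 : ℕ) : ℝ) * id s ^ (2 - 1) * 1) + 2 * c * 1) = 0 := by
        rw [h1 s hs]
        simp
        ring
      rwa [h4] at h3
    have h4 := A1_const h2 hs
    simp only [mul_one, one_pow] at h4
    linarith
  have h6 : Tendsto (fun s : ℝ => w + 2 * c * s⁻¹ + (f 1 - w - 2 * c) * (s⁻¹) ^ 2) atTop
      (𝓝 (w + 2 * c * 0 + (f 1 - w - 2 * c) * 0 ^ 2)) := by
    have h7 := tendsto_inv_atTop_zero (𝕜 := ℝ)
    exact (tendsto_const_nhds.add (h7.const_mul _)).add ((h7.pow 2).const_mul _)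
  have h8 : (fun s : ℝ => w + 2 * c * s⁻¹ + (f 1 - w - 2 * c) * (s⁻¹) ^ 2) =ᶠ[atTop]
      (fun s : ℝ => f s / s ^ 2) := by
    filter_upwards [eventually_gt_atTop (0 : ℝ)] with s hs
    rw [h5 s hs]
    field_simp
  have h9 := tendsto_nhds_unique (h6.congr' h8) hp
  simpa using h9

theorem gen_const {n : Fin 3 → ℝ} {g gi : ℝ → Fin 3 → Fin 3 → ℝ} (h : Gen n g gi)
    (free : ∀ s, 0 < s → ∀ i j, deriv (fun t => ch g t i j) s = ∑ k, ∑ l, ch g s i k * gi s k l * ch g s l j)
    (norm : ∀ i j, Tendsto (fun s : ℝ => g s i j / s ^ 2) atTop (𝓝 (pr n i j))) :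
    ∀ s, 0 < s → mm (mm (ch g s) (gi s)) (ch g s) = pr n := by
  -- matrices
  set G : ℝ → A1_M := fun s => Matrix.of (g s) with hG
  set H : ℝ → A1_M := fun s => Matrix.of (gi s) with hH
  set X : ℝ → A1_M := fun s => Matrix.of (ch g s) with hX
  set N : A1_M := Matrix.of (fun i j => n i * n j) with hN
  set P : A1_M := Matrix.of (pr n) with hP
  have hun : ∑ i, n i * n i = 1 := by
    rw [← h.unit]
    exact Finset.sum_congr rfl fun i _ => (pow_two _).symm
  have hPN : P = 1 - N := by
    ext i j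
    simp [hP, hN, pr, Matrix.one_apply]
  have hNN : N * N = N := by
    ext i j
    rw [Matrix.mul_apply]
    simp only [hN, Matrix.of_apply]
    calc ∑ k, n i * n k * (n k * n j) = n i * n j * ∑ k, n k * n k := by
          rw [Finset.mul_sum]
          exact Finset.sum_congr rfl fun k _ => by ring
      _ = n i * n j := by rw [hun, mul_one]
  have hker : ∀ a : Fin 3 → Fin 3 → ℝ, Tan n a → (Matrix.of a : A1_M) * N = 0 := by
    intro a ha
    ext i j
    rw [Matrix.mul_apply]
    simp only [hN, Matrix.of_apply, Matrix.zero_apply]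
    calc ∑ k, a i k * (n k * n j) = (∑ k, a i k * n k) * n j := by
          rw [Finset.sum_mul]
          exact Finset.sum_congr rfl fun k _ => by ring
      _ = 0 := by rw [ha.ker i, zero_mul]
  have hker' : ∀ a : Fin 3 → Fin 3 → ℝ, Tan n a → N * (Matrix.of a : A1_M) = 0 := by
    intro a ha
    ext i j
    rw [Matrix.mul_apply]
    simp only [hN, Matrix.of_apply, Matrix.zero_apply]
    calc ∑ k, n i * n k * a k j = n i * (∑ k, a j k * n k) := by
          rw [Finset.mul_sum]
          exact Finset.sum_congr rfl fun k _ => by rw [ha.symm k j]; ring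
      _ = 0 := by rw [ha.ker j, mul_zero]
  have hGN : ∀ s, 0 < s → G s * N = 0 := fun s hs => hker _ (h.tan s hs.le)
  have hHN : ∀ s, 0 < s → H s * N = 0 := fun s hs => hker _ (h.tani s hs.le)
  have hNG : ∀ s, 0 < s → N * G s = 0 := fun s hs => hker' _ (h.tan s hs.le)
  have hNH : ∀ s, 0 < s → N * H s = 0 := fun s hs => hker' _ (h.tani s hs.le)
  have hGH : ∀ s, 0 < s → G s * H s = P := by
    intro s hs
    rw [hG, hH, hP, ← h.inv s hs.le, A1_mm]
  have hone : ∀ s, 0 < s → (G s + N) * (H s + N) = 1 := by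
    intro s hs
    rw [Matrix.add_mul, Matrix.mul_add, Matrix.mul_add, hGH s hs, hGN s hs, hNH s hs, hNN, hPN]
    abel
  have hone' : ∀ s, 0 < s → (H s + N) * (G s + N) = 1 := fun s hs => mul_eq_one_comm.mp (hone s hs)
  have hHG : ∀ s, 0 < s → H s * G s = P := by
    intro s hs
    have h1 := hone' s hs
    rw [Matrix.add_mul, Matrix.mul_add, Matrix.mul_add, hHN s hs, hNG s hs, hNN, add_zero, zero_add] at h1
    rw [hPN, ← h1]
    abel
  -- derivatives
  have dG : ∀ s, A1_D G ((2 : ℝ) • X s) s := by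
    intro s i j
    have h1 : DifferentiableAt ℝ (fun t => g t i j) s := (h.smooth i j).differentiable (by simp) s
    have h2 := h1.hasDerivAt
    have h3 : ((2 : ℝ) • X s) i j = deriv (fun t => g t i j) s := by
      simp only [hX, Matrix.smul_apply, Matrix.of_apply, ch, smul_eq_mul]
      ring
    rw [h3]
    exact h2
  have dX : ∀ s, 0 < s → A1_D X (X s * H s * X s) s := by
    intro s hs i j
    have h1 : DifferentiableAt ℝ (fun t => ch g t i j) s := by
      have h2 : ContDiff ℝ ∞ (deriv (fun t => g t i j)) := by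
        have := (contDiff_infty_iff_deriv.mp (h.smooth i j)).2
        exact this
      have h3 : Differentiable ℝ (deriv (fun t => g t i j)) := h2.differentiable (by simp)
      exact (h3 s).div_const 2
    have h2 := h1.hasDerivAt
    rw [free s hs i j] at h2
    have h3 : (X s * H s * X s) i j = ∑ k, ∑ l, ch g s i k * gi s k l * ch g s l j := by
      rw [Matrix.mul_apply, Finset.sum_comm]
      refine Finset.sum_congr rfl fun l _ => ?_
      rw [Matrix.mul_apply, Finset.sum_mul]
      rfl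
    rw [h3]
    exact h2
  have hdetne : ∀ s, 0 < s → (G s + N).det ≠ 0 := by
    intro s hs h0
    have h1 := congrArg Matrix.det (hone s hs)
    rw [Matrix.det_mul, h0, zero_mul, Matrix.det_one] at h1
    exact zero_ne_one h1
  have hHeq : ∀ s, 0 < s → ∀ i j, H s i j = ((G s + N).det)⁻¹ * (G s + N).adjugate i j - N i j := by
    intro s hs i j
    have h1 : (G s + N)⁻¹ = H s + N := Matrix.inv_eq_right_inv (hone s hs)
    rw [Matrix.inv_def, Ring.inverse_eq_inv'] at h1
    have h2 := congrFun (congrFun h1 i) j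
    rw [Matrix.smul_apply, Matrix.add_apply, smul_eq_mul] at h2
    linarith
  have dH0 : ∀ s, 0 < s → ∀ i j, DifferentiableAt ℝ (fun t => H t i j) s := by
    intro s hs i j
    have h1 : ∀ i j, DifferentiableAt ℝ (fun t => (G t + N) i j) s := by
      intro i j
      exact ((dG s i j).differentiableAt).add_const _
    have h2 : DifferentiableAt ℝ
        (fun t => ((G t + N).det)⁻¹ * (G t + N).adjugate i j - N i j) s := by
      exact (((A1_det h1).inv (hdetne s hs)).mul (A1_adj h1 i j)).sub_const _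
    refine h2.congr_of_eventuallyEq ?_
    filter_upwards [lt_mem_nhds hs] with t ht
    exact hHeq t ht i j
  set H' : ℝ → A1_M := fun s => Matrix.of (fun i j => deriv (fun t => H t i j) s) with hH'
  have dH : ∀ s, 0 < s → A1_D H (H' s) s := fun s hs i j => (dH0 s hs i j).hasDerivAt
  have hH'eq : ∀ s, 0 < s → H' s = -(2 : ℝ) • (H s * X s * H s) := by
    intro s hs
    have e1 : H' s * N = 0 := by
      have d1 := A1_D_mul (dH s hs) (A1_D_const N s)
      have d2 : A1_D (fun t => H t * N) 0 s := A1_D_congr hs (A1_D_const 0 s) hHN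
      have d3 := A1_D_unique d1 d2
      rwa [Matrix.mul_zero, add_zero] at d3
    have e2 : H' s * G s + H s * ((2 : ℝ) • X s) = 0 := by
      have d1 := A1_D_mul (dH s hs) (dG s)
      have d2 : A1_D (fun t => H t * G t) 0 s := A1_D_congr hs (A1_D_const P s) hHG
      exact A1_D_unique d1 d2
    have e3 : H' s * (G s * H s) + (2 : ℝ) • (H s * X s * H s) = 0 := by
      have := congrArg (fun M => M * H s) e2
      simp only [Matrix.add_mul, Matrix.zero_mul, Matrix.mul_smul, Matrix.smul_mul] at this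
      rw [← Matrix.mul_assoc]
      exact this
    rw [hGH s hs, hPN, Matrix.mul_sub, e1, sub_zero, Matrix.mul_one] at e3
    rw [neg_smul]
    exact eq_neg_of_add_eq_zero_left e3
  have dW : ∀ s, 0 < s → A1_D (fun t => X t * H t * X t) 0 s := by
    intro s hs
    have d1 := A1_D_mul (A1_D_mul (dX s hs) (dH s hs)) (dX s hs)
    have e := A1_alg (hH'eq s hs) (rfl : X s * H s * X s = X s * H s * X s)
    rw [e] at d1
    exact d1
  have hconst : ∀ s, 0 < s → X s * H s * X s = X 1 * H 1 * X 1 := by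
    intro s hs
    ext i j
    exact A1_const (f := fun t => (X t * H t * X t) i j) (fun t ht => dW t ht i j) hs
  have hfin : X 1 * H 1 * X 1 = P := by
    ext i j
    refine A1_lim (f := fun t => g t i j) (X := fun t => X t i j) (fun s _ => ?_) (fun s hs => ?_) (norm i j)
    · exact dG s i j
    · have := dX s hs i j
      rw [hconst s hs] at this
      exact this
  intro s hs
  have h1 : (Matrix.of (mm (mm (ch g s) (gi s)) (ch g s)) : A1_M) = P := by
    rw [A1_mm, A1_mm, ← hfin, ← hconst s hs]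
  exact Matrix.of.injective h1

end NullPen
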