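import Pool.Agent.Lib.H17P.A1

set_option autoImplicit false

/-!
Chunk A2. `g s = (b + s P)^2` with `b = chi 0`.
Proof. `chi s` is symmetric and kills `n` for `s >= 0` (differentiate the relations for `g`, on `s > 0`, continuity at `0`).
From `chi gi chi = P` and `g gi = P` : `chi (gi chi) = P`; `chi = chi P = chi chi gi chi`, multiply on the right by
`gi chi` : `P = chi chi gi`, so `g = P g = chi chi gi g = chi chi P = chi chi` (`gi g = P` by transposition).
`chi' = chi gi chi = P` for `s > 0` and `chi` is continuous on `[0,∞)`, so `chi s = b + s P`. At `s = 0` use continuity.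
-/

open MeasureTheory Filter Topology
open scoped ContDiff

namespace NullPen

theorem A2_ext {f k : ℝ → ℝ} (hf : Continuous f) (hk : Continuous k) (h : ∀ s, 0 < s → f s = k s) :
    ∀ s, 0 ≤ s → f s = k s := by
  intro s hs
  have h1 : Set.EqOn f k (closure (Set.Ioi 0)) := Set.EqOn.closure (fun x hx => h x hx) hf hk
  rw [closure_Ioi] at h1
  exact h1 hs

theorem A2_dcont {g : ℝ → Fin 3 → Fin 3 → ℝ} (hsm : ∀ i j, ContDiff ℝ ∞ (fun s => g s i j)) (i j : Fin 3) :
    ContDiff ℝ ∞ (deriv (fun t => g t i j)) := (contDiff_infty_iff_deriv.mp (hsm i j)).2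

theorem A2_cont {g : ℝ → Fin 3 → Fin 3 → ℝ} (hsm : ∀ i j, ContDiff ℝ ∞ (fun s => g s i j)) (i j : Fin 3) :
    Continuous (fun s => ch g s i j) := (A2_dcont hsm i j).continuous.div_const 2

theorem A2_tan {n : Fin 3 → ℝ} {g : ℝ → Fin 3 → Fin 3 → ℝ} (hsm : ∀ i j, ContDiff ℝ ∞ (fun s => g s i j))
    (ht : ∀ s, 0 ≤ s → Tan n (g s)) : ∀ s, 0 ≤ s → Tan n (ch g s) := by
  intro s hs
  refine ⟨fun i j => ?_, fun i => ?_⟩
  · refine A2_ext (A2_cont hsm i j) (A2_cont hsm j i) (fun s hs => ?_) s hs
    have h1 : (fun t => g t i j) =ᶠ[𝓝 s] (fun t => g t j i) := by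
      filter_upwards [lt_mem_nhds hs] with t h0
      exact (ht t h0.le).symm i j
    simp only [ch]
    rw [h1.deriv_eq]
  · refine A2_ext (f := fun s => ∑ j, ch g s i j * n j) (k := fun _ => 0) ?_ continuous_const
      (fun s hs => ?_) s hs
    · exact continuous_finset_sum _ fun j _ => (A2_cont hsm i j).mul continuous_const
    · have h1 : HasDerivAt (fun t => ∑ j, g t i j * n j) (∑ j, deriv (fun t => g t i j) s * n j) s :=
        HasDerivAt.fun_sum fun j _ =>
          ((((hsm i j).differentiable (by simp)) s).hasDerivAt.mul_const (n j))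
      have h2 : HasDerivAt (fun t => ∑ j, g t i j * n j) 0 s := by
        refine (hasDerivAt_const s (0 : ℝ)).congr_of_eventuallyEq ?_
        filter_upwards [lt_mem_nhds hs] with t h0
        exact (ht t h0.le).ker i
      have h3 := h1.unique h2
      simp only [ch]
      calc ∑ j, deriv (fun t => g t i j) s / 2 * n j
          = (∑ j, deriv (fun t => g t i j) s * n j) / 2 := by
            rw [Finset.sum_div]
            exact Finset.sum_congr rfl fun j _ => by ring
        _ = 0 := by rw [h3, zero_div]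

theorem gen_form {n : Fin 3 → ℝ} {g gi : ℝ → Fin 3 → Fin 3 → ℝ} (h : Gen n g gi)
    (free : ∀ s, 0 < s → ∀ i j, deriv (fun t => ch g t i j) s = ∑ k, ∑ l, ch g s i k * gi s k l * ch g s l j)
    (hc : ∀ s, 0 < s → mm (mm (ch g s) (gi s)) (ch g s) = pr n) :
    Tan n (ch g 0) ∧ (∀ s, 0 ≤ s → ch g s = sh n (ch g 0) s) ∧
    ∀ s, 0 ≤ s → g s = mm (sh n (ch g 0) s) (sh n (ch g 0) s) := by
  have htan := A2_tan h.smooth h.tan
  -- matrices
  set G : ℝ → A1_M := fun s => Matrix.of (g s) with hG
  set H : ℝ → A1_M := fun s => Matrix.of (gi s) with hH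
  set X : ℝ → A1_M := fun s => Matrix.of (ch g s) with hX
  set N : A1_M := Matrix.of (fun i j => n i * n j) with hN
  set P : A1_M := Matrix.of (pr n) with hP
  have hun : ∑ i, n i * n i = 1 := by
    rw [← h.unit]
    exact Finset.sum_congr rfl fun i _ => (pow_two _).symm
  have hPN : P = 1 - N := by
    ext i j
    simp [hP, hN, pr, Matrix.one_apply]
  have hNN : N * N = N := by
    ext i j
    rw [Matrix.mul_apply]
    simp only [hN, Matrix.of_apply]
    calc ∑ k, n i * n k * (n k * n j) = n i * n j * ∑ k, n k * n k := by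
          rw [Finset.mul_sum]
          exact Finset.sum_congr rfl fun k _ => by ring
      _ = n i * n j := by rw [hun, mul_one]
  have hker : ∀ a : Fin 3 → Fin 3 → ℝ, Tan n a → (Matrix.of a : A1_M) * N = 0 := by
    intro a ha
    ext i j
    rw [Matrix.mul_apply]
    simp only [hN, Matrix.of_apply, Matrix.zero_apply]
    calc ∑ k, a i k * (n k * n j) = (∑ k, a i k * n k) * n j := by
          rw [Finset.sum_mul]
          exact Finset.sum_congr rfl fun k _ => by ring
      _ = 0 := by rw [ha.ker i, zero_mul]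
  have hker' : ∀ a : Fin 3 → Fin 3 → ℝ, Tan n a → N * (Matrix.of a : A1_M) = 0 := by
    intro a ha
    ext i j
    rw [Matrix.mul_apply]
    simp only [hN, Matrix.of_apply, Matrix.zero_apply]
    calc ∑ k, n i * n k * a k j = n i * (∑ k, a j k * n k) := by
          rw [Finset.mul_sum]
          exact Finset.sum_congr rfl fun k _ => by rw [ha.symm k j]; ring
      _ = 0 := by rw [ha.ker j, mul_zero]
  have hGN : ∀ s, 0 < s → G s * N = 0 := fun s hs => hker _ (h.tan s hs.le)
  have hHN : ∀ s, 0 < s → H s * N = 0 := fun s hs => hker _ (h.tani s hs.le)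
  have hNG : ∀ s, 0 < s → N * G s = 0 := fun s hs => hker' _ (h.tan s hs.le)
  have hNH : ∀ s, 0 < s → N * H s = 0 := fun s hs => hker' _ (h.tani s hs.le)
  have hXN : ∀ s, 0 < s → X s * N = 0 := fun s hs => hker _ (htan s hs.le)
  have hNX : ∀ s, 0 < s → N * X s = 0 := fun s hs => hker' _ (htan s hs.le)
  have hGH : ∀ s, 0 < s → G s * H s = P := by
    intro s hs
    rw [hG, hH, hP, ← h.inv s hs.le, A1_mm]
  have hone : ∀ s, 0 < s → (G s + N) * (H s + N) = 1 := by
    intro s hs
    rw [Matrix.add_mul, Matrix.mul_add, Matrix.mul_add, hGH s hs, hGN s hs, hNH s hs, hNN, hPN]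
    abel
  have hone' : ∀ s, 0 < s → (H s + N) * (G s + N) = 1 := fun s hs => mul_eq_one_comm.mp (hone s hs)
  have hHG : ∀ s, 0 < s → H s * G s = P := by
    intro s hs
    have h1 := hone' s hs
    rw [Matrix.add_mul, Matrix.mul_add, Matrix.mul_add, hHN s hs, hNG s hs, hNN, add_zero, zero_add] at h1
    rw [hPN, ← h1]
    abel
  have hXHX : ∀ s, 0 < s → X s * H s * X s = P := by
    intro s hs
    rw [hX, hH, hP, ← hc s hs, A1_mm, A1_mm]
  have hXXH : ∀ s, 0 < s → X s * (X s * H s) = P := by
    intro s hs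
    have h1 : (X s * H s + N) * (X s + N) = 1 := by
      rw [Matrix.add_mul, Matrix.mul_add, Matrix.mul_add, hXHX s hs, hNX s hs, hNN, Matrix.mul_assoc,
        hHN s hs, Matrix.mul_zero, hPN]
      abel
    have h2 := mul_eq_one_comm.mp h1
    rw [Matrix.add_mul, Matrix.mul_add, Matrix.mul_add, hXN s hs, hNN, ← Matrix.mul_assoc N, hNX s hs,
      Matrix.zero_mul, add_zero, zero_add] at h2
    rw [hPN, ← h2]
    abel
  have hGXX : ∀ s, 0 < s → G s = X s * X s := by
    intro s hs
    have h1 : X s * X s = X s * X s * P := by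
      rw [hPN, Matrix.mul_sub, Matrix.mul_one, Matrix.mul_assoc (X s) (X s) N, hXN s hs, Matrix.mul_zero,
        sub_zero]
    rw [h1, ← hHG s hs, ← Matrix.mul_assoc, Matrix.mul_assoc (X s) (X s) (H s), hXXH s hs, hPN,
      Matrix.sub_mul, Matrix.one_mul, hNG s hs, sub_zero]
  -- derivative of `X`
  have dX : ∀ s, 0 < s → ∀ i j, HasDerivAt (fun t => ch g t i j) (pr n i j) s := by
    intro s hs i j
    have h1 : DifferentiableAt ℝ (fun t => ch g t i j) s := by
      have h3 : Differentiable ℝ (deriv (fun t => g t i j)) :=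
        (A2_dcont h.smooth i j).differentiable (by simp)
      exact (h3 s).div_const 2
    have h2 := h1.hasDerivAt
    rw [free s hs i j] at h2
    have h3 : pr n i j = ∑ k, ∑ l, ch g s i k * gi s k l * ch g s l j := by
      rw [← hc s hs]
      simp only [mm]
      rw [Finset.sum_comm]
      refine Finset.sum_congr rfl fun l _ => ?_
      rw [Finset.sum_mul]
    rw [h3]
    exact h2
  have hform : ∀ s, 0 ≤ s → ch g s = sh n (ch g 0) s := by
    intro s hs
    funext i j
    have hcc := A2_cont h.smooth i j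
    have h2 : ∀ s, 0 < s → HasDerivAt (fun t => ch g t i j - t * pr n i j) 0 s := by
      intro s hs
      have h3 : HasDerivAt (fun t => ch g t i j - t * pr n i j) (pr n i j - 1 * pr n i j) s :=
        (dX s hs i j).sub ((hasDerivAt_id s).mul_const _)
      rwa [one_mul, sub_self] at h3
    have h4 : ∀ s, 0 ≤ s → ch g s i j - s * pr n i j = ch g 1 i j - 1 * pr n i j :=
      A2_ext (hcc.sub (continuous_id.mul continuous_const)) continuous_const
        (fun s hs => A1_const (f := fun t => ch g t i j - t * pr n i j) h2 hs)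
    have h5 := h4 s hs
    have h6 := h4 0 le_rfl
    simp only [sh]
    linarith
  refine ⟨htan 0 le_rfl, hform, fun s hs => ?_⟩
  rw [← hform s hs]
  funext i j
  refine A2_ext (f := fun s => g s i j) (k := fun s => mm (ch g s) (ch g s) i j) (h.smooth i j).continuous ?_
    (fun s hs => ?_) s hs
  · exact continuous_finset_sum _ fun k _ => (A2_cont h.smooth i k).mul (A2_cont h.smooth k j)
  · have h1 := congrFun (congrFun (hGXX s hs) i) j
    rw [Matrix.mul_apply] at h1
    exact h1

end NullPen
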