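import Pool.Agent.Lib.H17P.Lin
import Pool.Agent.Lib.NullShell.PW

set_option autoImplicit false

/-!
Chunk A3. Positivity of `b`, area element.
`sh_dt`: `dt (b + s P) = dt b + s tr b + s^2` (expand; `tr P = 2`, `<b, P> = tr b`).
`pos_of`: `dt (b + s P) ≠ 0` for `s >= 0` (otherwise `b + s P` would kill a nonzero tangent vector: if `a` is symmetric and kills `n`,
`dt a = 0` and `v` is tangent then `a (a v - tr a v) = - dt a v = 0` by Cayley-Hamilton (`NShell.cayley` in `NullShell/PW.lean`);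
take `w = a v - tr a v`, if it is zero for all tangent `v` then `a = tr a P`, trace gives `tr a = 0`, `a = 0`). The quadratic
`dt b + s tr b + s^2` has discriminant `2 |b - (tr b / 2) P|^2 >= 0`, so its larger root is negative: `0 < tr b` and `0 < dt b`.
`dt_sq`: with `E = b + s P`, `E^2 = tr E E - dt E P` (Cayley-Hamilton), so `dt (E^2) = (dt E)^2`.
-/

open MeasureTheory Filter Topology
open scoped ContDiff

namespace NullPen

theorem a3_prs (n : Fin 3 → ℝ) (i j : Fin 3) : pr n i j = pr n j i := by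
  unfold pr
  by_cases h : i = j
  · rw [h]
  · have h' : ¬ j = i := fun e => h e.symm
    simp only [h, h', if_false]
    ring

theorem a3_prtr {n : Fin 3 → ℝ} (hn : ∑ i, n i ^ 2 = 1) : tr (pr n) = 2 := by
  unfold tr pr
  simp only [Fin.sum_univ_three] at hn ⊢
  simp only [if_true]
  linear_combination -hn

theorem a3_prsq {n : Fin 3 → ℝ} (hn : ∑ i, n i ^ 2 = 1) : ∑ i, ∑ j, pr n i j ^ 2 = 2 := by
  unfold pr
  simp only [Fin.sum_univ_three] at hn ⊢
  simp only [Fin.isValue, if_true, zero_ne_one, one_ne_zero, Fin.reduceEq, if_false]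
  linear_combination (n 0 ^ 2 + n 1 ^ 2 + n 2 ^ 2 - 1) * hn

theorem a3_prn {n : Fin 3 → ℝ} (hn : ∑ i, n i ^ 2 = 1) (i : Fin 3) : ∑ j, pr n i j * n j = 0 := by
  unfold pr
  simp only [sub_mul, ite_mul, one_mul, zero_mul, Finset.sum_sub_distrib, Finset.sum_ite_eq, Finset.mem_univ, if_true]
  have h : ∑ j, n i * n j * n j = n i * ∑ j, n j ^ 2 := by
    rw [Finset.mul_sum]
    exact Finset.sum_congr rfl fun j _ => by ring
  rw [h, hn]
  ring

theorem a3_bpr {n : Fin 3 → ℝ} {b : Fin 3 → Fin 3 → ℝ} (hb : Tan n b) : ∑ i, ∑ j, b i j * pr n i j = tr b := by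
  have r0 := hb.ker 0
  have r1 := hb.ker 1
  have r2 := hb.ker 2
  unfold pr tr
  simp only [Fin.sum_univ_three] at r0 r1 r2 ⊢
  simp only [Fin.isValue, if_true, zero_ne_one, one_ne_zero, Fin.reduceEq, if_false]
  linear_combination (-n 0) * r0 - n 1 * r1 - n 2 * r2

theorem sh_tr {n : Fin 3 → ℝ} (hn : ∑ i, n i ^ 2 = 1) (b : Fin 3 → Fin 3 → ℝ) (s : ℝ) :
    tr (sh n b s) = tr b + 2 * s := by
  have h := a3_prtr hn
  unfold tr at h
  unfold sh tr
  rw [Finset.sum_add_distrib, ← Finset.mul_sum, h]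
  ring

theorem a3_comb {n : Fin 3 → ℝ} (hn : ∑ i, n i ^ 2 = 1) {b : Fin 3 → Fin 3 → ℝ} (hb : Tan n b) (x y : ℝ) :
    ∑ i, ∑ j, (x * b i j + y * pr n i j) ^ 2 = x ^ 2 * sq b + 2 * x * y * tr b + 2 * y ^ 2 := by
  have h1 := a3_bpr hb
  have h2 := a3_prsq hn
  have e : ∑ i, ∑ j, (x * b i j + y * pr n i j) ^ 2 = x ^ 2 * (∑ i, ∑ j, b i j ^ 2) +
      2 * x * y * (∑ i, ∑ j, b i j * pr n i j) + y ^ 2 * ∑ i, ∑ j, pr n i j ^ 2 := by
    simp only [Fin.sum_univ_three]
    ring
  rw [e, h1, h2]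
  unfold sq
  ring

theorem sh_dt {n : Fin 3 → ℝ} (hn : ∑ i, n i ^ 2 = 1) {b : Fin 3 → Fin 3 → ℝ} (hb : Tan n b) (s : ℝ) :
    dt (sh n b s) = dt b + s * tr b + s ^ 2 := by
  have h := a3_comb hn hb 1 s
  have h2 : sq (sh n b s) = sq b + 2 * s * tr b + 2 * s ^ 2 := by
    have e : sq (sh n b s) = ∑ i, ∑ j, (1 * b i j + s * pr n i j) ^ 2 := by
      unfold sq sh
      simp only [one_mul]
    rw [e, h]
    ring
  unfold dt
  rw [sh_tr hn, h2]
  ring

theorem sh_tan {n : Fin 3 → ℝ} (hn : ∑ i, n i ^ 2 = 1) {b : Fin 3 → Fin 3 → ℝ} (hb : Tan n b) (s : ℝ) :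
    Tan n (sh n b s) := by
  refine ⟨fun i j => ?_, fun i => ?_⟩
  · unfold sh
    rw [hb.symm i j, a3_prs]
  · unfold sh
    have e : ∑ j, (b i j + s * pr n i j) * n j = (∑ j, b i j * n j) + s * ∑ j, pr n i j * n j := by
      rw [Finset.mul_sum, ← Finset.sum_add_distrib]
      exact Finset.sum_congr rfl fun j _ => by ring
    rw [e, hb.ker i, a3_prn hn i]
    ring

theorem a3_cay {n : Fin 3 → ℝ} (hn : ∑ i, n i ^ 2 = 1) {a : Fin 3 → Fin 3 → ℝ} (ha : Tan n a) (i j : Fin 3) :
    mm a a i j = tr a * a i j - dt a * pr n i j := by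
  have h := NShell.cayley a n (tr a) (dt a) hn ha.symm ha.ker rfl rfl i j
  unfold mm pr
  linear_combination h

/-- A tangential symmetric array whose square is positive has nonzero determinant. -/
theorem a3_ne {n : Fin 3 → ℝ} (hn : ∑ i, n i ^ 2 = 1) {a : Fin 3 → Fin 3 → ℝ} (ha : Tan n a)
    (h : ∀ v : Fin 3 → ℝ, v ≠ 0 → ∑ i, n i * v i = 0 → 0 < ∑ i, ∑ j, mm a a i j * v i * v j) : dt a ≠ 0 := by
  intro h0
  have hc : ∀ i j, mm a a i j = tr a * a i j := by
    intro i j
    rw [a3_cay hn ha, h0]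
    ring
  -- the columns of `a - tr a P`
  have hcol : ∀ k, (fun i => a i k - tr a * pr n i k) = 0 := by
    intro k
    by_contra hne
    have ht : ∑ i, n i * (a i k - tr a * pr n i k) = 0 := by
      have e1 := ha.ker k
      have e2 := a3_prn hn k
      have e : ∑ i, n i * (a i k - tr a * pr n i k) = (∑ i, a k i * n i) - tr a * ∑ i, pr n k i * n i := by
        rw [Finset.mul_sum, ← Finset.sum_sub_distrib]
        exact Finset.sum_congr rfl fun i _ => by rw [ha.symm i k, a3_prs n i k]; ring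
      rw [e, e1, e2]
      ring
    have hp := h _ hne ht
    have hz : ∀ i, ∑ j, mm a a i j * (a j k - tr a * pr n j k) = 0 := by
      intro i
      have e1 : ∑ j, a i j * a j k = mm a a i k := rfl
      have e2 : ∑ j, a i j * pr n j k = a i k := by
        unfold pr
        simp only [mul_sub, mul_ite, mul_one, mul_zero, Finset.sum_sub_distrib, Finset.sum_ite_eq', Finset.mem_univ,
          if_true]
        have e3 : ∑ j, a i j * (n j * n k) = (∑ j, a i j * n j) * n k := by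
          rw [Finset.sum_mul]
          exact Finset.sum_congr rfl fun j _ => by ring
        rw [e3, ha.ker i]
        ring
      simp only [hc]
      have e4 : ∑ j, tr a * a i j * (a j k - tr a * pr n j k) = tr a * (∑ j, a i j * a j k) -
          tr a * tr a * ∑ j, a i j * pr n j k := by
        rw [Finset.mul_sum, Finset.mul_sum, ← Finset.sum_sub_distrib]
        exact Finset.sum_congr rfl fun j _ => by ring
      rw [e4, e1, e2, hc]
      ring
    have e5 : ∑ i, ∑ j, mm a a i j * (a i k - tr a * pr n i k) * (a j k - tr a * pr n j k) =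
        ∑ i, (a i k - tr a * pr n i k) * ∑ j, mm a a i j * (a j k - tr a * pr n j k) := by
      refine Finset.sum_congr rfl fun i _ => ?_
      rw [Finset.mul_sum]
      exact Finset.sum_congr rfl fun j _ => by ring
    simp only [e5, hz, mul_zero, Finset.sum_const_zero, lt_irrefl] at hp
  have ha2 : ∀ i k, a i k = tr a * pr n i k := by
    intro i k
    have h1 := congrFun (hcol k) i
    simp only [Pi.zero_apply] at h1
    linarith
  have ht0 : tr a = 0 := by
    have h1 : tr a = tr a * tr (pr n) := by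
      conv_lhs => rw [tr]
      simp only [ha2 _ _]
      rw [← Finset.mul_sum]
      rfl
    rw [a3_prtr hn] at h1
    linarith
  have ha0 : ∀ i k, a i k = 0 := by
    intro i k
    rw [ha2, ht0, zero_mul]
  -- a nonzero tangent vector
  have hex : ∃ k, pr n k k ≠ 0 := by
    by_contra hno
    push Not at hno
    have h1 := a3_prtr hn
    unfold tr at h1
    simp only [hno, Finset.sum_const_zero] at h1
    norm_num at h1
  obtain ⟨k, hk⟩ := hex
  have hp := h (fun i => pr n i k) (fun e => hk (congrFun e k)) (by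
    have e2 := a3_prn hn k
    rw [← e2]
    exact Finset.sum_congr rfl fun i _ => by rw [a3_prs n i k]; ring)
  have hm : ∀ i j, mm a a i j = 0 := by
    intro i j
    rw [hc, ha0, mul_zero]
  simp only [hm, zero_mul, Finset.sum_const_zero, lt_irrefl] at hp

theorem pos_of {n : Fin 3 → ℝ} (hn : ∑ i, n i ^ 2 = 1) {b : Fin 3 → Fin 3 → ℝ} (hb : Tan n b)
    (h : ∀ s, 0 ≤ s → ∀ v : Fin 3 → ℝ, v ≠ 0 → ∑ i, n i * v i = 0 →
      0 < ∑ i, ∑ j, mm (sh n b s) (sh n b s) i j * v i * v j) : 0 < tr b ∧ 0 < dt b := by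
  have hne : ∀ s, 0 ≤ s → dt b + s * tr b + s ^ 2 ≠ 0 := by
    intro s hs
    rw [← sh_dt hn hb s]
    exact a3_ne hn (sh_tan hn hb s) (h s hs)
  have hdisc : 0 ≤ tr b ^ 2 - 4 * dt b := by
    have h1 := a3_comb hn hb 1 (-(tr b / 2))
    have h2 : 0 ≤ ∑ i, ∑ j, (1 * b i j + -(tr b / 2) * pr n i j) ^ 2 :=
      Finset.sum_nonneg fun i _ => Finset.sum_nonneg fun j _ => sq_nonneg _
    rw [h1] at h2
    have h3 : dt b = (tr b ^ 2 - sq b) / 2 := rfl
    rw [h3]
    nlinarith
  set r := Real.sqrt (tr b ^ 2 - 4 * dt b) with hr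
  have hr2 : r ^ 2 = tr b ^ 2 - 4 * dt b := Real.sq_sqrt hdisc
  have hr0 : 0 ≤ r := Real.sqrt_nonneg _
  have hlt : r < tr b := by
    by_contra hge
    push Not at hge
    refine hne ((r - tr b) / 2) (by linarith) ?_
    have : dt b + (r - tr b) / 2 * tr b + ((r - tr b) / 2) ^ 2 = dt b + (r ^ 2 - tr b ^ 2) / 4 := by ring
    rw [this, hr2]
    ring
  have ht : 0 < tr b := lt_of_le_of_lt hr0 hlt
  refine ⟨ht, ?_⟩
  nlinarith

theorem dt_sq {n : Fin 3 → ℝ} (hn : ∑ i, n i ^ 2 = 1) {a : Fin 3 → Fin 3 → ℝ} (ha : Tan n a) :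
    dt (mm a a) = dt a ^ 2 := by
  have hc := a3_cay hn ha
  have h1 := a3_comb hn ha (tr a) (-dt a)
  have h2 : sq (mm a a) = tr a ^ 2 * sq a + 2 * tr a * (-dt a) * tr a + 2 * (-dt a) ^ 2 := by
    rw [← h1]
    unfold sq
    simp only [hc]
    exact Finset.sum_congr rfl fun i _ => Finset.sum_congr rfl fun j _ => by ring
  have h3 : tr (mm a a) = tr a * tr a - dt a * 2 := by
    rw [← a3_prtr hn]
    have e : tr (mm a a) = ∑ i, (tr a * a i i - dt a * pr n i i) := by
      conv_lhs => rw [tr]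
      exact Finset.sum_congr rfl fun i _ => hc i i
    rw [e, Finset.sum_sub_distrib, ← Finset.mul_sum, ← Finset.mul_sum]
    rfl
  have h4 : sq a = tr a ^ 2 - 2 * dt a := by
    have h5 : dt a = (tr a ^ 2 - sq a) / 2 := rfl
    rw [h5]
    ring
  have h6 : dt (mm a a) = (tr (mm a a) ^ 2 - sq (mm a a)) / 2 := rfl
  rw [h6, h2, h3, h4]
  ring

end NullPen
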