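import Pool.Agent.Lib.H17P.A1
import Pool.Agent.Lib.H17P.A2
import Pool.Agent.Lib.H17P.A3

set_option autoImplicit false

/-!
Chunk B1. From the data on `N` to `B`: apply `gen_const`, `gen_form`, `pos_of`, `sh_dt`, `dt_sq` on every generator
(`D.chi s n = ch (fun t => D.g t n) s`, `proj n = pr n`). Smoothness of `D.bb`: it is the partial derivative in `s` at `s = 0` of a smooth function of
`(s, y)`.
-/

open MeasureTheory Filter Topology
open scoped ContDiff

namespace NullPen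
namespace NullData
variable {D : NullData}

theorem unit_n (n : S2) : ∑ i, (n : E3) i ^ 2 = 1 := by
  have h1 : ‖(n : E3)‖ = 1 := by simp
  have h2 := EuclideanSpace.norm_sq_eq (n : E3)
  rw [h1] at h2
  simp only [Real.norm_eq_abs, sq_abs] at h2
  linarith

/-- The generator `n`. -/
theorem gen (hD : D.IsNull) (n : S2) : Gen (fun i => (n : E3) i) (fun s => D.g s n) (fun s => D.gi s n) where
  unit := unit_n n
  smooth i j := (hD.smooth_g i j).comp (contDiff_id.prodMk contDiff_const)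
  tan s hs := ⟨hD.g_symm s hs n, hD.g_tan s hs n⟩
  pos s hs := hD.g_pos s hs n
  tani s hs := ⟨hD.gi_symm s hs n, hD.gi_tan s hs n⟩
  inv s hs := by
    funext i j
    exact hD.gi_inv s hs n i j

private theorem b1_form (hD : D.Admissible) (n : S2) :
    Tan (fun i => (n : E3) i) (D.bb n) ∧
    (∀ s, 0 ≤ s → D.chi s n = sh (fun i => (n : E3) i) (D.bb n) s) ∧
    ∀ s, 0 ≤ s → D.g s n = mm (sh (fun i => (n : E3) i) (D.bb n) s) (sh (fun i => (n : E3) i) (D.bb n) s) := by
  have hf : ∀ s, 0 < s → ∀ i j, deriv (fun t => ch (fun s => D.g s n) t i j) s =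
      ∑ k, ∑ l, ch (fun s => D.g s n) s i k * (fun s => D.gi s n) s k l * ch (fun s => D.g s n) s l j :=
    fun s hs i j => hD.free s hs n i j
  exact gen_form (gen hD.null n) hf (gen_const (gen hD.null n) hf (hD.norm n))

theorem bb_tan (hD : D.Admissible) (n : S2) : Tan (fun i => (n : E3) i) (D.bb n) := (b1_form hD n).1

theorem chi_eq (hD : D.Admissible) (n : S2) (s : ℝ) (hs : 0 ≤ s) : D.chi s n = sh (fun i => (n : E3) i) (D.bb n) s :=
  (b1_form hD n).2.1 s hs

theorem g_eq (hD : D.Admissible) (n : S2) (s : ℝ) (hs : 0 ≤ s) :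
    D.g s n = mm (sh (fun i => (n : E3) i) (D.bb n) s) (sh (fun i => (n : E3) i) (D.bb n) s) :=
  (b1_form hD n).2.2 s hs

private theorem b1_pos (hD : D.Admissible) (n : S2) : 0 < tr (D.bb n) ∧ 0 < dt (D.bb n) :=
  pos_of (unit_n n) (bb_tan hD n) fun s hs v hv hn => by
    rw [← g_eq hD n s hs]
    exact hD.null.g_pos s hs n v hv hn

theorem tt_pos (hD : D.Admissible) (n : S2) : 0 < D.tt n := (b1_pos hD n).1

theorem dd_pos (hD : D.Admissible) (n : S2) : 0 < D.dd n := (b1_pos hD n).2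

theorem dA_eq (hD : D.Admissible) (n : S2) (s : ℝ) (hs : 0 ≤ s) : D.dA s n = D.dd n + s * D.tt n + s ^ 2 := by
  have h1 : D.dA s n = Real.sqrt (dt (D.g s n)) := rfl
  have h2 := tt_pos hD n
  have h3 := dd_pos hD n
  rw [h1, g_eq hD n s hs, dt_sq (unit_n n) (sh_tan (unit_n n) (bb_tan hD n) s), sh_dt (unit_n n) (bb_tan hD n)]
  exact Real.sqrt_sq (by change 0 ≤ D.dd n + s * D.tt n + s ^ 2; positivity)

theorem bb_smooth (hD : D.IsNull) (i j : Fin 3) : ContDiff ℝ ∞ (fun y => D.bb y i j) := by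
  have hF := hD.smooth_g i j
  have h1 : (fun y => D.bb y i j) = fun y : E3 =>
      fderiv ℝ (fun p : ℝ × E3 => D.g p.1 p.2 i j) (0, y) ((1 : ℝ), (0 : E3)) / 2 := by
    funext y
    have hd : HasFDerivAt (fun p : ℝ × E3 => D.g p.1 p.2 i j)
        (fderiv ℝ (fun p : ℝ × E3 => D.g p.1 p.2 i j) (0, y)) (0, y) :=
      (hF.differentiable (by simp) _).hasFDerivAt
    have hc : HasDerivAt (fun t : ℝ => (t, y)) ((1 : ℝ), (0 : E3)) 0 :=
      (hasDerivAt_id (0 : ℝ)).prodMk (hasDerivAt_const (0 : ℝ) y)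
    have h2 := (hd.comp_hasDerivAt (0 : ℝ) hc).deriv
    change deriv (fun t => D.g t y i j) 0 / 2 = _
    rw [← h2]
    rfl
  rw [h1]
  have h2 : ContDiff ℝ ∞ (fderiv ℝ (fun p : ℝ × E3 => D.g p.1 p.2 i j)) := hF.fderiv_right (m := ∞) (by simp)
  exact ((h2.comp (contDiff_const.prodMk contDiff_id)).clm_apply contDiff_const).div_const 2

theorem tt_smooth (hD : D.IsNull) : ContDiff ℝ ∞ (fun y => D.tt y) := by
  change ContDiff ℝ ∞ (fun y => ∑ i, D.bb y i i)
  exact ContDiff.sum fun i _ => bb_smooth hD i i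

theorem dd_smooth (hD : D.IsNull) : ContDiff ℝ ∞ (fun y => D.dd y) := by
  change ContDiff ℝ ∞ (fun y => ((∑ i, D.bb y i i) ^ 2 - ∑ i, ∑ j, D.bb y i j ^ 2) / 2)
  exact (((ContDiff.sum fun i _ => bb_smooth hD i i).pow 2).sub
    (ContDiff.sum fun i _ => ContDiff.sum fun j _ => (bb_smooth hD i j).pow 2)).div_const 2

private theorem b1_z (hD : D.IsNull) (i : Fin 3) (t : ℝ) : ContDiff ℝ ∞ (fun y : E3 => D.ζ t y i) :=
  (hD.smooth_ζ i).comp (contDiff_const.prodMk contDiff_id)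

theorem cc_smooth (hD : D.IsNull) (i : Fin 3) : ContDiff ℝ ∞ (fun y => D.cc y i) :=
  (b1_z hD i 0).mul (dd_smooth hD)

theorem TT_smooth (hD : D.IsNull) (i : Fin 3) : ContDiff ℝ ∞ (fun y => D.TT y i) :=
  ((b1_z hD i 0).mul (dd_smooth hD)).sub
    ((b1_z hD i 1).mul (((dd_smooth hD).add (tt_smooth hD)).add contDiff_const))

end NullData
end NullPen
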