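import Pool.Agent.Lib.H17P.Stmt
import Pool.Agent.Lib.NullShell.STD

set_option autoImplicit false

/-!
Chunk M2. Divergence theorem on the sphere. `sum_ij proj_ij pd i V_j` is the divergence of the tangential field `V`:
with `v_i = <V, r_i>` (`r_i = e_i × n`, `NShell.rotv`) it is `sum_i r_i (v_i)` (`V = sum_i v_i r_i` on the sphere), and the integral of a rotation
derivative vanishes (`NShell.std_izero`). Here `NullPen.sm` is `PenroseSph.sm` by definition and `NullPen.pd k f x = fderiv ℝ f x (single k 1)` for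
differentiable `f`.
-/

open MeasureTheory Filter Topology
open scoped ContDiff

namespace NullPen

theorem pd_fderiv {f : E3 → ℝ} {x : E3} (hf : DifferentiableAt ℝ f x) (k : Fin 3) :
    pd k f x = fderiv ℝ f x (EuclideanSpace.single k 1) := by
  unfold pd
  have h1 : HasDerivAt (fun t : ℝ => x + t • EuclideanSpace.single k (1 : ℝ)) (EuclideanSpace.single k (1 : ℝ)) 0 := by
    have h := ((hasDerivAt_id (0 : ℝ)).smul_const (EuclideanSpace.single k (1 : ℝ) : E3)).const_add x
    simpa using h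
  have h2 : HasFDerivAt f (fderiv ℝ f x) (x + (0 : ℝ) • EuclideanSpace.single k (1 : ℝ)) := by
    simpa using hf.hasFDerivAt
  exact (h2.comp_hasDerivAt (0 : ℝ) h1).deriv

private theorem m2_coord (i : Fin 3) : ContDiff ℝ ∞ (fun y : E3 => y i) := (EuclideanSpace.proj i : E3 →L[ℝ] ℝ).contDiff

private theorem m2_pdc (i k : Fin 3) (x : E3) : pd k (fun y : E3 => y i) x = if i = k then 1 else 0 := by
  rw [pd_fderiv ((m2_coord i).differentiable (by simp) x)]
  have h : fderiv ℝ (fun y : E3 => y i) x = (EuclideanSpace.proj i : E3 →L[ℝ] ℝ) :=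
    (EuclideanSpace.proj i : E3 →L[ℝ] ℝ).fderiv
  rw [h]
  simp

private theorem m2_sub {f g : E3 → ℝ} {x : E3} (hf : DifferentiableAt ℝ f x) (hg : DifferentiableAt ℝ g x) (k : Fin 3) :
    pd k (fun y => f y - g y) x = pd k f x - pd k g x := by
  rw [pd_fderiv hf, pd_fderiv hg, pd_fderiv (hf.fun_sub hg), fderiv_fun_sub hf hg]
  rfl

private theorem m2_mul {f g : E3 → ℝ} {x : E3} (hf : DifferentiableAt ℝ f x) (hg : DifferentiableAt ℝ g x) (k : Fin 3) :
    pd k (fun y => f y * g y) x = f x * pd k g x + g x * pd k f x := by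
  rw [pd_fderiv hf, pd_fderiv hg, pd_fderiv (hf.fun_mul hg), fderiv_fun_mul hf hg]
  rfl

private theorem m2_unit (n : S2) : (n : E3) 0 ^ 2 + (n : E3) 1 ^ 2 + (n : E3) 2 ^ 2 = 1 := by
  have h1 : ‖(n : E3)‖ = 1 := by simp
  have h2 := EuclideanSpace.norm_sq_eq (n : E3)
  rw [h1, Fin.sum_univ_three] at h2
  simp only [Real.norm_eq_abs, sq_abs] at h2
  linarith

theorem int_div {V : E3 → Fin 3 → ℝ} (hV : ∀ i, ContDiff ℝ ∞ (fun y => V y i))
    (hVt : ∀ n : S2, ∑ i, (n : E3) i * V n i = 0) :
    ∫ n : S2, (∑ i, ∑ j, proj n i j * pd i (fun y => V y j) n) ∂sm = 0 := by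
  have hF : ∀ i : Fin 3, ContDiff ℝ ∞ (fun y : E3 => y (i + 1) * V y (i + 2) - y (i + 2) * V y (i + 1)) := fun i =>
    ((m2_coord _).mul (hV _)).sub ((m2_coord _).mul (hV _))
  set f : Fin 3 → NShell.SFun := fun i => NShell.SFun.of _ (hF i) with hf
  have hL : ∀ (i : Fin 3) (n : S2), (NShell.stdL i (f i)).1 n =
      (n : E3) (i + 1) * ((n : E3) (i + 1) * pd (i + 2) (fun y => V y (i + 2)) n - V n (i + 1)
        - (n : E3) (i + 2) * pd (i + 2) (fun y => V y (i + 1)) n) -
      (n : E3) (i + 2) * (V n (i + 2) + (n : E3) (i + 1) * pd (i + 1) (fun y => V y (i + 2)) n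
        - (n : E3) (i + 2) * pd (i + 1) (fun y => V y (i + 1)) n) := by
    intro i n
    rw [NShell.stdL_of i (f i) _ (hF i) (fun _ => rfl) n]
    have hd : DifferentiableAt ℝ (fun y : E3 => y (i + 1) * V y (i + 2) - y (i + 2) * V y (i + 1)) n :=
      (hF i).differentiable (by simp) _
    have hVd : ∀ j, DifferentiableAt ℝ (fun y => V y j) (n : E3) := fun j => (hV j).differentiable (by simp) _
    have hcd : ∀ j, DifferentiableAt ℝ (fun y : E3 => y j) (n : E3) := fun j =>
      (m2_coord j).differentiable (by simp) _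
    unfold NShell.rotv
    rw [map_sub, map_smul, map_smul, smul_eq_mul, smul_eq_mul, ← pd_fderiv hd, ← pd_fderiv hd]
    have hk : ∀ k, pd k (fun y : E3 => y (i + 1) * V y (i + 2) - y (i + 2) * V y (i + 1)) n =
        ((n : E3) (i + 1) * pd k (fun y => V y (i + 2)) n + V n (i + 2) * (if i + 1 = k then 1 else 0)) -
        ((n : E3) (i + 2) * pd k (fun y => V y (i + 1)) n + V n (i + 1) * (if i + 2 = k then 1 else 0)) := by
      intro k
      rw [m2_sub ((hcd _).fun_mul (hVd _)) ((hcd _).fun_mul (hVd _)), m2_mul (hcd _) (hVd _),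
        m2_mul (hcd _) (hVd _), m2_pdc, m2_pdc]
    rw [hk, hk]
    have e1 : ¬ (i + 1 = i + 2) := by fin_cases i <;> decide
    have e2 : ¬ (i + 2 = i + 1) := by fin_cases i <;> decide
    simp only [e1, e2, if_true, if_false]
    ring
  have hpt : ∀ n : S2, ∑ i, ∑ j, proj n i j * pd i (fun y => V y j) n = ∑ i, (NShell.stdL i (f i)).1 n := by
    intro n
    have h0 := hL 0 n
    have h1 := hL 1 n
    have h2 := hL 2 n
    have hu := m2_unit n
    have hv := hVt n
    have e1 : (1 : Fin 3) + 1 = 2 := rfl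
    have e2 : (1 : Fin 3) + 2 = 0 := rfl
    have e3 : (2 : Fin 3) + 1 = 0 := rfl
    have e4 : (2 : Fin 3) + 2 = 1 := rfl
    rw [zero_add, zero_add] at h0
    rw [e1, e2] at h1
    rw [e3, e4] at h2
    rw [Fin.sum_univ_three (fun i => (NShell.stdL i (f i)).1 n), h0, h1, h2]
    simp only [Fin.sum_univ_three, proj] at hv ⊢
    simp only [Fin.isValue, if_true, zero_ne_one, one_ne_zero, Fin.reduceEq, if_false]
    linear_combination (-(pd 0 (fun y => V y 0) n + pd 1 (fun y => V y 1) n + pd 2 (fun y => V y 2) n)) * hu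
      + 2 * hv
  have hfin : IsFiniteMeasure sm := by
    change IsFiniteMeasure ((volume : Measure E3).toSphere)
    infer_instance
  simp only [hpt]
  rw [integral_finset_sum]
  · exact Finset.sum_eq_zero fun i _ => NShell.std_izero i (f i)
  · intro i _
    exact (NShell.SFun_cont _).integrable_of_hasCompactSupport (HasCompactSupport.of_compactSpace _)

end NullPen
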