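import Pool.Agent.Lib.H17P.M1
import Pool.Agent.Lib.H17P.M2

set_option autoImplicit false

/-!
Chunk M3. Solution of the torsion equation. By `mom_eq`, `int_div` the derivative in `IsNull.torsion` is
`- τ(V)`, `τ(V) = ∫ (V(tt) + <b, DV>)`, for all `s > 0`; both sides of `∫ ζ_s(V) dA_s = ∫ ζ_0(V) dA_0 - s τ(V)` are continuous in `s >= 0`. With `s = 1`:
`τ(V) = ∫ <T, V>` (`tau_eq`). So `Y(y) = ζ_s (dd + s tt + s^2) - cc + s T` (smooth in `y`, tangential on the sphere) is
orthogonal to every smooth tangential field; take `V = Y` : `∫ |Y|^2 = 0`, `Y` continuous, so `Y = 0` on the sphere (`sm` is positive on open sets).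
-/

open MeasureTheory Filter Topology
open scoped ContDiff

namespace NullPen
namespace NullData
variable {D : NullData}

theorem m3_fin : IsFiniteMeasure sm := by
  change IsFiniteMeasure ((volume : Measure E3).toSphere)
  infer_instance

theorem m3_open : Measure.IsOpenPosMeasure sm := by
  change Measure.IsOpenPosMeasure ((volume : Measure E3).toSphere)
  infer_instance

theorem m3_int {f : S2 → ℝ} (hf : Continuous f) : Integrable f sm := by
  haveI := m3_fin
  exact hf.integrable_of_hasCompactSupport (HasCompactSupport.of_compactSpace _)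

theorem m3_res {f : E3 → ℝ} (hf : Continuous f) : Continuous (fun n : S2 => f n) := hf.comp continuous_subtype_val

theorem m3_pdc {f : E3 → ℝ} (hf : ContDiff ℝ ∞ f) (k : Fin 3) : Continuous (pd k f) := by
  have h : pd k f = fun x => fderiv ℝ f x (EuclideanSpace.single k 1) := by
    funext x
    exact pd_fderiv (hf.differentiable (by simp) x) k
  rw [h]
  exact (hf.continuous_fderiv (by simp)).clm_apply continuous_const

/-- The functional. -/
noncomputable def m3_tau (D : NullData) (V : E3 → Fin 3 → ℝ) : ℝ :=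
  ∫ n : S2, ((∑ k, V n k * pd k D.tt n) + ∑ i, ∑ j, D.bb n i j * pd i (fun y => V y j) n) ∂sm

/-- The pairing. -/
noncomputable def m3_psi (D : NullData) (V : E3 → Fin 3 → ℝ) (t : ℝ) : ℝ :=
  ∫ n : S2, (∑ i, D.ζ t n i * V n i) * (D.dd n + t * D.tt n + t ^ 2) ∂sm

theorem m3_zc (hD : D.IsNull) (i : Fin 3) (t : ℝ) : ContDiff ℝ ∞ (fun y : E3 => D.ζ t y i) :=
  (hD.smooth_ζ i).comp (contDiff_const.prodMk contDiff_id)

theorem m3_psic (hD : D.IsNull) {V : E3 → Fin 3 → ℝ} (hV : ∀ i, ContDiff ℝ ∞ (fun y => V y i)) :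
    Continuous (m3_psi D V) := by
  haveI := m3_fin
  have h1 : Continuous (fun p : ℝ × S2 => (∑ i, D.ζ p.1 p.2 i * V p.2 i) * (D.dd p.2 + p.1 * D.tt p.2 + p.1 ^ 2)) := by
    have hc : Continuous (fun p : ℝ × S2 => (p.2 : E3)) := continuous_subtype_val.comp continuous_snd
    have hz : ∀ i, Continuous (fun p : ℝ × S2 => D.ζ p.1 p.2 i) := fun i =>
      (hD.smooth_ζ i).continuous.comp (continuous_fst.prodMk hc)
    have hv : ∀ i, Continuous (fun p : ℝ × S2 => V p.2 i) := fun i => (hV i).continuous.comp hc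
    have ht : Continuous (fun p : ℝ × S2 => D.tt p.2) := (tt_smooth hD).continuous.comp hc
    have hd : Continuous (fun p : ℝ × S2 => D.dd p.2) := (dd_smooth hD).continuous.comp hc
    exact (continuous_finset_sum _ fun i _ => (hz i).mul (hv i)).mul
      ((hd.add (continuous_fst.mul ht)).add (continuous_fst.pow 2))
  have h2 := continuous_parametric_integral_of_continuous (μ := sm)
    (f := fun (t : ℝ) (n : S2) => (∑ i, D.ζ t n i * V n i) * (D.dd n + t * D.tt n + t ^ 2)) h1
    (s := Set.univ) isCompact_univ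
  rw [Measure.restrict_univ] at h2
  exact h2

theorem m3_deriv (hD : D.Admissible) {V : E3 → Fin 3 → ℝ} (hV : ∀ i, ContDiff ℝ ∞ (fun y => V y i))
    (hVt : ∀ n : S2, ∑ i, (n : E3) i * V n i = 0) (s : ℝ) (hs : 0 < s) :
    HasDerivAt (m3_psi D V) (- m3_tau D V) s := by
  have h1 := hD.null.torsion V hV hVt s hs
  have h2 : ∫ n : S2, D.mom s V n * D.dA s n ∂sm = - m3_tau D V := by
    have e : ∀ n : S2, D.mom s V n * D.dA s n = - (((∑ k, V n k * pd k D.tt n) +
        ∑ i, ∑ j, D.bb n i j * pd i (fun y => V y j) n)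
        + s * ∑ i, ∑ j, proj n i j * pd i (fun y => V y j) n) := fun n => mom_eq hD hV hVt s hs.le n
    simp only [e]
    have c1 : Continuous fun n : S2 => (∑ k, V n k * pd k D.tt n) +
        ∑ i, ∑ j, D.bb n i j * pd i (fun y => V y j) n := by
      refine Continuous.add ?_ ?_
      · exact continuous_finset_sum _ fun k _ => (m3_res (hV k).continuous).mul (m3_res (m3_pdc (tt_smooth hD.null) k))
      · exact continuous_finset_sum _ fun i _ => continuous_finset_sum _ fun j _ =>
          (m3_res (bb_smooth hD.null i j).continuous).mul (m3_res (m3_pdc (hV j) i))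
    have c2 : Continuous fun n : S2 => ∑ i, ∑ j, proj n i j * pd i (fun y => V y j) n := by
      have hp : ∀ i j, Continuous fun n : S2 => proj n i j := by
        intro i j
        have hx : ∀ i : Fin 3, Continuous fun n : S2 => (n : E3) i := fun i => m3_res (m1_coord i).continuous
        exact continuous_const.sub ((hx i).mul (hx j))
      exact continuous_finset_sum _ fun i _ => continuous_finset_sum _ fun j _ => (hp i j).mul (m3_res (m3_pdc (hV j) i))
    rw [integral_neg, integral_add (m3_int c1) ((m3_int c2).const_mul s), integral_const_mul, int_div hV hVt,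
      mul_zero, add_zero]
    rfl
  rw [h2] at h1
  refine h1.congr_of_eventuallyEq ?_
  filter_upwards [lt_mem_nhds hs] with t ht
  unfold m3_psi
  refine integral_congr_ae (Eventually.of_forall fun n => ?_)
  simp only
  rw [dA_eq hD n t ht.le]

theorem m3_line (hD : D.Admissible) {V : E3 → Fin 3 → ℝ} (hV : ∀ i, ContDiff ℝ ∞ (fun y => V y i))
    (hVt : ∀ n : S2, ∑ i, (n : E3) i * V n i = 0) (s : ℝ) (hs : 0 ≤ s) :
    m3_psi D V s = m3_psi D V 0 - s * m3_tau D V := by
  have h1 : ∀ s, 0 < s → HasDerivAt (fun t => m3_psi D V t + t * m3_tau D V) 0 s := by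
    intro s hs
    have h2 := (m3_deriv hD hV hVt s hs).add ((hasDerivAt_id s).mul_const (m3_tau D V))
    simp only [one_mul, neg_add_cancel] at h2
    exact h2
  have h3 : ∀ s, 0 ≤ s → m3_psi D V s + s * m3_tau D V = m3_psi D V 1 + 1 * m3_tau D V := by
    refine A2_ext ((m3_psic hD.null hV).add (continuous_id.mul continuous_const)) continuous_const fun s hs => ?_
    exact A1_const h1 hs
  have h4 := h3 s hs
  have h5 := h3 0 le_rfl
  linarith

theorem m3_dint (hD : D.IsNull) {V : E3 → Fin 3 → ℝ} (hV : ∀ i, ContDiff ℝ ∞ (fun y => V y i)) (t : ℝ) :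
    Continuous fun n : S2 => (∑ i, D.ζ t n i * V n i) * (D.dd n + t * D.tt n + t ^ 2) := by
  exact (continuous_finset_sum _ fun i _ => (m3_res (m3_zc hD i t).continuous).mul (m3_res (hV i).continuous)).mul
    (((m3_res (dd_smooth hD).continuous).add (continuous_const.mul (m3_res (tt_smooth hD).continuous))).add
      continuous_const)

theorem tau_eq (hD : D.Admissible) {V : E3 → Fin 3 → ℝ} (hV : ∀ i, ContDiff ℝ ∞ (fun y => V y i))
    (hVt : ∀ n : S2, ∑ i, (n : E3) i * V n i = 0) :
    ∫ n : S2, (∑ i, D.TT n i * V n i) ∂sm =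
      ∫ n : S2, ((∑ k, V n k * pd k D.tt n) + ∑ i, ∑ j, D.bb n i j * pd i (fun y => V y j) n) ∂sm := by
  have h1 := m3_line hD hV hVt 1 zero_le_one
  have h2 : m3_tau D V = m3_psi D V 0 - m3_psi D V 1 := by linarith
  change _ = m3_tau D V
  rw [h2]
  unfold m3_psi
  rw [← integral_sub (m3_int (m3_dint hD.null hV 0)) (m3_int (m3_dint hD.null hV 1))]
  refine integral_congr_ae (Eventually.of_forall fun n => ?_)
  simp only [TT, Fin.sum_univ_three]
  ring

theorem cc_tan (hD : D.Admissible) (n : S2) : ∑ i, (n : E3) i * D.cc n i = 0 := by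
  have h := hD.null.ζ_tan 0 le_rfl n
  have e : ∑ i, (n : E3) i * D.cc n i = (∑ i, (n : E3) i * D.ζ 0 n i) * D.dd n := by
    rw [Finset.sum_mul]
    exact Finset.sum_congr rfl fun i _ => by rw [cc]; ring
  rw [e, h, zero_mul]

theorem TT_tan (hD : D.Admissible) (n : S2) : ∑ i, (n : E3) i * D.TT n i = 0 := by
  have h := hD.null.ζ_tan 0 le_rfl n
  have h1 := hD.null.ζ_tan 1 zero_le_one n
  have e : ∑ i, (n : E3) i * D.TT n i = (∑ i, (n : E3) i * D.ζ 0 n i) * D.dd n -
      (∑ i, (n : E3) i * D.ζ 1 n i) * (D.dd n + D.tt n + 1) := by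
    rw [Finset.sum_mul, Finset.sum_mul, ← Finset.sum_sub_distrib]
    exact Finset.sum_congr rfl fun i _ => by rw [TT]; ring
  rw [e, h, h1, zero_mul, zero_mul, sub_zero]

theorem zeta_eq (hD : D.Admissible) (s : ℝ) (hs : 0 ≤ s) (n : S2) (i : Fin 3) :
    D.ζ s n i * D.dA s n = D.cc n i - s * D.TT n i := by
  haveI := m3_fin
  haveI := m3_open
  set Y : E3 → Fin 3 → ℝ := fun y i => D.ζ s y i * (D.dd y + s * D.tt y + s ^ 2) - D.cc y i + s * D.TT y i with hY
  have hYs : ∀ i, ContDiff ℝ ∞ (fun y => Y y i) := fun i =>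
    (((m3_zc hD.null i s).mul (((dd_smooth hD.null).add (contDiff_const.mul (tt_smooth hD.null))).add
      contDiff_const)).sub (cc_smooth hD.null i)).add (contDiff_const.mul (TT_smooth hD.null i))
  have hYt : ∀ n : S2, ∑ i, (n : E3) i * Y n i = 0 := by
    intro n
    have h1 := hD.null.ζ_tan s hs n
    have h2 := cc_tan hD n
    have h3 := TT_tan hD n
    simp only [hY, Fin.sum_univ_three] at h1 h2 h3 ⊢
    linear_combination (D.dd n + s * D.tt n + s ^ 2) * h1 - h2 + s * h3
  have hl := m3_line hD hYs hYt s hs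
  have ht := tau_eq hD hYs hYt
  change _ = m3_tau D Y at ht
  rw [← ht] at hl
  have h0 : ∫ n : S2, (∑ i, Y n i ^ 2) ∂sm = 0 := by
    have e : ∀ n : S2, ∑ i, Y n i ^ 2 = (∑ i, D.ζ s n i * Y n i) * (D.dd n + s * D.tt n + s ^ 2) -
        (∑ i, D.ζ 0 n i * Y n i) * (D.dd n + 0 * D.tt n + 0 ^ 2) + s * ∑ i, D.TT n i * Y n i := by
      intro n
      have e1 : ∀ i, Y n i = D.ζ s n i * (D.dd n + s * D.tt n + s ^ 2) - D.ζ 0 n i * D.dd n + s * D.TT n i := by
        intro i
        rfl
      have e2 : ∀ i, Y n i ^ 2 = (D.ζ s n i * (D.dd n + s * D.tt n + s ^ 2) - D.ζ 0 n i * D.dd n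
          + s * D.TT n i) * Y n i := by
        intro i
        rw [pow_two, ← e1 i]
      simp only [e2, Fin.sum_univ_three]
      ring
    simp only [e]
    have cT : Continuous fun n : S2 => ∑ i, D.TT n i * Y n i :=
      continuous_finset_sum _ fun i _ => (m3_res (TT_smooth hD.null i).continuous).mul (m3_res (hYs i).continuous)
    rw [integral_add (f := fun n : S2 => (∑ i, D.ζ s n i * Y n i) * (D.dd n + s * D.tt n + s ^ 2) -
        (∑ i, D.ζ 0 n i * Y n i) * (D.dd n + 0 * D.tt n + 0 ^ 2))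
      ((m3_int (m3_dint hD.null hYs s)).sub (m3_int (m3_dint hD.null hYs 0)))
      ((m3_int cT).const_mul s), integral_sub (m3_int (m3_dint hD.null hYs s)) (m3_int (m3_dint hD.null hYs 0)),
      integral_const_mul]
    change m3_psi D Y s - m3_psi D Y 0 + s * _ = 0
    linarith
  have cY : Continuous fun n : S2 => ∑ i, Y n i ^ 2 :=
    continuous_finset_sum _ fun i _ => (m3_res (hYs i).continuous).pow 2
  have hnn : ∀ n : S2, 0 ≤ ∑ i, Y n i ^ 2 := fun n => Finset.sum_nonneg fun i _ => sq_nonneg _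
  have h1 : (fun n : S2 => ∑ i, Y n i ^ 2) =ᵐ[sm] 0 :=
    (integral_eq_zero_iff_of_nonneg hnn (m3_int cY)).1 h0
  have h2 : (fun n : S2 => ∑ i, Y n i ^ 2) = 0 := (Continuous.ae_eq_iff_eq sm cY continuous_zero).1 h1
  have h3 : ∑ i, Y n i ^ 2 = 0 := congrFun h2 n
  have h4 : Y n i = 0 := by
    have h5 := (Finset.sum_eq_zero_iff_of_nonneg (fun i _ => sq_nonneg _)).1 h3 i (Finset.mem_univ i)
    exact pow_eq_zero_iff (two_ne_zero) |>.1 h5
  rw [dA_eq hD n s hs]
  have h6 : Y n i = D.ζ s n i * (D.dd n + s * D.tt n + s ^ 2) - D.cc n i + s * D.TT n i := rfl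
  linarith

end NullData
end NullPen
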