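import Pool.Agent.Lib.H17P.Lin
import Pool.Agent.Lib.H17P.A3

set_option autoImplicit false

/-!
Chunk EB. Eigenbasis of a positive symmetric array which kills the unit vector `n`.
With `t = tr b`, `d = dt b`, `r = sqrt (t^2 - 4 d)` (the discriminant is `2 |b - (t/2) P|^2 >= 0`), `p = (t + r)/2`, `q = (t - r)/2`, `p q = d`:
the columns of `b - q P` are eigenvectors for `p` (Cayley-Hamilton); if all vanish then `b = q P`, `p = q` and every tangent vector is one.
`e` is the normalised eigenvector, `f = n × e`.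
-/

open MeasureTheory Filter Topology
open scoped ContDiff

namespace NullPen

/-- An orthonormal eigenbasis. -/
structure EBase (n : Fin 3 → ℝ) (b : Fin 3 → Fin 3 → ℝ) (p q : ℝ) (e f : Fin 3 → ℝ) : Prop where
  pp : 0 < p
  qp : 0 < q
  ee : ∑ i, e i ^ 2 = 1
  ff : ∑ i, f i ^ 2 = 1
  ef : ∑ i, e i * f i = 0
  ne : ∑ i, n i * e i = 0
  nf : ∑ i, n i * f i = 0
  proj : ∀ i j, pr n i j = e i * e j + f i * f j
  bform : ∀ i j, b i j = p * e i * e j + q * f i * f j

/-- An orthonormal basis from two orthonormal vectors. -/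
theorem eb_cross {n e : Fin 3 → ℝ} (hn : ∑ i, n i ^ 2 = 1) (he : ∑ i, e i ^ 2 = 1) (hne : ∑ i, n i * e i = 0) :
    ∃ f : Fin 3 → ℝ, ∑ i, f i ^ 2 = 1 ∧ ∑ i, e i * f i = 0 ∧ ∑ i, n i * f i = 0 ∧
      ∀ i j, pr n i j = e i * e j + f i * f j := by
  obtain ⟨f, f0, f1, f2⟩ : ∃ f : Fin 3 → ℝ, f 0 = n 1 * e 2 - n 2 * e 1 ∧ f 1 = n 2 * e 0 - n 0 * e 2 ∧
      f 2 = n 0 * e 1 - n 1 * e 0 :=
    ⟨![n 1 * e 2 - n 2 * e 1, n 2 * e 0 - n 0 * e 2, n 0 * e 1 - n 1 * e 0], rfl, rfl, rfl⟩
  refine ⟨f, ?_, ?_, ?_, ?_⟩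
  · simp only [Fin.sum_univ_three] at hn he hne ⊢
    rw [f0, f1, f2]
    linear_combination (e 0 ^ 2 + e 1 ^ 2 + e 2 ^ 2) * hn + he - (n 0 * e 0 + n 1 * e 1 + n 2 * e 2) * hne
  · simp only [Fin.sum_univ_three]
    rw [f0, f1, f2]
    ring
  · simp only [Fin.sum_univ_three]
    rw [f0, f1, f2]
    ring
  · intro i j
    unfold pr
    simp only [Fin.sum_univ_three] at hn he hne
    fin_cases i <;> fin_cases j <;>
      simp only [Fin.zero_eta, Fin.mk_one, Fin.reduceFinMk, Fin.isValue, if_true, zero_ne_one, one_ne_zero, Fin.reduceEq,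
        if_false, f0, f1, f2]
    · linear_combination (-(e 0 ^ 2 + e 1 ^ 2 + e 2 ^ 2) + e 0 * e 0) * hn + (-1 + n 0 * n 0) * he
        + ((n 0 * e 0 + n 1 * e 1 + n 2 * e 2) - n 0 * e 0 - e 0 * n 0) * hne
    · linear_combination (e 0 * e 1) * hn + (n 0 * n 1) * he + (- n 0 * e 1 - e 0 * n 1) * hne
    · linear_combination (e 0 * e 2) * hn + (n 0 * n 2) * he + (- n 0 * e 2 - e 0 * n 2) * hne
    · linear_combination (e 1 * e 0) * hn + (n 1 * n 0) * he + (- n 1 * e 0 - e 1 * n 0) * hne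
    · linear_combination (-(e 0 ^ 2 + e 1 ^ 2 + e 2 ^ 2) + e 1 * e 1) * hn + (-1 + n 1 * n 1) * he
        + ((n 0 * e 0 + n 1 * e 1 + n 2 * e 2) - n 1 * e 1 - e 1 * n 1) * hne
    · linear_combination (e 1 * e 2) * hn + (n 1 * n 2) * he + (- n 1 * e 2 - e 1 * n 2) * hne
    · linear_combination (e 2 * e 0) * hn + (n 2 * n 0) * he + (- n 2 * e 0 - e 2 * n 0) * hne
    · linear_combination (e 2 * e 1) * hn + (n 2 * n 1) * he + (- n 2 * e 1 - e 2 * n 1) * hne
    · linear_combination (-(e 0 ^ 2 + e 1 ^ 2 + e 2 ^ 2) + e 2 * e 2) * hn + (-1 + n 2 * n 2) * he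
        + ((n 0 * e 0 + n 1 * e 1 + n 2 * e 2) - n 2 * e 2 - e 2 * n 2) * hne

theorem eb_vec {n : Fin 3 → ℝ} (hn : ∑ i, n i ^ 2 = 1) {b : Fin 3 → Fin 3 → ℝ} (hb : Tan n b) {p q : ℝ}
    (hpq : p + q = tr b) (hd : p * q = dt b) :
    ∃ w : Fin 3 → ℝ, w ≠ 0 ∧ (∑ i, n i * w i = 0) ∧ ∀ i, ∑ j, b i j * w j = p * w i := by
  have hbP : ∀ i k, ∑ j, b i j * pr n j k = b i k := by
    intro i k
    unfold pr
    simp only [mul_sub, mul_ite, mul_one, mul_zero, Finset.sum_sub_distrib, Finset.sum_ite_eq', Finset.mem_univ, if_true]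
    have e3 : ∑ j, b i j * (n j * n k) = (∑ j, b i j * n j) * n k := by
      rw [Finset.sum_mul]
      exact Finset.sum_congr rfl fun j _ => by ring
    rw [e3, hb.ker i]
    ring
  have hnP : ∀ k, ∑ i, n i * pr n i k = 0 := by
    intro k
    rw [← a3_prn hn k]
    exact Finset.sum_congr rfl fun i _ => by rw [a3_prs n i k]; ring
  have hnb : ∀ k, ∑ i, n i * b i k = 0 := by
    intro k
    rw [← hb.ker k]
    exact Finset.sum_congr rfl fun i _ => by rw [hb.symm i k]; ring
  by_cases hall : ∀ k, (fun i => b i k - q * pr n i k) = 0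
  · -- `b = q P`
    have h1 : ∀ i k, b i k = q * pr n i k := by
      intro i k
      have h2 := congrFun (hall k) i
      simp only [Pi.zero_apply] at h2
      linarith
    have h2 : tr b = q * 2 := by
      rw [← a3_prtr hn]
      have e1 : tr b = ∑ i, q * pr n i i := by
        conv_lhs => rw [tr]
        exact Finset.sum_congr rfl fun i _ => h1 i i
      rw [e1, ← Finset.mul_sum]
      rfl
    have h3 : p = q := by linarith
    have hex : ∃ k, pr n k k ≠ 0 := by
      by_contra hno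
      push Not at hno
      have h4 := a3_prtr hn
      unfold tr at h4
      simp only [hno, Finset.sum_const_zero] at h4
      norm_num at h4
    obtain ⟨k, hk⟩ := hex
    refine ⟨fun i => pr n i k, fun e => hk (congrFun e k), hnP k, fun i => ?_⟩
    rw [hbP i k, h1, h3]
  · push Not at hall
    obtain ⟨k, hk⟩ := hall
    refine ⟨_, hk, ?_, fun i => ?_⟩
    · have e : ∑ i, n i * (b i k - q * pr n i k) = (∑ i, n i * b i k) - q * ∑ i, n i * pr n i k := by
        rw [Finset.mul_sum, ← Finset.sum_sub_distrib]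
        exact Finset.sum_congr rfl fun i _ => by ring
      rw [e, hnb, hnP]
      ring
    · have e : ∑ j, b i j * (b j k - q * pr n j k) = mm b b i k - q * ∑ j, b i j * pr n j k := by
        unfold mm
        rw [Finset.mul_sum, ← Finset.sum_sub_distrib]
        exact Finset.sum_congr rfl fun j _ => by ring
      rw [e, hbP, a3_cay hn hb, ← hpq, ← hd]
      ring

theorem exists_ebase {n : Fin 3 → ℝ} (hn : ∑ i, n i ^ 2 = 1) {b : Fin 3 → Fin 3 → ℝ} (hb : Tan n b)
    (ht : 0 < tr b) (hd : 0 < dt b) : ∃ p q e f, EBase n b p q e f := by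
  have hdisc : 0 ≤ tr b ^ 2 - 4 * dt b := by
    have h1 := a3_comb hn hb 1 (-(tr b / 2))
    have h2 : 0 ≤ ∑ i, ∑ j, (1 * b i j + -(tr b / 2) * pr n i j) ^ 2 :=
      Finset.sum_nonneg fun i _ => Finset.sum_nonneg fun j _ => sq_nonneg _
    rw [h1] at h2
    have h3 : dt b = (tr b ^ 2 - sq b) / 2 := rfl
    rw [h3]
    nlinarith
  set r := Real.sqrt (tr b ^ 2 - 4 * dt b) with hr
  have hr2 : r ^ 2 = tr b ^ 2 - 4 * dt b := Real.sq_sqrt hdisc
  have hr0 : 0 ≤ r := Real.sqrt_nonneg _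
  have hrt : r < tr b := by nlinarith
  obtain ⟨p, hp⟩ : ∃ p : ℝ, p = (tr b + r) / 2 := ⟨_, rfl⟩
  obtain ⟨q, hq⟩ : ∃ q : ℝ, q = (tr b - r) / 2 := ⟨_, rfl⟩
  have hpp : 0 < p := by rw [hp]; linarith
  have hqp : 0 < q := by rw [hq]; linarith
  have hpq : p + q = tr b := by rw [hp, hq]; ring
  have hpqd : p * q = dt b := by
    have h1 : p * q = (tr b ^ 2 - r ^ 2) / 4 := by rw [hp, hq]; ring
    rw [h1, hr2]
    ring
  obtain ⟨w, hw0, hwn, hwb⟩ := eb_vec hn hb hpq hpqd
  -- normalise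
  have hwp : 0 < ∑ i, w i ^ 2 := by
    have h1 : 0 ≤ ∑ i, w i ^ 2 := Finset.sum_nonneg fun i _ => sq_nonneg _
    rcases h1.lt_or_eq with h2 | h2
    · exact h2
    · exfalso
      apply hw0
      funext i
      have h3 := (Finset.sum_eq_zero_iff_of_nonneg (fun i _ => sq_nonneg (w i))).1 h2.symm i (Finset.mem_univ i)
      simpa using h3
  set m := Real.sqrt (∑ i, w i ^ 2) with hm
  have hm2 : m ^ 2 = ∑ i, w i ^ 2 := Real.sq_sqrt hwp.le
  have hm0 : 0 < m := Real.sqrt_pos.2 hwp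
  obtain ⟨e, he⟩ : ∃ e : Fin 3 → ℝ, e = fun i => w i / m := ⟨_, rfl⟩
  have hee : ∑ i, e i ^ 2 = 1 := by
    rw [he]
    simp only [div_pow]
    rw [← Finset.sum_div, ← hm2]
    exact div_self (by positivity)
  have hne : ∑ i, n i * e i = 0 := by
    rw [he]
    have e1 : ∑ i, n i * (w i / m) = (∑ i, n i * w i) / m := by
      rw [Finset.sum_div]
      exact Finset.sum_congr rfl fun i _ => by ring
    simp only [e1, hwn, zero_div]
  have hbe : ∀ i, ∑ j, b i j * e j = p * e i := by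
    intro i
    rw [he]
    have e1 : ∑ j, b i j * (w j / m) = (∑ j, b i j * w j) / m := by
      rw [Finset.sum_div]
      exact Finset.sum_congr rfl fun j _ => by ring
    simp only [e1, hwb]
    ring
  obtain ⟨f, hff, hef, hnf, hP⟩ := eb_cross hn hee hne
  refine ⟨p, q, e, f, ⟨hpp, hqp, hee, hff, hef, hne, hnf, hP, ?_⟩⟩
  have hbP : ∀ i k, ∑ j, b i j * pr n j k = b i k := by
    intro i k
    unfold pr
    simp only [mul_sub, mul_ite, mul_one, mul_zero, Finset.sum_sub_distrib, Finset.sum_ite_eq', Finset.mem_univ, if_true]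
    have e3 : ∑ j, b i j * (n j * n k) = (∑ j, b i j * n j) * n k := by
      rw [Finset.sum_mul]
      exact Finset.sum_congr rfl fun j _ => by ring
    rw [e3, hb.ker i]
    ring
  have h1 : ∀ i k, b i k = p * e i * e k + (∑ j, b i j * f j) * f k := by
    intro i k
    rw [← hbP i k]
    simp only [hP]
    have e1 : ∑ j, b i j * (e j * e k + f j * f k) = (∑ j, b i j * e j) * e k + (∑ j, b i j * f j) * f k := by
      rw [Finset.sum_mul, Finset.sum_mul, ← Finset.sum_add_distrib]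
      exact Finset.sum_congr rfl fun j _ => by ring
    rw [e1, hbe]
  obtain ⟨g, hg⟩ : ∃ g : Fin 3 → ℝ, g = fun i => ∑ j, b i j * f j := ⟨_, rfl⟩
  have h1' : ∀ i k, b i k = p * e i * e k + g i * f k := by
    intro i k
    rw [h1 i k, hg]
  have h2 : ∀ i j, g i * f j = g j * f i := by
    intro i j
    have a1 := h1' i j
    have a2 := h1' j i
    have a3 := hb.symm i j
    linarith
  have h3 : ∀ i, g i = (∑ j, g j * f j) * f i := by
    intro i
    have e1 : g i = g i * ∑ j, f j ^ 2 := by rw [hff, mul_one]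
    rw [e1, Finset.mul_sum, Finset.sum_mul]
    refine Finset.sum_congr rfl fun j _ => ?_
    have e2 := h2 i j
    calc g i * f j ^ 2 = (g i * f j) * f j := by ring
      _ = g j * f i * f j := by rw [e2]
      _ = g j * f j * f i := by ring
  have h4 : tr b = p + ∑ j, g j * f j := by
    have e1 : tr b = ∑ i, (p * e i * e i + g i * f i) := by
      conv_lhs => rw [tr]
      exact Finset.sum_congr rfl fun i _ => h1' i i
    rw [e1, Finset.sum_add_distrib]
    have e2 : ∑ i, p * e i * e i = p := by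
      have e3 : ∑ i, p * e i * e i = p * ∑ i, e i ^ 2 := by
        rw [Finset.mul_sum]
        exact Finset.sum_congr rfl fun i _ => by ring
      rw [e3, hee, mul_one]
    rw [e2]
  have h5 : ∑ j, g j * f j = q := by linarith
  intro i j
  rw [h1' i j, h3 i, h5]

end NullPen
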