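import Mathlib

set_option autoImplicit false

/-!
Chunk S1. The scalar inequality. With `w(s) = 2 p s / (p+s)^3 v`, `w' = 2 p (p - 2 s)/(p+s)^4 v`:
pointwise `2 (c - s T)^2/((p+s)^3 (q+s)) >= 4 (c - s T) w' - 2 (p+s)^3 (q+s) w'^2` (`2 x^2/m - 4 x y + 2 m y^2 = 2 (x - m y)^2/m >= 0`).
Integrate from `0` to `S`: `∫ (c - s T) w' = (c - S T) w(S) + T v S^2/(p+S)^2`
(derivative of `(c - s T) w + T v s^2/(p+s)^2`, since `(s^2/(p+s)^2)' = 2 p s/(p+s)^3`), and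
`∫ (p+s)^3 (q+s) w'^2 <= (3 p + q) v^2`, because with `y = p + s`
`(p+s)^3 (q+s) w'^2 = 4 p^2 v^2 (3p-2y)^2 (q-p+y)/y^5` has the antiderivative
`v^2 ((q-p) 4 p^2 (-(9/4) p^2 y^-4 + 4 p y^-3 - 2 y^-2) + 4 p^2 (-3 p^2 y^-3 + 6 p y^-2 - 4 y^-1))` (value `- (3p+q) v^2` at `y = p`, limit `0` at infinity,
increasing since the derivative is nonnegative, hence `<= 0` for all `y >= p`).
Error terms for `S >= 1`: `(c - S T) w(S) + T v S^2/(p+S)^2 - T v = 2 p c v S/(p+S)^3 + T v (- 2 p S^2/(p+S)^3 - (2 p S + p^2)/(p+S)^2)`, absolute value at most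
`(4 p + p^2) (|T v| + |c v|)/S`.
-/

open MeasureTheory

namespace NullPen

theorem s1_inv {p s : ℝ} (h : 0 < p + s) (k : ℕ) :
    HasDerivAt (fun s : ℝ => 1 / (p + s) ^ k) (-(k : ℝ) / (p + s) ^ (k + 1)) s := by
  have h1 : HasDerivAt (fun s : ℝ => (p + s) ^ k) ((k : ℝ) * (p + s) ^ (k - 1) * 1) s :=
    ((hasDerivAt_id s).const_add p).pow k
  have h2 := h1.inv (pow_pos h k).ne'
  have e1 : (fun s : ℝ => 1 / (p + s) ^ k) = (fun s : ℝ => (p + s) ^ k)⁻¹ := by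
    funext s
    simp
  rw [e1]
  refine h2.congr_deriv ?_
  rcases k with _ | k
  · simp
  · rw [Nat.add_sub_cancel]
    field_simp
    ring

/-- The antiderivative. -/
noncomputable def s1_A (p q c T v s : ℝ) : ℝ :=
  4 * ((c - s * T) * (2 * p * v * s * (1 / (p + s) ^ 3)) + T * v * s ^ 2 * (1 / (p + s) ^ 2)) -
  2 * (v ^ 2 * ((q - p) * 4 * p ^ 2 * (-(9 / 4) * p ^ 2 * (1 / (p + s) ^ 4) + 4 * p * (1 / (p + s) ^ 3)
    - 2 * (1 / (p + s) ^ 2)) +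
    4 * p ^ 2 * (-3 * p ^ 2 * (1 / (p + s) ^ 3) + 6 * p * (1 / (p + s) ^ 2) - 4 * (1 / (p + s) ^ 1))))

/-- Its derivative. -/
noncomputable def s1_B (p q c T v s : ℝ) : ℝ :=
  4 * (c - s * T) * (2 * p * v * (p - 2 * s) / (p + s) ^ 4) -
    2 * ((p + s) ^ 3 * (q + s)) * (2 * p * v * (p - 2 * s) / (p + s) ^ 4) ^ 2

theorem s1_deriv {p s : ℝ} (h : 0 < p + s) (q c T v : ℝ) :
    HasDerivAt (s1_A p q c T v) (s1_B p q c T v s) s := by
  have i1 := s1_inv h 1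
  have i2 := s1_inv h 2
  have i3 := s1_inv h 3
  have i4 := s1_inv h 4
  have d1 : HasDerivAt (fun s : ℝ => c - s * T) (0 - 1 * T) s :=
    (hasDerivAt_const s c).sub ((hasDerivAt_id s).mul_const T)
  have d2 : HasDerivAt (fun s : ℝ => 2 * p * v * s) (2 * p * v * 1) s := (hasDerivAt_id s).const_mul _
  have d3 : HasDerivAt (fun s : ℝ => T * v * s ^ 2) (T * v * (((2 : ℕ) : ℝ) * s ^ (2 - 1) * 1)) s :=
    ((hasDerivAt_id s).pow 2).const_mul _
  have e1 := (d1.mul (d2.mul i3)).add (d3.mul i2)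
  have e2 := ((i4.const_mul (-(9 / 4) * p ^ 2)).add (i3.const_mul (4 * p))).sub (i2.const_mul 2)
  have e3 := ((i3.const_mul (-3 * p ^ 2)).add (i2.const_mul (6 * p))).sub (i1.const_mul 4)
  have e4 := (((e2.const_mul ((q - p) * 4 * p ^ 2)).add (e3.const_mul (4 * p ^ 2))).const_mul (v ^ 2)).const_mul 2
  have e5 := (e1.const_mul 4).sub e4
  refine e5.congr_deriv ?_
  unfold s1_B
  have hy : p + s ≠ 0 := h.ne'
  simp only [Nat.cast_ofNat, Nat.cast_one, Pi.mul_apply]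
  field_simp
  ring

theorem scalar_ineq {p q : ℝ} (hp : 0 < p) (hq : 0 < q) (c T v : ℝ) {S : ℝ} (hS : 1 ≤ S) :
    4 * (T * v) - 2 * (3 * p + q) * v ^ 2 - 16 * (1 + p) ^ 2 * (|T * v| + |c * v|) / S ≤
      ∫ s in (0 : ℝ)..S, 2 * (c - s * T) ^ 2 / ((p + s) ^ 3 * (q + s)) := by
  have hS0 : 0 < S := by linarith
  have hpos : ∀ s ∈ Set.uIcc 0 S, 0 < p + s := by
    intro s hs
    rw [Set.uIcc_of_le hS0.le] at hs
    linarith [hs.1]
  have hposq : ∀ s ∈ Set.uIcc 0 S, 0 < q + s := by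
    intro s hs
    rw [Set.uIcc_of_le hS0.le] at hs
    linarith [hs.1]
  have hBc : ContinuousOn (s1_B p q c T v) (Set.uIcc 0 S) := by
    unfold s1_B
    refine ContinuousOn.sub ?_ ?_
    · refine ContinuousOn.mul (by fun_prop) (ContinuousOn.div (by fun_prop) (by fun_prop) ?_)
      intro s hs
      exact (pow_pos (hpos s hs) 4).ne'
    · refine ContinuousOn.mul (by fun_prop) (ContinuousOn.pow (ContinuousOn.div (by fun_prop) (by fun_prop) ?_) 2)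
      intro s hs
      exact (pow_pos (hpos s hs) 4).ne'
  have hCc : ContinuousOn (fun s : ℝ => 2 * (c - s * T) ^ 2 / ((p + s) ^ 3 * (q + s))) (Set.uIcc 0 S) := by
    refine ContinuousOn.div (by fun_prop) (by fun_prop) ?_
    intro s hs
    exact (mul_pos (pow_pos (hpos s hs) 3) (hposq s hs)).ne'
  have hint : ∫ s in (0 : ℝ)..S, s1_B p q c T v s = s1_A p q c T v S - s1_A p q c T v 0 :=
    intervalIntegral.integral_eq_sub_of_hasDerivAt (fun s hs => s1_deriv (hpos s hs) q c T v) hBc.intervalIntegrable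
  have hmono : ∫ s in (0 : ℝ)..S, s1_B p q c T v s ≤
      ∫ s in (0 : ℝ)..S, 2 * (c - s * T) ^ 2 / ((p + s) ^ 3 * (q + s)) := by
    refine intervalIntegral.integral_mono_on hS0.le hBc.intervalIntegrable hCc.intervalIntegrable fun s hs => ?_
    have h1 : 0 < p + s := by linarith [hs.1]
    have h2 : 0 < q + s := by linarith [hs.1]
    have hm : 0 < (p + s) ^ 3 * (q + s) := by positivity
    unfold s1_B
    rw [le_div_iff₀ hm]
    set m := (p + s) ^ 3 * (q + s)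
    set y := 2 * p * v * (p - 2 * s) / (p + s) ^ 4
    nlinarith [sq_nonneg (c - s * T - m * y)]
  refine le_trans ?_ hmono
  rw [hint]
  -- value at 0
  have hA0 : s1_A p q c T v 0 = 2 * (3 * p + q) * v ^ 2 := by
    unfold s1_A
    rw [add_zero]
    field_simp
    ring
  have hy : 0 < p + S := by positivity
  -- the second part
  have hPhi : (v ^ 2 * ((q - p) * 4 * p ^ 2 * (-(9 / 4) * p ^ 2 * (1 / (p + S) ^ 4) + 4 * p * (1 / (p + S) ^ 3)
    - 2 * (1 / (p + S) ^ 2)) +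
    4 * p ^ 2 * (-3 * p ^ 2 * (1 / (p + S) ^ 3) + 6 * p * (1 / (p + S) ^ 2) - 4 * (1 / (p + S) ^ 1)))) ≤ 0 := by
    have e : (v ^ 2 * ((q - p) * 4 * p ^ 2 * (-(9 / 4) * p ^ 2 * (1 / (p + S) ^ 4) + 4 * p * (1 / (p + S) ^ 3)
      - 2 * (1 / (p + S) ^ 2)) +
      4 * p ^ 2 * (-3 * p ^ 2 * (1 / (p + S) ^ 3) + 6 * p * (1 / (p + S) ^ 2) - 4 * (1 / (p + S) ^ 1)))) =
      - (4 * p ^ 2 * v ^ 2 * (q * (2 * S ^ 2 + p ^ 2 / 4) + 3 / 4 * p ^ 3 + 3 * p ^ 2 * S + 4 * p * S ^ 2 + 4 * S ^ 3)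
        / (p + S) ^ 4) := by
      field_simp
      ring
    rw [e]
    have : 0 ≤ 4 * p ^ 2 * v ^ 2 * (q * (2 * S ^ 2 + p ^ 2 / 4) + 3 / 4 * p ^ 3 + 3 * p ^ 2 * S + 4 * p * S ^ 2 + 4 * S ^ 3)
        / (p + S) ^ 4 := by positivity
    linarith
  -- the first part
  have hX : T * v - ((c - S * T) * (2 * p * v * S * (1 / (p + S) ^ 3)) + T * v * S ^ 2 * (1 / (p + S) ^ 2)) ≤
      4 * (1 + p) ^ 2 * (|T * v| + |c * v|) / S := by
    have e : T * v - ((c - S * T) * (2 * p * v * S * (1 / (p + S) ^ 3)) + T * v * S ^ 2 * (1 / (p + S) ^ 2)) =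
        (T * v) * ((2 * p * S ^ 2 + (2 * p * S + p ^ 2) * (p + S)) / (p + S) ^ 3) - (c * v) * (2 * p * S / (p + S) ^ 3) := by
      field_simp
      ring
    rw [e]
    have hy3 : 0 < (p + S) ^ 3 := by positivity
    have r1 : (2 * p * S ^ 2 + (2 * p * S + p ^ 2) * (p + S)) / (p + S) ^ 3 ≤ 4 * (1 + p) ^ 2 / S := by
      rw [div_le_div_iff₀ hy3 hS0]
      have h1 : 0 ≤ S - 1 := by linarith
      have e2 : 4 * (1 + p) ^ 2 * (p + S) ^ 3 - (2 * p * S ^ 2 + (2 * p * S + p ^ 2) * (p + S)) * S =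
          4 * (1 + p) ^ 2 * (p ^ 3 + 3 * p ^ 2 * S + 3 * p * S ^ 2) + (4 + 4 * p + 3 * p ^ 2) * S ^ 3
            + p ^ 2 * S ^ 2 * (S - 3) - p ^ 3 * S := by ring
      have h3 : 0 ≤ 4 * (1 + p) ^ 2 * (p ^ 3 + 3 * p ^ 2 * S + 3 * p * S ^ 2) + (4 + 4 * p + 3 * p ^ 2) * S ^ 3
            + p ^ 2 * S ^ 2 * (S - 3) - p ^ 3 * S := by
        have g1 : 0 ≤ p ^ 2 * S ^ 2 * S := by positivity
        have g2 : 3 * p ^ 2 * S ^ 2 ≤ 3 * p ^ 2 * S ^ 3 := by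
          have : S ^ 2 ≤ S ^ 3 := pow_le_pow_right₀ hS (by norm_num)
          have hp2 : 0 ≤ 3 * p ^ 2 := by positivity
          exact mul_le_mul_of_nonneg_left this hp2
        have g3 : p ^ 3 * S ≤ 4 * (1 + p) ^ 2 * (3 * p ^ 2 * S) := by
          have h4 : p ^ 3 * S = p * (p ^ 2 * S) := by ring
          have h5 : 4 * (1 + p) ^ 2 * (3 * p ^ 2 * S) = (12 * (1 + p) ^ 2) * (p ^ 2 * S) := by ring
          rw [h4, h5]
          refine mul_le_mul_of_nonneg_right ?_ (by positivity)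
          nlinarith [sq_nonneg p]
        have g4 : 0 ≤ 4 * (1 + p) ^ 2 * (p ^ 3 + 3 * p * S ^ 2) := by positivity
        have g5 : 0 ≤ (4 + 4 * p) * S ^ 3 := by positivity
        nlinarith
      linarith
    have r1' : 0 ≤ (2 * p * S ^ 2 + (2 * p * S + p ^ 2) * (p + S)) / (p + S) ^ 3 := by positivity
    have r2 : 2 * p * S / (p + S) ^ 3 ≤ 4 * (1 + p) ^ 2 / S := by
      rw [div_le_div_iff₀ hy3 hS0]
      have e2 : 4 * (1 + p) ^ 2 * (p + S) ^ 3 - 2 * p * S * S =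
          4 * (1 + p) ^ 2 * (p ^ 3 + 3 * p ^ 2 * S + S ^ 3) + (12 * (1 + p) ^ 2 - 2) * p * S ^ 2 := by ring
      have h3 : 0 ≤ 4 * (1 + p) ^ 2 * (p ^ 3 + 3 * p ^ 2 * S + S ^ 3) + (12 * (1 + p) ^ 2 - 2) * p * S ^ 2 := by
        have h4 : 0 ≤ 12 * (1 + p) ^ 2 - 2 := by nlinarith
        positivity
      linarith
    have r2' : 0 ≤ 2 * p * S / (p + S) ^ 3 := by positivity
    have a1 : (T * v) * ((2 * p * S ^ 2 + (2 * p * S + p ^ 2) * (p + S)) / (p + S) ^ 3) ≤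
        |T * v| * (4 * (1 + p) ^ 2 / S) :=
      (mul_le_mul_of_nonneg_right (le_abs_self _) r1').trans (mul_le_mul_of_nonneg_left r1 (abs_nonneg _))
    have a2 : -((c * v) * (2 * p * S / (p + S) ^ 3)) ≤ |c * v| * (4 * (1 + p) ^ 2 / S) := by
      rw [← neg_mul]
      exact (mul_le_mul_of_nonneg_right (neg_le_abs _) r2').trans (mul_le_mul_of_nonneg_left r2 (abs_nonneg _))
    have a3 : |T * v| * (4 * (1 + p) ^ 2 / S) + |c * v| * (4 * (1 + p) ^ 2 / S) =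
        4 * (1 + p) ^ 2 * (|T * v| + |c * v|) / S := by ring
    linarith
  rw [hA0]
  unfold s1_A
  have e7 : 16 * (1 + p) ^ 2 * (|T * v| + |c * v|) / S = 4 * (4 * (1 + p) ^ 2 * (|T * v| + |c * v|) / S) := by ring
  rw [e7]
  linarith

end NullPen
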