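import Pool.Agent.Lib.H17P.M3
import Pool.Agent.Lib.H17P.EB
import Pool.Agent.Lib.H17P.S1

set_option autoImplicit false

/-!
Chunk W1. The pointwise inequality along one generator. In an eigenbasis `e, f` of `b` (`exists_ebase`), with `x_e = <x, e>`:
`gi s = (p+s)^(-2) e e + (q+s)^(-2) f f` (from `g_eq`, `gi_inv`), `dA = (p+s)(q+s)`, so by `zeta_eq`
`torSq dA = (c_e - s T_e)^2/((p+s)^3 (q+s)) + (c_f - s T_f)^2/((q+s)^3 (p+s))`. Apply `scalar_ineq` twice. `(2 b + tt)(v,v) = (3p+q) v_e^2 + (3q+p) v_f^2`.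
Error: `16 (1+p)^2 (|T_e v_e| + |c_e v_e|) + 16 (1+q)^2 (..) <= 16 (1+tt)^2 (|c|^2 + |T|^2 + |v|^2)`.
-/

open MeasureTheory Filter Topology
open scoped ContDiff

namespace NullPen

section eb
variable {n : Fin 3 → ℝ} {b : Fin 3 → Fin 3 → ℝ} {p q : ℝ} {e f : Fin 3 → ℝ}

theorem w1_dec (h : EBase n b p q e f) {x : Fin 3 → ℝ} (hx : ∑ i, n i * x i = 0) (i : Fin 3) :
    x i = (∑ j, e j * x j) * e i + (∑ j, f j * x j) * f i := by
  have h1 : ∑ j, pr n i j * x j = x i := by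
    unfold pr
    simp only [sub_mul, ite_mul, one_mul, zero_mul, Finset.sum_sub_distrib, Finset.sum_ite_eq, Finset.mem_univ, if_true]
    have e1 : ∑ j, n i * n j * x j = n i * ∑ j, n j * x j := by
      rw [Finset.mul_sum]
      exact Finset.sum_congr rfl fun j _ => by ring
    rw [e1, hx]
    ring
  rw [← h1]
  simp only [h.proj]
  rw [Finset.sum_mul, Finset.sum_mul, ← Finset.sum_add_distrib]
  exact Finset.sum_congr rfl fun j _ => by ring

theorem w1_tr (h : EBase n b p q e f) : tr b = p + q := by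
  have e1 : tr b = p * ∑ i, e i ^ 2 + q * ∑ i, f i ^ 2 := by
    conv_lhs => rw [tr]
    rw [Finset.mul_sum, Finset.mul_sum, ← Finset.sum_add_distrib]
    exact Finset.sum_congr rfl fun i _ => by rw [h.bform i i]; ring
  rw [e1, h.ee, h.ff]
  ring

theorem w1_sq (h : EBase n b p q e f) : sq b = p ^ 2 + q ^ 2 := by
  have e1 : sq b = p ^ 2 * (∑ i, e i ^ 2) ^ 2 + q ^ 2 * (∑ i, f i ^ 2) ^ 2 + 2 * p * q * (∑ i, e i * f i) ^ 2 := by
    unfold sq
    simp only [h.bform]
    simp only [Fin.sum_univ_three]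
    ring
  rw [e1, h.ee, h.ff, h.ef]
  ring

theorem w1_dt (h : EBase n b p q e f) : dt b = p * q := by
  unfold dt
  rw [w1_tr h, w1_sq h]
  ring

theorem w1_inner (h : EBase n b p q e f) {x : Fin 3 → ℝ} (hx : ∑ i, n i * x i = 0) (y : Fin 3 → ℝ) :
    ∑ i, x i * y i = (∑ j, e j * x j) * (∑ j, e j * y j) + (∑ j, f j * x j) * (∑ j, f j * y j) := by
  have h1 := w1_dec h hx
  generalize (∑ j, e j * x j) = xe at h1 ⊢
  generalize (∑ j, f j * x j) = xf at h1 ⊢
  simp only [h1]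
  rw [Finset.mul_sum, Finset.mul_sum, ← Finset.sum_add_distrib]
  exact Finset.sum_congr rfl fun i _ => by ring

theorem w1_b (h : EBase n b p q e f) (x : Fin 3 → ℝ) (i : Fin 3) :
    ∑ j, b i j * x j = p * (∑ j, e j * x j) * e i + q * (∑ j, f j * x j) * f i := by
  simp only [h.bform]
  simp only [Fin.sum_univ_three]
  ring

theorem w1_ee (h : EBase n b p q e f) (x y : ℝ) : ∑ i, (x * e i + y * f i) ^ 2 = x ^ 2 + y ^ 2 := by
  have e1 : ∑ i, (x * e i + y * f i) ^ 2 = x ^ 2 * (∑ i, e i ^ 2) + y ^ 2 * (∑ i, f i ^ 2) +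
      2 * x * y * (∑ i, e i * f i) := by
    simp only [Fin.sum_univ_three]
    ring
  rw [e1, h.ee, h.ff, h.ef]
  ring

/-- The array `b + s P` in the eigenbasis. -/
theorem w1_sh (h : EBase n b p q e f) (s : ℝ) (i j : Fin 3) :
    sh n b s i j = (p + s) * e i * e j + (q + s) * f i * f j := by
  unfold sh
  rw [h.bform, h.proj]
  ring

theorem w1_mm (h : EBase n b p q e f) (s : ℝ) (i j : Fin 3) :
    mm (sh n b s) (sh n b s) i j = (p + s) ^ 2 * e i * e j + (q + s) ^ 2 * f i * f j := by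
  have h1 := h.ee
  have h2 := h.ff
  have h3 := h.ef
  unfold mm
  simp only [w1_sh h]
  have e1 : ∑ k, ((p + s) * e i * e k + (q + s) * f i * f k) * ((p + s) * e k * e j + (q + s) * f k * f j) =
      (p + s) ^ 2 * e i * e j * (∑ k, e k ^ 2) + (q + s) ^ 2 * f i * f j * (∑ k, f k ^ 2) +
      ((p + s) * (q + s) * (e i * f j + f i * e j)) * (∑ k, e k * f k) := by
    simp only [Fin.sum_univ_three]
    ring
  rw [e1, h1, h2, h3]
  ring

/-- The inverse. -/
theorem w1_inv (h : EBase n b p q e f) {s : ℝ} (hs : 0 ≤ s) {gi : Fin 3 → Fin 3 → ℝ}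
    (hsy : ∀ i j, gi i j = gi j i) (hk : ∀ i, ∑ j, gi i j * n j = 0)
    (hi : ∀ i j, ∑ k, mm (sh n b s) (sh n b s) i k * gi k j = pr n i j) (i j : Fin 3) :
    gi i j = e i * e j / (p + s) ^ 2 + f i * f j / (q + s) ^ 2 := by
  have hp : 0 < p + s := by linarith [h.pp]
  have hq : 0 < q + s := by linarith [h.qp]
  have he : ∑ k, e k * gi k j = e j / (p + s) ^ 2 := by
    have h1 : (p + s) ^ 2 * ∑ k, e k * gi k j = e j := by
      have e1 : ∑ i, e i * (∑ k, mm (sh n b s) (sh n b s) i k * gi k j) = ∑ i, e i * pr n i j :=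
        Finset.sum_congr rfl fun i _ => by rw [hi]
      have e2 : ∑ i, e i * (∑ k, mm (sh n b s) (sh n b s) i k * gi k j) =
          (p + s) ^ 2 * (∑ i, e i ^ 2) * (∑ k, e k * gi k j) +
          (q + s) ^ 2 * (∑ i, e i * f i) * (∑ k, f k * gi k j) := by
        simp only [w1_mm h]
        simp only [Fin.sum_univ_three]
        ring
      have e3 : ∑ i, e i * pr n i j = (∑ i, e i ^ 2) * e j + (∑ i, e i * f i) * f j := by
        simp only [h.proj]
        rw [Finset.sum_mul, Finset.sum_mul, ← Finset.sum_add_distrib]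
        exact Finset.sum_congr rfl fun i _ => by ring
      rw [e2, e3, h.ee, h.ef] at e1
      linarith
    rw [eq_div_iff (by positivity)]
    linarith
  have hf : ∑ k, f k * gi k j = f j / (q + s) ^ 2 := by
    have h1 : (q + s) ^ 2 * ∑ k, f k * gi k j = f j := by
      have e1 : ∑ i, f i * (∑ k, mm (sh n b s) (sh n b s) i k * gi k j) = ∑ i, f i * pr n i j :=
        Finset.sum_congr rfl fun i _ => by rw [hi]
      have e2 : ∑ i, f i * (∑ k, mm (sh n b s) (sh n b s) i k * gi k j) =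
          (p + s) ^ 2 * (∑ i, e i * f i) * (∑ k, e k * gi k j) +
          (q + s) ^ 2 * (∑ i, f i ^ 2) * (∑ k, f k * gi k j) := by
        simp only [w1_mm h]
        simp only [Fin.sum_univ_three]
        ring
      have e3 : ∑ i, f i * pr n i j = (∑ i, e i * f i) * e j + (∑ i, f i ^ 2) * f j := by
        simp only [h.proj]
        rw [Finset.sum_mul, Finset.sum_mul, ← Finset.sum_add_distrib]
        exact Finset.sum_congr rfl fun i _ => by ring
      rw [e2, e3, h.ff, h.ef] at e1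
      linarith
    rw [eq_div_iff (by positivity)]
    linarith
  have hcol : ∑ k, n k * gi k j = 0 := by
    rw [← hk j]
    exact Finset.sum_congr rfl fun k _ => by rw [hsy k j]; ring
  have h1 := w1_dec h (x := fun k => gi k j) hcol i
  simp only [he, hf] at h1
  rw [h1]
  ring

end eb

namespace NullData
variable {D : NullData}

/-- The integrand. -/
noncomputable def w1_K (D : NullData) (s : ℝ) (n : E3) : ℝ :=
  (∑ i, ((D.tt n + s) * (D.cc n i - s * D.TT n i) - ∑ j, D.bb n i j * (D.cc n j - s * D.TT n j)) ^ 2) /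
    (D.dd n + s * D.tt n + s ^ 2) ^ 3

theorem w1_xt (hD : D.Admissible) (n : S2) (s : ℝ) : ∑ i, (n : E3) i * (D.cc n i - s * D.TT n i) = 0 := by
  have h1 := cc_tan hD n
  have h2 := TT_tan hD n
  have e : ∑ i, (n : E3) i * (D.cc n i - s * D.TT n i) = (∑ i, (n : E3) i * D.cc n i) -
      s * ∑ i, (n : E3) i * D.TT n i := by
    rw [Finset.mul_sum, ← Finset.sum_sub_distrib]
    exact Finset.sum_congr rfl fun i _ => by ring
  rw [e, h1, h2]
  ring

theorem w1_alg (e f x : Fin 3 → ℝ) (P Q : ℝ) :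
    ∑ i, ∑ j, (e i * e j / P ^ 2 + f i * f j / Q ^ 2) * (x i / (P * Q)) * (x j / (P * Q)) =
      ((∑ j, e j * x j) ^ 2 / P ^ 2 + (∑ j, f j * x j) ^ 2 / Q ^ 2) / (P * Q) ^ 2 := by
  have e1 : ∑ i, ∑ j, (e i * e j / P ^ 2 + f i * f j / Q ^ 2) * (x i / (P * Q)) * (x j / (P * Q)) =
      ∑ i, ∑ j, ((e i * x i) * (e j * x j) * (1 / P ^ 2 * (1 / (P * Q)) ^ 2) +
        (f i * x i) * (f j * x j) * (1 / Q ^ 2 * (1 / (P * Q)) ^ 2)) := by
    refine Finset.sum_congr rfl fun i _ => Finset.sum_congr rfl fun j _ => ?_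
    ring
  rw [e1]
  simp only [Finset.sum_add_distrib, ← Finset.sum_mul, ← Finset.mul_sum]
  ring

/-- The integrand in the eigenbasis. -/
theorem w1_form (hD : D.Admissible) (n : S2) {p q : ℝ} {e f : Fin 3 → ℝ}
    (h : EBase (fun i => (n : E3) i) (D.bb n) p q e f) (s : ℝ) (hs : 0 ≤ s) :
    D.torSq s n * D.dA s n =
      (∑ j, e j * (D.cc n j - s * D.TT n j)) ^ 2 / ((p + s) ^ 3 * (q + s)) +
      (∑ j, f j * (D.cc n j - s * D.TT n j)) ^ 2 / ((q + s) ^ 3 * (p + s)) := by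
  have hp : 0 < p + s := by linarith [h.pp]
  have hq : 0 < q + s := by linarith [h.qp]
  have hdA : D.dA s n = (p + s) * (q + s) := by
    rw [dA_eq hD n s hs]
    have h1 : D.tt n = p + q := w1_tr h
    have h2 : D.dd n = p * q := w1_dt h
    rw [h1, h2]
    ring
  have hgi := w1_inv h hs (hD.null.gi_symm s hs n) (hD.null.gi_tan s hs n) (fun i j => by
    rw [← g_eq hD n s hs]
    exact hD.null.gi_inv s hs n i j)
  have hz : ∀ i, D.ζ s n i = (D.cc n i - s * D.TT n i) / ((p + s) * (q + s)) := by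
    intro i
    rw [eq_div_iff (by positivity), ← hdA]
    exact zeta_eq hD s hs n i
  unfold torSq
  rw [hdA]
  simp only [hgi, hz]
  obtain ⟨x, hx⟩ : ∃ x : Fin 3 → ℝ, x = fun i => D.cc n i - s * D.TT n i := ⟨_, rfl⟩
  have hx' : ∀ i, D.cc n i - s * D.TT n i = x i := fun i => by rw [hx]
  simp only [hx']
  have e1 := w1_alg e f x (p + s) (q + s)
  rw [e1]
  field_simp

theorem w1_eq (hD : D.Admissible) (n : S2) (s : ℝ) (hs : 0 ≤ s) : D.torSq s n * D.dA s n = w1_K D s n := by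
  obtain ⟨p, q, e, f, h⟩ := exists_ebase (unit_n n) (bb_tan hD n) (tt_pos hD n) (dd_pos hD n)
  have hp : 0 < p + s := by linarith [h.pp]
  have hq : 0 < q + s := by linarith [h.qp]
  rw [w1_form hD n h s hs]
  unfold w1_K
  have h1 : D.tt n = p + q := w1_tr h
  have h2 : D.dd n = p * q := w1_dt h
  have hx := w1_xt hD n s
  set x : Fin 3 → ℝ := fun i => D.cc n i - s * D.TT n i with hxd
  have hdec := w1_dec h hx
  have hb := w1_b h x
  have e0 : ∀ i, (D.tt n + s) * (D.cc n i - s * D.TT n i) - ∑ j, D.bb n i j * (D.cc n j - s * D.TT n j) =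
      ((q + s) * ∑ j, e j * x j) * e i + ((p + s) * ∑ j, f j * x j) * f i := by
    intro i
    have a1 := hdec i
    have a2 := hb i
    simp only [hxd] at a1 a2 ⊢
    rw [a2, h1]
    linear_combination (p + q + s) * a1
  have e2 : ∑ i, ((D.tt n + s) * (D.cc n i - s * D.TT n i) - ∑ j, D.bb n i j * (D.cc n j - s * D.TT n j)) ^ 2 =
      ((q + s) * ∑ j, e j * x j) ^ 2 + ((p + s) * ∑ j, f j * x j) ^ 2 := by
    simp only [e0]
    exact w1_ee h _ _
  rw [e2, h1, h2]
  have e3 : p * q + s * (p + q) + s ^ 2 = (p + s) * (q + s) := by ring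
  rw [e3]
  have e4 : ∑ j, e j * (D.cc n j - s * D.TT n j) = ∑ j, e j * x j := rfl
  have e5 : ∑ j, f j * (D.cc n j - s * D.TT n j) = ∑ j, f j * x j := rfl
  rw [e4, e5]
  field_simp

theorem torSq_nonneg (hD : D.Admissible) (n : S2) (s : ℝ) (hs : 0 ≤ s) : 0 ≤ D.torSq s n * D.dA s n := by
  rw [w1_eq hD n s hs]
  have h1 := tt_pos hD n
  have h2 := dd_pos hD n
  unfold w1_K
  have h3 : 0 ≤ D.dd n + s * D.tt n + s ^ 2 := by positivity
  exact div_nonneg (Finset.sum_nonneg fun i _ => sq_nonneg _) (pow_nonneg h3 3)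

/-- On `[0,∞) × S2` the function `torSq dA` is continuous: it is a quotient of continuous functions with positive denominator. -/
theorem torSq_cont (hD : D.Admissible) :
    ContinuousOn (fun p : ℝ × S2 => D.torSq p.1 p.2 * D.dA p.1 p.2) (Set.Ici 0 ×ˢ Set.univ) := by
  have h1 : ContinuousOn (fun p : ℝ × S2 => w1_K D p.1 p.2) (Set.Ici 0 ×ˢ Set.univ) := by
    have hc : Continuous (fun p : ℝ × S2 => (p.2 : E3)) := continuous_subtype_val.comp continuous_snd
    have ht : Continuous (fun p : ℝ × S2 => D.tt p.2) := (tt_smooth hD.null).continuous.comp hc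
    have hd : Continuous (fun p : ℝ × S2 => D.dd p.2) := (dd_smooth hD.null).continuous.comp hc
    have hb : ∀ i j, Continuous (fun p : ℝ × S2 => D.bb p.2 i j) := fun i j =>
      (bb_smooth hD.null i j).continuous.comp hc
    have hcc : ∀ i, Continuous (fun p : ℝ × S2 => D.cc p.2 i) := fun i => (cc_smooth hD.null i).continuous.comp hc
    have hT : ∀ i, Continuous (fun p : ℝ × S2 => D.TT p.2 i) := fun i => (TT_smooth hD.null i).continuous.comp hc
    have hx : ∀ i, Continuous (fun p : ℝ × S2 => D.cc p.2 i - p.1 * D.TT p.2 i) := fun i =>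
      (hcc i).sub (continuous_fst.mul (hT i))
    unfold w1_K
    refine ContinuousOn.div (Continuous.continuousOn ?_) (Continuous.continuousOn ?_) ?_
    · exact continuous_finset_sum _ fun i _ => (((ht.add continuous_fst).mul (hx i)).sub
        (continuous_finset_sum _ fun j _ => (hb i j).mul (hx j))).pow 2
    · exact ((hd.add (continuous_fst.mul ht)).add (continuous_fst.pow 2)).pow 3
    · intro p hp
      have h0 : 0 ≤ p.1 := hp.1
      have h2 := tt_pos hD p.2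
      have h3 := dd_pos hD p.2
      positivity
  refine h1.congr fun p hp => ?_
  exact w1_eq hD p.2 p.1 hp.1

theorem ray_ineq (hD : D.Admissible) (n : S2) (v : Fin 3 → ℝ) (hv : ∑ i, (n : E3) i * v i = 0) {S : ℝ} (hS : 1 ≤ S) :
    4 * (∑ i, D.TT n i * v i) - 2 * (∑ i, ∑ j, (2 * D.bb n i j + if i = j then D.tt n else 0) * v i * v j)
      - 32 * (1 + D.tt n) ^ 2 * ((∑ i, D.cc n i ^ 2) + (∑ i, D.TT n i ^ 2) + ∑ i, v i ^ 2) / S
    ≤ 2 * ∫ s in (0 : ℝ)..S, D.torSq s n * D.dA s n := by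
  have hS0 : 0 < S := by linarith
  obtain ⟨p, q, e, f, h⟩ := exists_ebase (unit_n n) (bb_tan hD n) (tt_pos hD n) (dd_pos hD n)
  have h1 : D.tt n = p + q := w1_tr h
  have hp0 := h.pp
  have hq0 := h.qp
  obtain ⟨ce, hce⟩ : ∃ x : ℝ, x = ∑ j, e j * D.cc n j := ⟨_, rfl⟩
  obtain ⟨cf, hcf⟩ : ∃ x : ℝ, x = ∑ j, f j * D.cc n j := ⟨_, rfl⟩
  obtain ⟨Te, hTe⟩ : ∃ x : ℝ, x = ∑ j, e j * D.TT n j := ⟨_, rfl⟩
  obtain ⟨Tf, hTf⟩ : ∃ x : ℝ, x = ∑ j, f j * D.TT n j := ⟨_, rfl⟩
  obtain ⟨ve, hve⟩ : ∃ x : ℝ, x = ∑ j, e j * v j := ⟨_, rfl⟩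
  obtain ⟨vf, hvf⟩ : ∃ x : ℝ, x = ∑ j, f j * v j := ⟨_, rfl⟩
  have hE : ∀ s, ∑ j, e j * (D.cc n j - s * D.TT n j) = ce - s * Te := by
    intro s
    rw [hce, hTe, Finset.mul_sum, ← Finset.sum_sub_distrib]
    exact Finset.sum_congr rfl fun j _ => by ring
  have hF : ∀ s, ∑ j, f j * (D.cc n j - s * D.TT n j) = cf - s * Tf := by
    intro s
    rw [hcf, hTf, Finset.mul_sum, ← Finset.sum_sub_distrib]
    exact Finset.sum_congr rfl fun j _ => by ring
  have hint : 2 * ∫ s in (0 : ℝ)..S, D.torSq s n * D.dA s n =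
      (∫ s in (0 : ℝ)..S, 2 * (ce - s * Te) ^ 2 / ((p + s) ^ 3 * (q + s))) +
      ∫ s in (0 : ℝ)..S, 2 * (cf - s * Tf) ^ 2 / ((q + s) ^ 3 * (p + s)) := by
    rw [← intervalIntegral.integral_const_mul, ← intervalIntegral.integral_add]
    · refine intervalIntegral.integral_congr fun s hs => ?_
      rw [Set.uIcc_of_le hS0.le] at hs
      rw [w1_form hD n h s hs.1, hE, hF]
      ring
    · refine ContinuousOn.intervalIntegrable (ContinuousOn.div (by fun_prop) (by fun_prop) ?_)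
      intro s hs
      rw [Set.uIcc_of_le hS0.le] at hs
      have a1 : 0 < p + s := by linarith [hs.1]
      have a2 : 0 < q + s := by linarith [hs.1]
      positivity
    · refine ContinuousOn.intervalIntegrable (ContinuousOn.div (by fun_prop) (by fun_prop) ?_)
      intro s hs
      rw [Set.uIcc_of_le hS0.le] at hs
      have a1 : 0 < p + s := by linarith [hs.1]
      have a2 : 0 < q + s := by linarith [hs.1]
      positivity
  have s1 := scalar_ineq hp0 hq0 ce Te ve hS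
  have s2 := scalar_ineq hq0 hp0 cf Tf vf hS
  have iTv : ∑ i, D.TT n i * v i = Te * ve + Tf * vf := by
    rw [w1_inner h (TT_tan hD n) v, hTe, hTf, hve, hvf]
  have iTT : ∑ i, D.TT n i ^ 2 = Te ^ 2 + Tf ^ 2 := by
    have h2 := w1_inner h (TT_tan hD n) (D.TT n)
    rw [← hTe, ← hTf] at h2
    have h3 : ∑ i, D.TT n i ^ 2 = ∑ i, D.TT n i * D.TT n i := Finset.sum_congr rfl fun i _ => by ring
    rw [h3, h2]
    ring
  have icc : ∑ i, D.cc n i ^ 2 = ce ^ 2 + cf ^ 2 := by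
    have h2 := w1_inner h (cc_tan hD n) (D.cc n)
    rw [← hce, ← hcf] at h2
    have h3 : ∑ i, D.cc n i ^ 2 = ∑ i, D.cc n i * D.cc n i := Finset.sum_congr rfl fun i _ => by ring
    rw [h3, h2]
    ring
  have ivv : ∑ i, v i ^ 2 = ve ^ 2 + vf ^ 2 := by
    have h2 := w1_inner h hv v
    rw [← hve, ← hvf] at h2
    have h3 : ∑ i, v i ^ 2 = ∑ i, v i * v i := Finset.sum_congr rfl fun i _ => by ring
    rw [h3, h2]
    ring
  have iQ : ∑ i, ∑ j, (2 * D.bb n i j + if i = j then D.tt n else 0) * v i * v j =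
      (3 * p + q) * ve ^ 2 + (3 * q + p) * vf ^ 2 := by
    have e1 : ∑ i, ∑ j, (2 * D.bb n i j + if i = j then D.tt n else 0) * v i * v j =
        2 * (∑ i, v i * ∑ j, D.bb n i j * v j) + D.tt n * ∑ i, v i ^ 2 := by
      simp only [Fin.sum_univ_three]
      simp only [Fin.isValue, if_true, zero_ne_one, one_ne_zero, Fin.reduceEq, if_false]
      ring
    have e2 : ∑ i, v i * ∑ j, D.bb n i j * v j = p * ve ^ 2 + q * vf ^ 2 := by
      have hb := w1_b h v
      simp only [hb]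
      rw [← hve, ← hvf]
      have e3 : ∑ i, v i * (p * ve * e i + q * vf * f i) = p * ve * (∑ i, e i * v i) + q * vf * ∑ i, f i * v i := by
        rw [Finset.mul_sum, Finset.mul_sum, ← Finset.sum_add_distrib]
        exact Finset.sum_congr rfl fun i _ => by ring
      rw [e3, ← hve, ← hvf]
      ring
    rw [e1, e2, ivv, h1]
    ring
  rw [hint, iTv, iQ, icc, iTT, ivv, h1]
  -- the error terms
  have k1 : 16 * (1 + p) ^ 2 * (|Te * ve| + |ce * ve|) ≤
      32 * (1 + (p + q)) ^ 2 * (ce ^ 2 + Te ^ 2 + ve ^ 2) := by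
    have a1 : |Te * ve| ≤ (Te ^ 2 + ve ^ 2) / 2 := by
      rw [abs_le]
      constructor <;> nlinarith [sq_nonneg (Te + ve), sq_nonneg (Te - ve)]
    have a2 : |ce * ve| ≤ (ce ^ 2 + ve ^ 2) / 2 := by
      rw [abs_le]
      constructor <;> nlinarith [sq_nonneg (ce + ve), sq_nonneg (ce - ve)]
    have a3 : (1 + p) ^ 2 ≤ (1 + (p + q)) ^ 2 := pow_le_pow_left₀ (by linarith) (by linarith) 2
    have a4 : 0 ≤ (1 + p) ^ 2 := sq_nonneg _
    have a5 : |Te * ve| + |ce * ve| ≤ ce ^ 2 + Te ^ 2 + ve ^ 2 := by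
      nlinarith [sq_nonneg Te, sq_nonneg ce]
    calc 16 * (1 + p) ^ 2 * (|Te * ve| + |ce * ve|) ≤ 16 * (1 + (p + q)) ^ 2 * (ce ^ 2 + Te ^ 2 + ve ^ 2) := by
          refine mul_le_mul (by linarith) a5 (by positivity) (by positivity)
      _ ≤ 32 * (1 + (p + q)) ^ 2 * (ce ^ 2 + Te ^ 2 + ve ^ 2) := by
          refine mul_le_mul_of_nonneg_right ?_ (by positivity)
          nlinarith [sq_nonneg (1 + (p + q))]
  have k2 : 16 * (1 + q) ^ 2 * (|Tf * vf| + |cf * vf|) ≤
      32 * (1 + (p + q)) ^ 2 * (cf ^ 2 + Tf ^ 2 + vf ^ 2) := by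
    have a1 : |Tf * vf| ≤ (Tf ^ 2 + vf ^ 2) / 2 := by
      rw [abs_le]
      constructor <;> nlinarith [sq_nonneg (Tf + vf), sq_nonneg (Tf - vf)]
    have a2 : |cf * vf| ≤ (cf ^ 2 + vf ^ 2) / 2 := by
      rw [abs_le]
      constructor <;> nlinarith [sq_nonneg (cf + vf), sq_nonneg (cf - vf)]
    have a3 : (1 + q) ^ 2 ≤ (1 + (p + q)) ^ 2 := pow_le_pow_left₀ (by linarith) (by linarith) 2
    have a5 : |Tf * vf| + |cf * vf| ≤ cf ^ 2 + Tf ^ 2 + vf ^ 2 := by
      nlinarith [sq_nonneg Tf, sq_nonneg cf]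
    calc 16 * (1 + q) ^ 2 * (|Tf * vf| + |cf * vf|) ≤ 16 * (1 + (p + q)) ^ 2 * (cf ^ 2 + Tf ^ 2 + vf ^ 2) := by
          refine mul_le_mul (by linarith) a5 (by positivity) (by positivity)
      _ ≤ 32 * (1 + (p + q)) ^ 2 * (cf ^ 2 + Tf ^ 2 + vf ^ 2) := by
          refine mul_le_mul_of_nonneg_right ?_ (by positivity)
          nlinarith [sq_nonneg (1 + (p + q))]
  have k3 : 16 * (1 + p) ^ 2 * (|Te * ve| + |ce * ve|) / S + 16 * (1 + q) ^ 2 * (|Tf * vf| + |cf * vf|) / S ≤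
      32 * (1 + (p + q)) ^ 2 * (ce ^ 2 + cf ^ 2 + (Te ^ 2 + Tf ^ 2) + (ve ^ 2 + vf ^ 2)) / S := by
    rw [← add_div]
    refine div_le_div_of_nonneg_right ?_ hS0.le
    linarith
  linarith

end NullData
end NullPen
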