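import Pool.Agent.Lib.H17P.B1
import Pool.Agent.Lib.H17P.M3
import Pool.Agent.Lib.H17P.W1
import Pool.Agent.Lib.PenroseSph.SphAvg

set_option autoImplicit false

/-!
Chunk E1 (three theorems). `area_eq`: integrate `dA_eq` (`sm univ = 4 pi`: `PenroseSph.sm_univ`).
`area_asym`: `sqrt (16 pi (4 pi s^2 + a s + d)) - 8 pi s → a` : multiply by the conjugate, `(16 pi a s + 16 pi d)/(sqrt(..) + 8 pi s) → a`.
`energy_ge`: `Θ(s) = ∫ θ dA` is continuous on `[0,∞)`; by `expansion` and `dec`, the derivative of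
`Θ(s) - 8 pi s + 2 ∫_0^s K`, `K(s) = ∫ torSq dA` (continuous), is `- ∫ ρ dA <= 0` for `s > 0`; so `Θ(s) <= Θ(0) + 8 pi s - 2 ∫_0^s K`, `Θ(0) <= 0` because
the initial surface is trapped. For fixed `S` and `s >= S` : `∫_0^s K >= ∫_0^S K`. Let `s → ∞` in `BondiEnergy`.
-/

open MeasureTheory Filter Topology
open scoped ContDiff

namespace NullPen

/-- the elementary limit -/
theorem E1_lim (a d : ℝ) : Tendsto (fun s : ℝ =>
    Real.sqrt (16 * Real.pi * (4 * Real.pi * s ^ 2 + s * a + d)) - 8 * Real.pi * s) atTop (𝓝 a) := by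
  have hpi := Real.pi_pos
  have t1 : Tendsto (fun s : ℝ => 1 / s) atTop (𝓝 0) := by
    simpa using tendsto_inv_atTop_zero (𝕜 := ℝ)
  have t2 : Tendsto (fun s : ℝ => 16 * Real.pi * a + 16 * Real.pi * d * (1 / s)) atTop
      (𝓝 (16 * Real.pi * a + 16 * Real.pi * d * 0)) :=
    (t1.const_mul _).const_add _
  have t3 : Tendsto (fun s : ℝ => Real.sqrt (64 * Real.pi ^ 2 + 16 * Real.pi * a * (1 / s) +
      16 * Real.pi * d * (1 / s) ^ 2) + 8 * Real.pi) atTop
      (𝓝 (Real.sqrt (64 * Real.pi ^ 2 + 16 * Real.pi * a * 0 + 16 * Real.pi * d * 0 ^ 2) + 8 * Real.pi)) := by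
    refine Tendsto.add_const _ ((Real.continuous_sqrt.tendsto _).comp ?_)
    exact ((t1.const_mul _).const_add _).add ((t1.pow 2).const_mul _)
  have e3 : Real.sqrt (64 * Real.pi ^ 2 + 16 * Real.pi * a * 0 + 16 * Real.pi * d * 0 ^ 2) = 8 * Real.pi := by
    rw [show (64 * Real.pi ^ 2 + 16 * Real.pi * a * 0 + 16 * Real.pi * d * 0 ^ 2 : ℝ) = (8 * Real.pi) ^ 2 by ring]
    exact Real.sqrt_sq (by positivity)
  rw [e3] at t3
  have t4 := t2.div t3 (by positivity)
  have e4 : (16 * Real.pi * a + 16 * Real.pi * d * 0) / (8 * Real.pi + 8 * Real.pi) = a := by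
    field_simp
    ring
  rw [e4] at t4
  -- the quantity under the root is eventually nonnegative
  have hev : ∀ᶠ s : ℝ in atTop, 0 ≤ 64 * Real.pi ^ 2 + 16 * Real.pi * a * (1 / s) +
      16 * Real.pi * d * (1 / s) ^ 2 := by
    have t5 : Tendsto (fun s : ℝ => 64 * Real.pi ^ 2 + 16 * Real.pi * a * (1 / s) +
      16 * Real.pi * d * (1 / s) ^ 2) atTop (𝓝 (64 * Real.pi ^ 2 + 16 * Real.pi * a * 0 +
      16 * Real.pi * d * 0 ^ 2)) := ((t1.const_mul _).const_add _).add ((t1.pow 2).const_mul _)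
    have h0 : (0 : ℝ) < 64 * Real.pi ^ 2 + 16 * Real.pi * a * 0 + 16 * Real.pi * d * 0 ^ 2 := by
      have : (64 * Real.pi ^ 2 + 16 * Real.pi * a * 0 + 16 * Real.pi * d * 0 ^ 2 : ℝ) = 64 * Real.pi ^ 2 := by ring
      rw [this]; positivity
    exact (t5.eventually (lt_mem_nhds h0)).mono fun s hs => le_of_lt hs
  refine t4.congr' ?_
  filter_upwards [hev, eventually_gt_atTop 0] with s h1 h2
  set R := Real.sqrt (64 * Real.pi ^ 2 + 16 * Real.pi * a * (1 / s) + 16 * Real.pi * d * (1 / s) ^ 2) with hR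
  have hR2 : R ^ 2 = 64 * Real.pi ^ 2 + 16 * Real.pi * a * (1 / s) + 16 * Real.pi * d * (1 / s) ^ 2 :=
    Real.sq_sqrt h1
  have hR0 : 0 ≤ R := Real.sqrt_nonneg _
  have e5 : Real.sqrt (16 * Real.pi * (4 * Real.pi * s ^ 2 + s * a + d)) = s * R := by
    rw [show 16 * Real.pi * (4 * Real.pi * s ^ 2 + s * a + d) = (s * R) ^ 2 by
      rw [mul_pow, hR2]
      field_simp
      ring]
    exact Real.sqrt_sq (by positivity)
  rw [e5]
  have h3 : 0 < R + 8 * Real.pi := by positivity
  change (16 * Real.pi * a + 16 * Real.pi * d * (1 / s)) / (R + 8 * Real.pi) = _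
  rw [div_eq_iff h3.ne']
  have e6 : (s * R - 8 * Real.pi * s) * (R + 8 * Real.pi) = s * (R ^ 2 - 64 * Real.pi ^ 2) := by ring
  rw [e6, hR2]
  field_simp
  ring

namespace NullData
variable {D : NullData}

theorem area_eq (hD : D.Admissible) (s : ℝ) (hs : 0 ≤ s) :
    D.area s = 4 * Real.pi * s ^ 2 + s * (∫ n : S2, D.tt n ∂sm) + ∫ n : S2, D.dd n ∂sm := by
  have := m3_fin
  have ct : Integrable (fun n : S2 => D.tt n) sm := m3_int (m3_res (tt_smooth hD.null).continuous)
  have cd : Integrable (fun n : S2 => D.dd n) sm := m3_int (m3_res (dd_smooth hD.null).continuous)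
  have hsm : sm.real Set.univ = 4 * Real.pi := Pool.Agent.Lib.PenroseSph.sm_univ
  unfold area
  have e : ∀ n : S2, D.dA s n = D.dd n + s * D.tt n + s ^ 2 := fun n => dA_eq hD n s hs
  simp only [e]
  rw [integral_add (f := fun n : S2 => D.dd n + s * D.tt n) (cd.add (ct.const_mul s)) (integrable_const _),
    integral_add cd (ct.const_mul s), integral_const_mul, integral_const, hsm, smul_eq_mul]
  ring

theorem area_asym (hD : D.Admissible) :
    Tendsto (fun s : ℝ => Real.sqrt (16 * Real.pi * D.area s) - 8 * Real.pi * s) atTop (𝓝 (∫ n : S2, D.tt n ∂sm)) := by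
  refine (E1_lim (∫ n : S2, D.tt n ∂sm) (∫ n : S2, D.dd n ∂sm)).congr' ?_
  filter_upwards [eventually_ge_atTop 0] with s hs
  rw [area_eq hD s hs]

/-- `∫ θ dA` -/
noncomputable def E1_T (D : NullData) (s : ℝ) : ℝ :=
  ∫ n : S2, D.θ s n * (D.dd n + s * D.tt n + s ^ 2) ∂sm

/-- `∫ torSq dA`, extended to negative `s` as a constant -/
noncomputable def E1_K (D : NullData) (s : ℝ) : ℝ :=
  ∫ n : S2, D.torSq (max s 0) n * D.dA (max s 0) n ∂sm

theorem E1_T_cont (hD : D.IsNull) : Continuous (E1_T D) := by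
  have := m3_fin
  have h1 : Continuous (fun p : ℝ × S2 => D.θ p.1 p.2 * (D.dd p.2 + p.1 * D.tt p.2 + p.1 ^ 2)) := by
    have hc : Continuous (fun p : ℝ × S2 => (p.2 : E3)) := continuous_subtype_val.comp continuous_snd
    have ht : Continuous (fun p : ℝ × S2 => D.tt p.2) := (tt_smooth hD).continuous.comp hc
    have hd : Continuous (fun p : ℝ × S2 => D.dd p.2) := (dd_smooth hD).continuous.comp hc
    exact (hD.cont_θ.comp (continuous_fst.prodMk hc)).mul
      ((hd.add (continuous_fst.mul ht)).add (continuous_fst.pow 2))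
  have h2 := continuous_parametric_integral_of_continuous (μ := sm)
    (f := fun (t : ℝ) (n : S2) => D.θ t n * (D.dd n + t * D.tt n + t ^ 2)) h1
    (s := Set.univ) isCompact_univ
  rw [Measure.restrict_univ] at h2
  exact h2

theorem E1_K_cont' (hD : D.Admissible) :
    Continuous (fun p : ℝ × S2 => D.torSq (max p.1 0) p.2 * D.dA (max p.1 0) p.2) := by
  have h1 : Continuous (fun p : ℝ × S2 => ((max p.1 0, p.2) : ℝ × S2)) :=
    (continuous_fst.max continuous_const).prodMk continuous_snd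
  exact (torSq_cont hD).comp_continuous h1 fun p => ⟨Set.mem_Ici.mpr (le_max_right p.1 0), Set.mem_univ _⟩

theorem E1_K_cont (hD : D.Admissible) : Continuous (E1_K D) := by
  have := m3_fin
  have h2 := continuous_parametric_integral_of_continuous (μ := sm)
    (f := fun (t : ℝ) (n : S2) => D.torSq (max t 0) n * D.dA (max t 0) n) (E1_K_cont' hD)
    (s := Set.univ) isCompact_univ
  rw [Measure.restrict_univ] at h2
  exact h2

theorem E1_K_nonneg (hD : D.Admissible) (s : ℝ) : 0 ≤ E1_K D s :=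
  integral_nonneg fun n => torSq_nonneg hD n _ (le_max_right _ _)

theorem E1_K_eq {s : ℝ} (hs : 0 ≤ s) : E1_K D s = ∫ n : S2, D.torSq s n * D.dA s n ∂sm := by
  unfold E1_K
  rw [max_eq_left hs]

theorem E1_T_eq (hD : D.Admissible) {s : ℝ} (hs : 0 ≤ s) :
    ∫ n : S2, D.θ s n * D.dA s n ∂sm = E1_T D s := by
  unfold E1_T
  refine integral_congr_ae (Eventually.of_forall fun n => ?_)
  simp only
  rw [dA_eq hD n s hs]

theorem E1_bound (hD : D.Admissible) {s : ℝ} (hs : 0 ≤ s) :
    E1_T D s ≤ 8 * Real.pi * s - 2 * ∫ t in (0 : ℝ)..s, E1_K D t := by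
  have hK := E1_K_cont hD
  have hder : ∀ t, 0 < t → HasDerivAt (fun t => E1_T D t - 8 * Real.pi * t + 2 * ∫ r in (0 : ℝ)..t, E1_K D r)
      (- ∫ n : S2, D.ρ t n * D.dA t n ∂sm) t := by
    intro t ht
    have h1 := hD.null.expansion t ht
    have h2 : HasDerivAt (E1_T D) (8 * Real.pi - 2 * (∫ n : S2, D.torSq t n * D.dA t n ∂sm) -
        ∫ n : S2, D.ρ t n * D.dA t n ∂sm) t := by
      refine h1.congr_of_eventuallyEq ?_
      filter_upwards [lt_mem_nhds ht] with r hr
      exact (E1_T_eq hD hr.le).symm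
    have h3 : HasDerivAt (fun t => ∫ r in (0 : ℝ)..t, E1_K D r) (E1_K D t) t :=
      intervalIntegral.integral_hasDerivAt_right (hK.intervalIntegrable _ _)
        hK.aestronglyMeasurable.stronglyMeasurableAtFilter hK.continuousAt
    have h4 := (h2.sub ((hasDerivAt_id t).const_mul (8 * Real.pi))).add (h3.const_mul 2)
    rw [E1_K_eq ht.le] at h4
    refine h4.congr_deriv ?_
    ring
  have hanti : AntitoneOn (fun t => E1_T D t - 8 * Real.pi * t + 2 * ∫ r in (0 : ℝ)..t, E1_K D r)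
      (Set.Ici 0) := by
    refine antitoneOn_of_deriv_nonpos (convex_Ici 0) ?_ ?_ ?_
    · refine Continuous.continuousOn ?_
      exact ((E1_T_cont hD.null).sub (continuous_const.mul continuous_id)).add
        (continuous_const.mul (intervalIntegral.continuous_primitive (fun a b => hK.intervalIntegrable a b) 0))
    · intro t ht
      rw [interior_Ici] at ht
      exact (hder t ht).differentiableAt.differentiableWithinAt
    · intro t ht
      rw [interior_Ici] at ht
      rw [(hder t ht).deriv]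
      have : 0 ≤ ∫ n : S2, D.ρ t n * D.dA t n ∂sm := by
        refine integral_nonneg fun n => ?_
        have h1 := hD.null.dec t (le_of_lt ht) n
        have h2 : 0 ≤ D.dA t n := Real.sqrt_nonneg _
        exact mul_nonneg h1 h2
      linarith
  have h1 := hanti (Set.mem_Ici.mpr le_rfl) (Set.mem_Ici.mpr hs) hs
  simp only [mul_zero, sub_zero, intervalIntegral.integral_same, add_zero] at h1
  have h2 : E1_T D 0 ≤ 0 := by
    rw [← E1_T_eq hD le_rfl]
    refine integral_nonpos fun n => ?_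
    have h3 := hD.trapped n
    have h4 : 0 ≤ D.dA 0 n := Real.sqrt_nonneg _
    exact mul_nonpos_of_nonpos_of_nonneg h3 h4
  linarith

theorem energy_ge (hD : D.Admissible) {E : ℝ} (hE : D.BondiEnergy E) {S : ℝ} (hS : 0 ≤ S) :
    (∫ n : S2, D.tt n ∂sm) + 2 * ∫ s in (0 : ℝ)..S, (∫ n : S2, D.torSq s n * D.dA s n ∂sm) ≤ 16 * Real.pi * E := by
  have hK := E1_K_cont hD
  have e1 : ∫ s in (0 : ℝ)..S, (∫ n : S2, D.torSq s n * D.dA s n ∂sm) = ∫ s in (0 : ℝ)..S, E1_K D s := by
    refine intervalIntegral.integral_congr fun s hs => ?_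
    rw [Set.uIcc_of_le hS] at hs
    exact (E1_K_eq hs.1).symm
  rw [e1]
  have hpi : (0 : ℝ) < 16 * Real.pi := by positivity
  have t1 := (hE.const_mul (16 * Real.pi))
  have t2 := (area_asym hD).add_const (2 * ∫ s in (0 : ℝ)..S, E1_K D s)
  refine le_of_tendsto_of_tendsto t2 t1 ?_
  filter_upwards [eventually_ge_atTop S] with s hs
  have hs0 : 0 ≤ s := hS.trans hs
  rw [E1_T_eq hD hs0, mul_div_cancel₀ _ hpi.ne']
  have h1 := E1_bound hD hs0
  have h2 : ∫ t in (0 : ℝ)..S, E1_K D t ≤ ∫ t in (0 : ℝ)..s, E1_K D t := by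
    rw [← intervalIntegral.integral_add_adjacent_intervals (hK.intervalIntegrable 0 S)
      (hK.intervalIntegrable S s)]
    have h3 : 0 ≤ ∫ t in S..s, E1_K D t :=
      intervalIntegral.integral_nonneg hs fun t _ => E1_K_nonneg hD t
    linarith
  linarith

end NullData
end NullPen
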