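import Pool.Agent.Lib.H17P.PERa

set_option autoImplicit false

/-!
Chunk PER, part 3: the operator `KQ`.
-/

open Filter Topology Set MeasureTheory

namespace NShell

open Pool.Agent.Lib.PenroseSph (E3 S2 sm)

namespace Fr
variable (A : Fr)

/-- `K f = sum_n c_n J_n f`. -/
noncomputable def KQ (f : S2 → ℝ) (a : S2) : ℝ := ∑' n, cq n * A.JJ n f a

/-- The terms of the series. -/
theorem term_boundq (f : S2 → ℝ) (hf : Continuous f) : ∃ M : ℝ, 0 ≤ M ∧
    ∀ (n : ℕ) (a : S2), ‖cq n * A.JJ n f a‖ ≤ M * (1 / ((n : ℝ) + 1) ^ 2) := by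
  obtain ⟨M, hM0, hM⟩ := exists_bound f hf
  obtain ⟨C, hC0, hC⟩ := cq_bound
  refine ⟨C * M * (4 * Real.pi), by have := Real.pi_pos; positivity, fun n a => ?_⟩
  have h1 := A.JJ_bound n f hf hM a
  have h2 := hC n
  have h3 := cq_pos n
  have hpi := Real.pi_pos
  rw [Real.norm_eq_abs, abs_mul, abs_of_pos h3]
  calc cq n * |A.JJ n f a| ≤ (C / (n + 1)) * (M * (4 * Real.pi / (n + 1))) := by gcongr
    _ = C * M * (4 * Real.pi) * (1 / ((n : ℝ) + 1) ^ 2) := by
        field_simp

theorem KQ_summable (f : S2 → ℝ) (hf : Continuous f) (a : S2) :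
    Summable fun n : ℕ => cq n * A.JJ n f a := by
  obtain ⟨M, hM0, hM⟩ := A.term_boundq f hf
  exact Summable.of_norm_bounded (summable_sq.mul_left M) fun n => hM n a

theorem KQ_cont (f : S2 → ℝ) (hf : Continuous f) : Continuous (A.KQ f) := by
  obtain ⟨M, hM0, hM⟩ := A.term_boundq f hf
  exact continuous_tsum (fun n => continuous_const.mul (A.JJ_cont n f hf))
    (summable_sq.mul_left M) hM

theorem KQ_unif (f : S2 → ℝ) (hf : Continuous f) (ε : ℝ) (hε : 0 < ε) :
    ∃ N0 : ℕ, ∀ N : ℕ, N0 ≤ N → ∀ a, |∑ n ∈ Finset.range (N + 1), cq n * A.JJ n f a - A.KQ f a| ≤ ε := by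
  obtain ⟨M, hM0, hM⟩ := A.term_boundq f hf
  have h := tendstoUniformly_tsum_nat (summable_sq.mul_left M) hM
  rw [Metric.tendstoUniformly_iff] at h
  obtain ⟨N0, hN0⟩ := eventually_atTop.1 (h ε hε)
  refine ⟨N0, fun N hN a => ?_⟩
  have h1 := hN0 (N + 1) (by omega) a
  rw [dist_comm, Real.dist_eq] at h1
  exact h1.le

theorem KQ_add (f g : S2 → ℝ) (hf : Continuous f) (hg : Continuous g) (a : S2) :
    A.KQ (fun b => f b + g b) a = A.KQ f a + A.KQ g a := by
  unfold KQ
  rw [← (A.KQ_summable f hf a).tsum_add (A.KQ_summable g hg a)]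
  apply tsum_congr
  intro n
  rw [A.JJ_add n f g hf hg a, mul_add]

theorem KQ_smul (c : ℝ) (f : S2 → ℝ) (a : S2) : A.KQ (fun b => c * f b) a = c * A.KQ f a := by
  unfold KQ
  rw [← tsum_mul_left]
  apply tsum_congr
  intro n
  rw [A.JJ_smul]
  ring

theorem KQ_lower (f : S2 → ℝ) (hf : Continuous f) (h0 : ∀ b, 0 ≤ f b) (a : S2) : ∫ b, f b ∂A.m ≤ A.KQ f a := by
  have h := (A.KQ_summable f hf a).le_tsum 0 fun n _ =>
    mul_nonneg (cq_pos n).le (A.JJ_nonneg n f h0 a)
  have e : cq 0 * A.JJ 0 f a = ∫ b, f b ∂A.m := by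
    show 1 * A.JJ 0 f a = _
    unfold JJ
    simp
  rw [e] at h
  exact h

theorem KQ_upper (s : S2 → ℝ) (hs : Continuous s) (hs0 : ∀ b, 0 ≤ s b) : ∃ C : ℝ, 0 < C ∧
    ∀ f : S2 → ℝ, Continuous f → (∀ b, 0 ≤ f b) → ∀ a, A.KQ (fun b => s b * A.KQ f b) a ≤ C * ∫ b, f b ∂A.m := by
  obtain ⟨S, hS0, hS⟩ := exists_bound s hs
  have hS' : ∀ b, s b ≤ S := fun b => (le_abs_self _).trans (hS b)
  obtain ⟨C, hC⟩ := cq_double
  have hpi := Real.pi_pos
  have hC0 : 0 ≤ C := by
    have := hC 0
    simpa using this
  refine ⟨4 * Real.pi * (S * C + 1), by positivity, fun f hf hf0 a => ?_⟩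
  have hI0 : 0 ≤ ∫ b, f b ∂A.m := integral_nonneg hf0
  have hKc : Continuous (A.KQ f) := A.KQ_cont f hf
  have hK0 : ∀ b, 0 ≤ A.KQ f b := fun b => hI0.trans (A.KQ_lower f hf hf0 b)
  have hgoal : A.KQ (fun b => s b * A.KQ f b) a ≤ 4 * Real.pi * S * C * ∫ b, f b ∂A.m := by
    change (∑' n, cq n * A.JJ n (fun b => s b * A.KQ f b) a) ≤ _
    apply Real.tsum_le_of_sum_range_le
    · intro n
      exact mul_nonneg (cq_pos n).le (A.JJ_nonneg n _ (fun b => mul_nonneg (hs0 b) (hK0 b)) a)
    intro N
    -- approximation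
    have key : ∀ ε : ℝ, 0 < ε → ∑ n ∈ Finset.range N, cq n * A.JJ n (fun b => s b * A.KQ f b) a
        ≤ 4 * Real.pi * S * C * (∫ b, f b ∂A.m) + ε * ∑ n ∈ Finset.range N, cq n * A.JJ n s a := by
      intro ε hε
      obtain ⟨N0, hN0⟩ := A.KQ_unif f hf ε hε
      set M := max N0 N with hM
      have h1 : ∀ b, A.KQ f b ≤ (∑ m ∈ Finset.range (M + 1), cq m * A.JJ m f b) + ε := by
        intro b
        have h := hN0 M (le_max_left _ _) b
        rw [abs_le] at h
        linarith
      have h2 : ∀ n, A.JJ n (fun b => s b * A.KQ f b) a ≤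
          (∑ m ∈ Finset.range (M + 1), cq m * A.JJ n (fun b => s b * A.JJ m f b) a)
            + ε * A.JJ n s a := by
        intro n
        have h3 : A.JJ n (fun b => s b * A.KQ f b) a ≤
            A.JJ n (fun b => (∑ m ∈ Finset.range (M + 1), cq m * (s b * A.JJ m f b)) + ε * s b) a := by
          apply A.JJ_mono
          · exact hs.mul hKc
          · apply Continuous.add
            · apply continuous_finsetSum
              intro m _
              exact continuous_const.mul (hs.mul (A.JJ_cont m f hf))
            · exact continuous_const.mul hs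
          · intro b
            have h4 := mul_le_mul_of_nonneg_left (h1 b) (hs0 b)
            calc s b * A.KQ f b ≤ s b * ((∑ m ∈ Finset.range (M + 1), cq m * A.JJ m f b) + ε) := h4
              _ = (∑ m ∈ Finset.range (M + 1), cq m * (s b * A.JJ m f b)) + ε * s b := by
                  rw [mul_add, Finset.mul_sum]
                  congr 1
                  · apply Finset.sum_congr rfl
                    intro m _
                    ring
                  · ring
        refine h3.trans (le_of_eq ?_)
        rw [A.JJ_add n _ _ ?_ ?_ a, A.JJ_sum n _ _ ?_ a, A.JJ_smul]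
        · congr 1
          apply Finset.sum_congr rfl
          intro m _
          rw [A.JJ_smul]
        · intro m
          exact continuous_const.mul (hs.mul (A.JJ_cont m f hf))
        · apply continuous_finsetSum
          intro m _
          exact continuous_const.mul (hs.mul (A.JJ_cont m f hf))
        · exact continuous_const.mul hs
      calc ∑ n ∈ Finset.range N, cq n * A.JJ n (fun b => s b * A.KQ f b) a
          ≤ ∑ n ∈ Finset.range N, cq n *
            ((∑ m ∈ Finset.range (M + 1), cq m * A.JJ n (fun b => s b * A.JJ m f b) a)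
            + ε * A.JJ n s a) := by
            apply Finset.sum_le_sum
            intro n _
            exact mul_le_mul_of_nonneg_left (h2 n) (cq_pos n).le
        _ = (∑ n ∈ Finset.range N, ∑ m ∈ Finset.range (M + 1),
              cq n * cq m * A.JJ n (fun b => s b * A.JJ m f b) a)
            + ε * ∑ n ∈ Finset.range N, cq n * A.JJ n s a := by
            rw [Finset.mul_sum, ← Finset.sum_add_distrib]
            apply Finset.sum_congr rfl
            intro n _
            rw [mul_add, Finset.mul_sum]
            congr 1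
            · apply Finset.sum_congr rfl
              intro m _
              ring
            · ring
        _ ≤ (∑ n ∈ Finset.range (M + 1), ∑ m ∈ Finset.range (M + 1),
              cq n * cq m * A.JJ n (fun b => s b * A.JJ m f b) a)
            + ε * ∑ n ∈ Finset.range N, cq n * A.JJ n s a := by
            have hsub : Finset.range N ⊆ Finset.range (M + 1) := by
              apply Finset.range_subset_range.2
              have := le_max_right N0 N
              omega
            have h5 := Finset.sum_le_sum_of_subset_of_nonneg hsub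
              (f := fun n => ∑ m ∈ Finset.range (M + 1),
                cq n * cq m * A.JJ n (fun b => s b * A.JJ m f b) a)
              (fun n _ _ => Finset.sum_nonneg fun m _ =>
                mul_nonneg (mul_nonneg (cq_pos n).le (cq_pos m).le)
                  (A.JJ_nonneg n _ (fun b => mul_nonneg (hs0 b) (A.JJ_nonneg m f hf0 b)) a))
            linarith
        _ ≤ (∑ n ∈ Finset.range (M + 1), ∑ m ∈ Finset.range (M + 1),
              (4 * Real.pi * S * ∫ b, f b ∂A.m) * (cq n * cq m / ((max n m : ℕ) + 1)))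
            + ε * ∑ n ∈ Finset.range N, cq n * A.JJ n s a := by
            have h6 : ∀ n ∈ Finset.range (M + 1), ∀ m ∈ Finset.range (M + 1),
                cq n * cq m * A.JJ n (fun b => s b * A.JJ m f b) a ≤
                (4 * Real.pi * S * ∫ b, f b ∂A.m) * (cq n * cq m / ((max n m : ℕ) + 1)) := by
              intro n _ m _
              have h7 := A.JJ_JJ s hs hS' hS0 f hf hf0 n m a
              have h8 := mul_le_mul_of_nonneg_left h7 (mul_nonneg (cq_pos n).le (cq_pos m).le)
              calc cq n * cq m * A.JJ n (fun b => s b * A.JJ m f b) a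
                  ≤ cq n * cq m * (S * (4 * Real.pi / ((max n m : ℕ) + 1)) * ∫ b, f b ∂A.m) := h8
                _ = (4 * Real.pi * S * ∫ b, f b ∂A.m) * (cq n * cq m / ((max n m : ℕ) + 1)) := by
                    ring
            have h9 := Finset.sum_le_sum fun n hn => Finset.sum_le_sum fun m hm => h6 n hn m hm
            linarith
        _ ≤ 4 * Real.pi * S * C * (∫ b, f b ∂A.m) + ε * ∑ n ∈ Finset.range N, cq n * A.JJ n s a := by
            have h10 := hC (M + 1)
            have h11 : 0 ≤ 4 * Real.pi * S * ∫ b, f b ∂A.m := by positivity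
            have h12 := mul_le_mul_of_nonneg_left h10 h11
            rw [Finset.mul_sum] at h12
            simp only [Finset.mul_sum] at h12
            simp only [Finset.mul_sum]
            linarith
    -- let `ε` tend to `0`
    set W := ∑ n ∈ Finset.range N, cq n * A.JJ n s a with hW
    have hW0 : 0 ≤ W := Finset.sum_nonneg fun n _ =>
      mul_nonneg (cq_pos n).le (A.JJ_nonneg n s hs0 a)
    apply le_of_forall_pos_le_add
    intro δ hδ
    have h := key (δ / (W + 1)) (by positivity)
    have h13 : δ / (W + 1) * W ≤ δ := by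
      rw [div_mul_eq_mul_div, div_le_iff₀ (by positivity)]
      nlinarith
    linarith
  have h14 : 4 * Real.pi * S * C * ∫ b, f b ∂A.m ≤ 4 * Real.pi * (S * C + 1) * ∫ b, f b ∂A.m := by
    have : 0 ≤ 4 * Real.pi * ∫ b, f b ∂A.m := by positivity
    nlinarith
  exact hgoal.trans h14

end Fr
end NShell
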