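import Pool.Agent.Lib.H17P.TR
import Pool.Agent.Lib.H17P.PER

set_option autoImplicit false

/-!
Assembly.
-/

open MeasureTheory Filter Topology
open scoped ContDiff

namespace NullPen
namespace NullData
variable {D : NullData}

theorem penrose (hD : D.Admissible) {E : ℝ} (hE : D.BondiEnergy E) : Real.sqrt (D.area 0 / (16 * Real.pi)) ≤ E := by
  have hπ := Real.pi_pos
  have h := NShell.stdFr.toSM.final2 (bet hD) (bet_symm hD) (bet_x hD)
    (fun p => by
      change 0 < (∑ i, bet hD i i).1 p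
      rw [bet_tr]
      exact tt_pos hD p) (16 * Real.pi * E) (test hD hE)
    (NShell.perron1 NShell.stdFr _ (fun n => by rw [bet_tr]; exact tt_pos hD n))
  have h1 : NShell.stdFr.toSM.I ((1 / 2 : ℝ) • ((∑ i, bet hD i i) ^ 2 - ∑ i, ∑ j, bet hD i j ^ 2)) = D.area 0 := by
    rw [area_eq hD 0 le_rfl]
    simp only [ne_eq, OfNat.ofNat_ne_zero, not_false_eq_true, zero_pow, mul_zero, zero_mul, zero_add]
    change ∫ n, ((1 / 2 : ℝ) • ((∑ i, bet hD i i) ^ 2 - ∑ i, ∑ j, bet hD i j ^ 2)).1 n ∂_ = _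
    exact integral_congr_ae (Eventually.of_forall fun n => bet_dt hD n)
  rw [h1] at h
  have h2 : Real.sqrt (16 * Real.pi * D.area 0) = 16 * Real.pi * Real.sqrt (D.area 0 / (16 * Real.pi)) := by
    have e : 16 * Real.pi * D.area 0 = (16 * Real.pi) ^ 2 * (D.area 0 / (16 * Real.pi)) := by
      field_simp
    rw [e, Real.sqrt_mul (by positivity), Real.sqrt_sq (by positivity)]
  rw [h2] at h
  exact le_of_mul_le_mul_left h (by positivity)

theorem area_pos (hD : D.Admissible) : 0 < D.area 0 := by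
  have hc : Continuous fun n : S2 => D.dd n := (dd_smooth hD.null).continuous.comp continuous_subtype_val
  have hne : Nonempty S2 := by
    have h : (Metric.sphere (0 : E3) 1).Nonempty := NormedSpace.sphere_nonempty.2 zero_le_one
    exact h.to_subtype
  obtain ⟨m, hm⟩ := hc.exists_forall_le_of_hasCompactSupport (HasCompactSupport.of_compactSpace _)
  have h0 : 0 < D.dd m := dd_pos hD m
  have h1 : D.area 0 = ∫ n : S2, D.dd n ∂sm := by
    rw [area_eq hD 0 le_rfl]
    simp
  have hf : IsFiniteMeasure sm := by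
    change IsFiniteMeasure ((volume : Measure E3).toSphere)
    infer_instance
  have h2 : ∫ n : S2, D.dd m ∂sm ≤ ∫ n : S2, D.dd n ∂sm := by
    refine integral_mono (integrable_const _) ?_ hm
    exact hc.integrable_of_hasCompactSupport (HasCompactSupport.of_compactSpace _)
  have h3 : ∫ n : S2, D.dd m ∂sm = 4 * Real.pi * D.dd m := by
    rw [integral_const, smul_eq_mul]
    congr 1
    exact Pool.Agent.Lib.PenroseSph.sm_univ
  rw [h1]
  have := Real.pi_pos
  have h4 : 0 < 4 * Real.pi * D.dd m := by positivity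
  linarith

end NullData

theorem main : (∀ D : NullData, D.Admissible → ∀ E, D.BondiEnergy E → Real.sqrt (D.area 0 / (16 * Real.pi)) ≤ E) ∧
    ∀ (A E : ℝ) (P : Fin 3 → ℝ), (∀ (u : Fin 3 → ℝ) (γ : ℝ), 0 < γ → γ ^ 2 = 1 + ∑ i, u i ^ 2 →
      ∃ D : NullData, D.Admissible ∧ D.area 0 = A ∧ D.BondiEnergy (γ * E - ∑ i, u i * P i)) →
    Real.sqrt (∑ i, P i ^ 2) < E ∧ Real.sqrt (A / (16 * Real.pi)) ≤ Real.sqrt (E ^ 2 - ∑ i, P i ^ 2) := by
  refine ⟨fun D hD E hE => NullData.penrose hD hE, fun A E P h => ?_⟩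
  have hπ := Real.pi_pos
  obtain ⟨D, hD, hA, _⟩ := h (fun _ => 0) 1 one_pos (by simp)
  have hA0 : 0 < A := hA ▸ NullData.area_pos hD
  refine NShell.mass_of_all E _ P (Real.sqrt_pos.2 (by positivity)) fun u γ hγ hu => ?_
  obtain ⟨D', hD', hA', hE'⟩ := h u γ hγ hu
  rw [← hA']
  exact NullData.penrose hD' hE'

end NullPen
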