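import Pool.Agent.Lib.NullShell.Key

set_option autoImplicit false

/-!
Chunk K1. The abstract inequality. Model: `NullShell/Key.lean` (`ev_Q`, `key`, `rr_psi`, `final_abs`), with `fB X` replaced by a symmetric array
`β` with `β x = 0` and `rr g` by `rf f = 1 - lap f - |grad f|^2 = rr f - (1/2) gam f f`; `ZZ f` is the same.
`idf`: `I (rf^2 - (1/2) |ZZ|^2) = 4 pi + (3/4) I (gam^2)`. From `SA.id_c` (`I (rr^2 - (1/2) |ZZ|^2) = I (1 + gam (1 - lap))`, see `NullShell/A3.lean`) and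
`rf^2 = rr^2 - rr gam + gam^2/4`, `rr = 1 - lap - gam/2`.
`rf_psi`: if `ψ L_i f = L_i ψ` then `ψ rf = ψ - lap ψ` (model `rr_psi`).
`final2`: for `κ > 0` and every `f`, with `t = tr β`, `dB = (t^2 - |β|^2)/2`, the square completed as in `ev_Q` (only `Σ β_ij pr_ij = t`, `Z_tr`, `pr_pr` are used):
`F^2 >= 2 κ F - κ^2 >= 2 κ I (t rf + <β,ZZ>) - κ^2 >= 16 pi I(dB) - 4 pi I ((t - κ/(4 pi) rf)^2) + κ^2/(4 pi) (3/4) I (gam^2)`, drop the last term, take `κ = 4 pi/μ` and the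
approximate Perron function: `|rf - μ t| <= ε`. `F >= 0` : take `f = 0` in `h` (`ZZ 0 = 0`).
-/

namespace NShell

namespace SA
variable {R : Type*} [CommRing R] [Algebra ℝ R] (S : SA R)

/-- `1 - lap f - |grad f|^2`. -/
def rf (f : R) : R := 1 - S.lap f - S.gam f f

end SA

namespace SM

variable {R : Type*} [CommRing R] [Algebra ℝ R] {K : Type*} (S : SM R K)

/-- Approximate positive solutions of `psi - lap psi = mu s psi`. -/
def Perron1 (s : R) : Prop := ∃ μ : ℝ, 0 < μ ∧ ∀ ε : ℝ, 0 < ε → ∃ ψ f : R, (∀ p, 0 < S.ev p ψ) ∧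
  (∀ i, ψ * S.L i f = S.L i ψ) ∧
  ∀ p, |S.ev p (ψ - S.toSA.lap ψ - μ • (s * ψ))| ≤ ε * S.ev p ψ

theorem idf (f : R) : S.I (S.toSA.rf f ^ 2 - (1 / 2 : ℝ) • ∑ i, ∑ j, S.toSA.ZZ f i j ^ 2) =
    4 * Real.pi + 3 / 4 * S.I (S.toSA.gam f f ^ 2) := by
  have hc := S.toSA.id_c S.I S.I0 f
  have e : S.toSA.rf f ^ 2 - (1 / 2 : ℝ) • ∑ i, ∑ j, S.toSA.ZZ f i j ^ 2 =
      (S.toSA.rr f ^ 2 - (1 / 2 : ℝ) • ∑ i, ∑ j, S.toSA.ZZ f i j ^ 2) -
        S.toSA.gam f f * (1 - S.toSA.lap f) + (3 / 4 : ℝ) • S.toSA.gam f f ^ 2 := by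
    have h1 := SA.half_two (R := R)
    have h2 : algebraMap ℝ R (3 / 4) = 3 * algebraMap ℝ R (1 / 2) ^ 2 := by
      have h3 : (3 : R) = algebraMap ℝ R 3 := (map_ofNat (algebraMap ℝ R) 3).symm
      rw [h3, ← map_pow, ← map_mul]
      norm_num
    unfold SA.rf SA.rr
    simp only [Algebra.smul_def, h2]
    generalize algebraMap ℝ R (1 / 2) = c at h1 ⊢
    generalize S.toSA.lap f = D
    generalize S.toSA.gam f f = G
    generalize ∑ i, ∑ j, S.toSA.ZZ f i j ^ 2 = Z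
    linear_combination ((1 - D) * G - (2 * c + 1) * G ^ 2) * h1
  rw [e, map_add, map_sub, hc, S.I1, S.I_smul]
  ring

theorem rf_psi (ψ f : R) (h : ∀ i, ψ * S.L i f = S.L i ψ) (p : K) :
    S.ev p ψ * S.ev p (S.toSA.rf f) = S.ev p (ψ - S.toSA.lap ψ) := by
  have h1 : ∀ i, ψ * S.L i (S.L i f) + S.L i f * S.L i ψ = S.L i (S.L i ψ) := by
    intro i
    have h2 := congrArg (S.L i) (h i)
    rwa [Derivation.leibniz, smul_eq_mul, smul_eq_mul] at h2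
  have h3 : ∀ i, S.ev p ψ * S.ev p (S.L i (S.L i f)) + S.ev p ψ * S.ev p (S.L i f) ^ 2 =
      S.ev p (S.L i (S.L i ψ)) := by
    intro i
    have a1 := congrArg (S.ev p) (h1 i)
    have a2 := congrArg (S.ev p) (h i)
    simp only [map_add, map_mul] at a1 a2
    linear_combination a1 + (S.ev p (S.L i f)) * a2
  unfold SA.rf
  simp only [SA.gam, SA.lap, map_sub, map_add, map_mul, map_one, Fin.sum_univ_three]
  have b0 := h3 0
  have b1 := h3 1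
  have b2 := h3 2
  linear_combination -b0 - b1 - b2

private theorem evQ (β : Fin 3 → Fin 3 → R) (hs : ∀ i j, β i j = β j i) (hx : ∀ i, ∑ j, β i j * S.x j = 0)
    (c : ℝ) (g : R) (p : K) :
    0 ≤ S.ev p (∑ i, ∑ j, β i j ^ 2 - (1 / 2 : ℝ) • (∑ i, β i i) ^ 2 +
      (2 * c) • (∑ i, ∑ j, β i j * S.toSA.ZZ g i j) +
      (c ^ 2) • ∑ i, ∑ j, S.toSA.ZZ g i j ^ 2) := by
  have hBp : ∑ i, ∑ j, β i j * S.toSA.pr i j = ∑ i, β i i := S.toSA.pr_tr β hs hx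
  have hZp := S.toSA.Z_tr g
  have hpp := S.toSA.pr_pr
  have hBp' := congrArg (S.ev p) hBp
  have hZp' := congrArg (S.ev p) hZp
  have hpp' := congrArg (S.ev p) hpp
  simp only [map_sum, map_mul, map_zero, map_ofNat] at hBp' hZp' hpp'
  set B : Fin 3 → Fin 3 → ℝ := fun i j => S.ev p (β i j) with hBdef
  set Z : Fin 3 → Fin 3 → ℝ := fun i j => S.ev p (S.toSA.ZZ g i j) with hZdef
  set P : Fin 3 → Fin 3 → ℝ := fun i j => S.ev p (S.toSA.pr i j) with hPdef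
  set s := ∑ i, S.ev p (β i i) with hs'
  have hQ : 0 ≤ ∑ i, ∑ j, (B i j - s / 2 * P i j + c * Z i j) ^ 2 :=
    Finset.sum_nonneg fun i _ => Finset.sum_nonneg fun j _ => sq_nonneg _
  have e1 : ∑ i, ∑ j, (B i j - s / 2 * P i j + c * Z i j) ^ 2 =
      (∑ i, ∑ j, B i j ^ 2) + (s / 2) ^ 2 * (∑ i, ∑ j, P i j * P i j) + c ^ 2 * (∑ i, ∑ j, Z i j ^ 2)
      - s * (∑ i, ∑ j, B i j * P i j) + 2 * c * (∑ i, ∑ j, B i j * Z i j)
      - s * c * (∑ i, ∑ j, Z i j * P i j) := by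
    generalize s = s'
    simp only [Fin.sum_univ_three]
    ring
  have hBp2 : ∑ i, ∑ j, B i j * P i j = s := hBp'
  have hZp2 : ∑ i, ∑ j, Z i j * P i j = 0 := hZp'
  have hpp2 : ∑ i, ∑ j, P i j * P i j = 2 := hpp'
  rw [e1, hBp2, hZp2, hpp2] at hQ
  simp only [map_add, map_sub, S.ev_smul, map_sum, map_mul, map_pow]
  have hBZ : ∑ i, ∑ j, S.ev p (β i j) * S.ev p (S.toSA.ZZ g i j) =
      ∑ i, ∑ j, B i j * Z i j := rfl
  have hBB : ∑ i, ∑ j, S.ev p (β i j) ^ 2 = ∑ i, ∑ j, B i j ^ 2 := rfl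
  have hZZ : ∑ i, ∑ j, S.ev p (S.toSA.ZZ g i j) ^ 2 = ∑ i, ∑ j, Z i j ^ 2 := rfl
  rw [hBZ, hBB, hZZ, ← hs']
  linarith

private theorem key2 (β : Fin 3 → Fin 3 → R) (hs : ∀ i j, β i j = β j i) (hx : ∀ i, ∑ j, β i j * S.x j = 0)
    (F : ℝ) (h : ∀ f : R, S.I ((∑ i, β i i) * S.toSA.rf f + ∑ i, ∑ j, β i j * S.toSA.ZZ f i j) ≤ F)
    (κ : ℝ) (hκ : 0 < κ) (f : R) :
    16 * Real.pi * S.I ((1 / 2 : ℝ) • ((∑ i, β i i) ^ 2 - ∑ i, ∑ j, β i j ^ 2))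
      - 4 * Real.pi * S.I (((∑ i, β i i) - (κ / (4 * Real.pi)) • S.toSA.rf f) ^ 2)
    ≤ F ^ 2 := by
  have hπ := Real.pi_pos
  have hY := h f
  rw [map_add] at hY
  have hQ := S.Ipos _ (S.evQ β hs hx (κ / (8 * Real.pi)) f)
  rw [map_add, map_add, map_sub, S.I_smul, S.I_smul, S.I_smul] at hQ
  have hc := S.idf f
  rw [map_sub, S.I_smul] at hc
  have hG : 0 ≤ S.I (S.toSA.gam f f ^ 2) := S.Ipos _ fun p => by
    rw [map_pow]
    exact sq_nonneg _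
  have hsq : S.I (((∑ i, β i i) - (κ / (4 * Real.pi)) • S.toSA.rf f) ^ 2) =
      S.I ((∑ i, β i i) ^ 2) - 2 * (κ / (4 * Real.pi)) * S.I ((∑ i, β i i) * S.toSA.rf f) +
      (κ / (4 * Real.pi)) ^ 2 * S.I (S.toSA.rf f ^ 2) := by
    rw [← S.I_smul, ← S.I_smul, ← map_sub, ← map_add]
    congr 1
    simp only [Algebra.smul_def, map_mul, map_pow, map_ofNat]
    ring
  rw [hsq, S.I_smul, map_sub]
  set Isr := S.I ((∑ i, β i i) * S.toSA.rf f)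
  set IBZ := S.I (∑ i, ∑ j, β i j * S.toSA.ZZ f i j)
  set IZ := S.I (∑ i, ∑ j, S.toSA.ZZ f i j ^ 2)
  set Iss := S.I ((∑ i, β i i) ^ 2)
  set IB := S.I (∑ i, ∑ j, β i j ^ 2)
  set Irr := S.I (S.toSA.rf f ^ 2)
  set IG := S.I (S.toSA.gam f f ^ 2)
  have h1 : 2 * κ * (Isr + IBZ) - κ ^ 2 ≤ F ^ 2 := by
    nlinarith [sq_nonneg (F - κ)]
  have h2 : 0 ≤ 8 * Real.pi * IB - 4 * Real.pi * Iss + 2 * κ * IBZ + κ ^ 2 / (8 * Real.pi) * IZ := by
    have h3 := mul_le_mul_of_nonneg_left hQ (show 0 ≤ 8 * Real.pi by positivity)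
    rw [mul_zero] at h3
    refine h3.trans (le_of_eq ?_)
    field_simp
    ring
  have h4 : IZ = 2 * Irr - 8 * Real.pi - 3 / 2 * IG := by linarith
  have h5 : κ ^ 2 / (8 * Real.pi) * IZ =
      κ ^ 2 / (4 * Real.pi) * Irr - κ ^ 2 - 3 * κ ^ 2 / (16 * Real.pi) * IG := by
    rw [h4]
    field_simp
    ring
  have h6 : 4 * Real.pi * (Iss - 2 * (κ / (4 * Real.pi)) * Isr + (κ / (4 * Real.pi)) ^ 2 * Irr) =
      4 * Real.pi * Iss - 2 * κ * Isr + κ ^ 2 / (4 * Real.pi) * Irr := by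
    field_simp
  have h7 : 0 ≤ 3 * κ ^ 2 / (16 * Real.pi) * IG := by positivity
  rw [h6]
  rw [h5] at h2
  linarith

theorem final2 (β : Fin 3 → Fin 3 → R) (hs : ∀ i j, β i j = β j i) (hx : ∀ i, ∑ j, β i j * S.x j = 0)
    (ht : ∀ p, 0 < S.ev p (∑ i, β i i)) (F : ℝ)
    (h : ∀ f : R, S.I ((∑ i, β i i) * S.toSA.rf f + ∑ i, ∑ j, β i j * S.toSA.ZZ f i j) ≤ F)
    (hP : S.Perron1 (∑ i, β i i)) :
    Real.sqrt (16 * Real.pi * S.I ((1 / 2 : ℝ) • ((∑ i, β i i) ^ 2 - ∑ i, ∑ j, β i j ^ 2))) ≤ F := by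
  have hπ := Real.pi_pos
  have hF : 0 ≤ F := by
    have h0 := h 0
    have e1 : S.toSA.rf (0 : R) = 1 := by
      unfold SA.rf
      simp [SA.gam, SA.lap]
    have e2 : ∀ i j, S.toSA.ZZ (0 : R) i j = 0 := by
      intro i j
      unfold SA.ZZ
      simp [SA.gam, SA.lap, SA.hes, cr]
    simp only [e1, e2, mul_one, mul_zero, Finset.sum_const_zero, add_zero] at h0
    exact (S.Ipos _ fun p => (ht p).le).trans h0
  obtain ⟨μ, hμ, hψ⟩ := hP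
  have hmain : ∀ ε : ℝ, 0 < ε → 16 * Real.pi * S.I ((1 / 2 : ℝ) • ((∑ i, β i i) ^ 2 - ∑ i, ∑ j, β i j ^ 2)) ≤
      F ^ 2 + 16 * Real.pi ^ 2 / μ ^ 2 * ε ^ 2 := by
    intro ε hε
    obtain ⟨ψ, g, hpos, hlog, happ⟩ := hψ ε hε
    have hk := S.key2 β hs hx F h (4 * Real.pi / μ) (by positivity) g
    have herr : ∀ p, |S.ev p (S.toSA.rf g) - μ * S.ev p (∑ i, β i i)| ≤ ε := by
      intro p
      have h1 := happ p
      have h2 := S.rf_psi ψ g hlog p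
      rw [map_sub, ← h2, S.ev_smul, map_mul] at h1
      have h3 : S.ev p ψ * S.ev p (S.toSA.rf g) - μ * (S.ev p (∑ i, β i i) * S.ev p ψ) =
          S.ev p ψ * (S.ev p (S.toSA.rf g) - μ * S.ev p (∑ i, β i i)) := by ring
      rw [h3, abs_mul, abs_of_pos (hpos p), mul_comm ε] at h1
      exact le_of_mul_le_mul_left h1 (hpos p)
    have hB : S.I (((∑ i, β i i) - (4 * Real.pi / μ / (4 * Real.pi)) • S.toSA.rf g) ^ 2) ≤
        ε ^ 2 / μ ^ 2 * (4 * Real.pi) := by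
      rw [← S.I_const]
      apply S.I_mono
      intro p
      have h3 : (S.ev p (S.toSA.rf g) - μ * S.ev p (∑ i, β i i)) ^ 2 ≤ ε ^ 2 := by
        rw [← sq_abs (S.ev p (S.toSA.rf g) - μ * S.ev p (∑ i, β i i))]
        exact pow_le_pow_left₀ (abs_nonneg _) (herr p) 2
      rw [S.ev_smul, map_one, map_pow, map_sub, S.ev_smul, mul_one, le_div_iff₀ (by positivity)]
      refine le_trans (le_of_eq ?_) h3
      field_simp
      ring
    have h2 := mul_le_mul_of_nonneg_left hB (show 0 ≤ 4 * Real.pi by positivity)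
    have h3 : 16 * Real.pi ^ 2 / μ ^ 2 * ε ^ 2 = 4 * Real.pi * (ε ^ 2 / μ ^ 2 * (4 * Real.pi)) := by
      field_simp
      ring
    rw [h3]
    linarith
  have hfin : 16 * Real.pi * S.I ((1 / 2 : ℝ) • ((∑ i, β i i) ^ 2 - ∑ i, ∑ j, β i j ^ 2)) ≤ F ^ 2 := by
    apply le_of_forall_pos_le_add
    intro δ hδ
    have hc : 0 < 16 * Real.pi ^ 2 / μ ^ 2 := by positivity
    have h1 := hmain (Real.sqrt (δ / (16 * Real.pi ^ 2 / μ ^ 2))) (by positivity)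
    rw [Real.sq_sqrt (by positivity), mul_div_cancel₀ _ hc.ne'] at h1
    exact h1
  exact Real.sqrt_le_iff.mpr ⟨hF, hfin⟩

end SM
end NShell
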