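import Pool.Agent.Lib.H17P.Stmt

set_option autoImplicit false

/-!
Arrays of size 3 x 3 which kill a unit vector; definitions for the proof.
-/

open MeasureTheory Filter Topology
open scoped ContDiff

namespace NullPen

/-- Product of arrays. -/
def mm (a b : Fin 3 → Fin 3 → ℝ) (i j : Fin 3) : ℝ := ∑ k, a i k * b k j

/-- Trace. -/
def tr (a : Fin 3 → Fin 3 → ℝ) : ℝ := ∑ i, a i i

/-- Squared norm. -/
def sq (a : Fin 3 → Fin 3 → ℝ) : ℝ := ∑ i, ∑ j, a i j ^ 2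

/-- Projection on the orthogonal complement of `n`. -/
def pr (n : Fin 3 → ℝ) (i j : Fin 3) : ℝ := (if i = j then 1 else 0) - n i * n j

/-- Symmetric arrays which kill `n`. -/
structure Tan (n : Fin 3 → ℝ) (a : Fin 3 → Fin 3 → ℝ) : Prop where
  symm : ∀ i j, a i j = a j i
  ker : ∀ i, ∑ j, a i j * n j = 0

/-- `b + s P`. -/
def sh (n : Fin 3 → ℝ) (b : Fin 3 → Fin 3 → ℝ) (s : ℝ) (i j : Fin 3) : ℝ := b i j + s * pr n i j

/-- Determinant on the orthogonal complement. -/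
noncomputable def dt (a : Fin 3 → Fin 3 → ℝ) : ℝ := (tr a ^ 2 - sq a) / 2

/-- A null geometry along one generator (metric, inverse metric). -/
structure Gen (n : Fin 3 → ℝ) (g gi : ℝ → Fin 3 → Fin 3 → ℝ) : Prop where
  unit : ∑ i, n i ^ 2 = 1
  smooth : ∀ i j, ContDiff ℝ ∞ (fun s => g s i j)
  tan : ∀ s, 0 ≤ s → Tan n (g s)
  pos : ∀ s, 0 ≤ s → ∀ v : Fin 3 → ℝ, v ≠ 0 → ∑ i, n i * v i = 0 → 0 < ∑ i, ∑ j, g s i j * v i * v j
  tani : ∀ s, 0 ≤ s → Tan n (gi s)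
  inv : ∀ s, 0 ≤ s → mm (g s) (gi s) = pr n

/-- Half of the derivative. -/
noncomputable def ch (g : ℝ → Fin 3 → Fin 3 → ℝ) (s : ℝ) (i j : Fin 3) : ℝ := deriv (fun t => g t i j) s / 2

namespace NullData
variable (D : NullData)

/-- `B = chi` at `s = 0`. -/
noncomputable def bb (n : E3) (i j : Fin 3) : ℝ := D.chi 0 n i j

/-- Trace of `B`. -/
noncomputable def tt (n : E3) : ℝ := tr (D.bb n)

/-- Determinant of `B` on the tangent plane. -/
noncomputable def dd (n : E3) : ℝ := dt (D.bb n)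

/-- `c = ζ dA` at `s = 0`. -/
noncomputable def cc (n : E3) (i : Fin 3) : ℝ := D.ζ 0 n i * D.dd n

/-- `T = ζ dA` at `s = 0` minus `ζ dA` at `s = 1`. -/
noncomputable def TT (n : E3) (i : Fin 3) : ℝ := D.ζ 0 n i * D.dd n - D.ζ 1 n i * (D.dd n + D.tt n + 1)

end NullData

end NullPen
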