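import Pool.Agent.Lib.H17P.B1
import Pool.Agent.Lib.NullShell.STD
import Pool.Agent.Lib.NullShell.PW

set_option autoImplicit false

/-!
Chunk M1. The momentum density is linear in `B`. At a point `n` of the sphere, with `E = b + s P`, `g = E^2`, `chi = E`:
`gi chi gi - exL gi` has `dA (gi chi gi - exL gi) = - E^{-1}` on the tangent plane (Cayley-Hamilton for `E^{-1}`; equivalently use that
`M := dA (gi chi gi - exL gi)` is symmetric, kills `n` and satisfies `E M = - P`), and
`(1/2) <M, lie> = - (1/2) <E^{-1}, D_V (E^2) + 2 E^2 D V> = - (V(tr E) + <E, D V>)`. Here `V` is tangent at `n`, so the derivative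
`sum_k V_k pd k (g s)` only depends on `g s` on the sphere, where it is `E^2` (`fderiv` of two smooth functions which agree on the sphere agree
in tangent directions: `NShell.fderiv_rot_congr` in `NullShell/Smooth.lean`, `V = sum_i <V, r_i> r_i` with the rotation fields `r_i`), `tr (P D_V E) = V (tr E)`
because `E n = 0` on the sphere, and `tr E = tt + 2 s`.
-/

open MeasureTheory Filter Topology
open scoped ContDiff

namespace NullPen

theorem m1_pd {f : E3 → ℝ} {x : E3} (hf : DifferentiableAt ℝ f x) (k : Fin 3) :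
    pd k f x = fderiv ℝ f x (EuclideanSpace.single k 1) := by
  unfold pd
  have h1 : HasDerivAt (fun t : ℝ => x + t • EuclideanSpace.single k (1 : ℝ)) (EuclideanSpace.single k (1 : ℝ)) 0 := by
    have h := ((hasDerivAt_id (0 : ℝ)).smul_const (EuclideanSpace.single k (1 : ℝ) : E3)).const_add x
    simpa using h
  have h2 : HasFDerivAt f (fderiv ℝ f x) (x + (0 : ℝ) • EuclideanSpace.single k (1 : ℝ)) := by
    simpa using hf.hasFDerivAt
  exact (h2.comp_hasDerivAt (0 : ℝ) h1).deriv

theorem m1_tan0 {f : E3 → ℝ} {n : S2} (hf : DifferentiableAt ℝ f n) (h : ∀ m : S2, f m = 0)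
    {V : Fin 3 → ℝ} (hV : ∑ i, (n : E3) i * V i = 0) : ∑ k, V k * pd k f n = 0 := by
  have hu : ∑ i, (n : E3) i ^ 2 = 1 := NullData.unit_n n
  have h1 : ∀ i, fderiv ℝ f n (NShell.rotv i n) = 0 := by
    intro i
    have h2 := NShell.fderiv_rot_congr (F := f) (G := fun _ => 0) (n := n) (fun m => h m) hf
      (differentiableAt_const _) i
    rw [h2]
    simp
  have h3 : ∀ i : Fin 3, (n : E3) (i + 1) * pd (i + 2) f n - (n : E3) (i + 2) * pd (i + 1) f n = 0 := by
    intro i
    rw [← h1 i, m1_pd hf, m1_pd hf]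
    unfold NShell.rotv
    rw [map_sub, map_smul, map_smul, smul_eq_mul, smul_eq_mul]
  have c0 := h3 0
  have c1 := h3 1
  have c2 := h3 2
  have e1 : (1 : Fin 3) + 1 = 2 := rfl
  have e2 : (1 : Fin 3) + 2 = 0 := rfl
  have e3 : (2 : Fin 3) + 1 = 0 := rfl
  have e4 : (2 : Fin 3) + 2 = 1 := rfl
  rw [zero_add, zero_add] at c0
  rw [e1, e2] at c1
  rw [e3, e4] at c2
  simp only [Fin.sum_univ_three] at hu hV ⊢
  generalize (n : E3) 0 = a at *
  generalize (n : E3) 1 = b at *
  generalize (n : E3) 2 = c at *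
  generalize pd 0 f n = x at *
  generalize pd 1 f n = y at *
  generalize pd 2 f n = z at *
  linear_combination (-(V 0 * x + V 1 * y + V 2 * z)) * hu + (a * x + b * y + c * z) * hV +
    (V 1 * a - V 0 * b) * c2 + (V 2 * b - V 1 * c) * c0 + (V 0 * c - V 2 * a) * c1

theorem m1_add {f g : E3 → ℝ} {x : E3} (hf : DifferentiableAt ℝ f x) (hg : DifferentiableAt ℝ g x) (k : Fin 3) :
    pd k (fun y => f y + g y) x = pd k f x + pd k g x := by
  rw [m1_pd hf, m1_pd hg, m1_pd (hf.fun_add hg), fderiv_fun_add hf hg]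
  rfl

theorem m1_sub {f g : E3 → ℝ} {x : E3} (hf : DifferentiableAt ℝ f x) (hg : DifferentiableAt ℝ g x) (k : Fin 3) :
    pd k (fun y => f y - g y) x = pd k f x - pd k g x := by
  rw [m1_pd hf, m1_pd hg, m1_pd (hf.fun_sub hg), fderiv_fun_sub hf hg]
  rfl

theorem m1_mul {f g : E3 → ℝ} {x : E3} (hf : DifferentiableAt ℝ f x) (hg : DifferentiableAt ℝ g x) (k : Fin 3) :
    pd k (fun y => f y * g y) x = f x * pd k g x + g x * pd k f x := by
  rw [m1_pd hf, m1_pd hg, m1_pd (hf.fun_mul hg), fderiv_fun_mul hf hg]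
  rfl

theorem m1_sum {ι : Type} (u : Finset ι) {f : ι → E3 → ℝ} {x : E3} (hf : ∀ i ∈ u, DifferentiableAt ℝ (f i) x) (k : Fin 3) :
    pd k (fun y => ∑ i ∈ u, f i y) x = ∑ i ∈ u, pd k (f i) x := by
  have h1 : DifferentiableAt ℝ (fun y => ∑ i ∈ u, f i y) x := DifferentiableAt.fun_sum hf
  rw [m1_pd h1, fderiv_fun_sum hf]
  rw [ContinuousLinearMap.sum_apply]
  exact Finset.sum_congr rfl fun i hi => (m1_pd (hf i hi) k).symm

theorem m1_tan {f g : E3 → ℝ} {n : S2} (hf : DifferentiableAt ℝ f n) (hg : DifferentiableAt ℝ g n)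
    (h : ∀ m : S2, f m = g m) {V : Fin 3 → ℝ} (hV : ∑ i, (n : E3) i * V i = 0) :
    ∑ k, V k * pd k f n = ∑ k, V k * pd k g n := by
  have h1 := m1_tan0 (f := fun y => f y - g y) (hf.fun_sub hg) (fun m => by rw [h m, sub_self]) hV
  rw [← sub_eq_zero, ← Finset.sum_sub_distrib, ← h1]
  refine Finset.sum_congr rfl fun k _ => ?_
  rw [m1_sub hf hg]
  ring

section alg

abbrev m1_M := Matrix (Fin 3) (Fin 3) ℝ

theorem m1_alg {E H N : m1_M} {d t : ℝ} (hd : d ≠ 0) (hN : N * N = N) (hEN : E * N = 0) (hNE : N * E = 0)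
    (hNH : N * H = 0) (hG : E * E * H = 1 - N) (hC : E * E = t • E - d • (1 - N))
    (hE : E.trace = t) (hP : (1 - N).trace = 2) :
    ∃ F : m1_M, E * F = 1 - N ∧ F * E = 1 - N ∧ F = d⁻¹ • (t • (1 - N) - E) ∧
      d • (H * E * H - (H * E).trace • H) = - F := by
  set P : m1_M := 1 - N with hPd
  have hEP : E * P = E := by rw [hPd, Matrix.mul_sub, Matrix.mul_one, hEN, sub_zero]
  have hPE : P * E = E := by rw [hPd, Matrix.sub_mul, Matrix.one_mul, hNE, sub_zero]
  have hPP : P * P = P := by
    rw [hPd, Matrix.mul_sub, Matrix.mul_one, Matrix.sub_mul, Matrix.one_mul, hN]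
    abel
  have hPH : P * H = H := by rw [hPd, Matrix.sub_mul, Matrix.one_mul, hNH, sub_zero]
  set F : m1_M := d⁻¹ • (t • P - E) with hF
  have hEF : E * F = P := by
    rw [hF, Matrix.mul_smul, Matrix.mul_sub, Matrix.mul_smul, hEP, hC, sub_sub_cancel, smul_smul,
      inv_mul_cancel₀ hd, one_smul]
  have hFE : F * E = P := by
    rw [hF, Matrix.smul_mul, Matrix.sub_mul, Matrix.smul_mul, hPE, hC, sub_sub_cancel, smul_smul,
      inv_mul_cancel₀ hd, one_smul]
  have hPF : P * F = F := by
    rw [hF, Matrix.mul_smul, Matrix.mul_sub, Matrix.mul_smul, hPP, hPE]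
  have hFP : F * P = F := by
    rw [hF, Matrix.smul_mul, Matrix.sub_mul, Matrix.smul_mul, hPP, hEP]
  have hHF : H = F * F := by
    calc H = P * H := hPH.symm
      _ = F * E * H := by rw [hFE]
      _ = F * (P * E) * H := by rw [hPE]
      _ = F * (F * E * E) * H := by rw [hFE]
      _ = F * F * (E * E * H) := by simp only [Matrix.mul_assoc]
      _ = F * (F * P) := by rw [hG, Matrix.mul_assoc]
      _ = F * F := by rw [hFP]
  have hHEH : H * E * H = F * F * F := by
    calc H * E * H = F * (F * E) * F * F := by rw [hHF]; simp only [Matrix.mul_assoc]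
      _ = F * (P * F) * F := by rw [hFE]; simp only [Matrix.mul_assoc]
      _ = F * F * F := by rw [hPF]
  have hHE : H * E = F := by
    rw [hHF, Matrix.mul_assoc, hFE, hFP]
  have htrF : F.trace = d⁻¹ * t := by
    rw [hF, Matrix.trace_smul, Matrix.trace_sub, Matrix.trace_smul, hE, hP, smul_eq_mul, smul_eq_mul]
    ring
  have hFF : F * F = d⁻¹ • (t • F - P) := by
    conv_lhs => rw [hF]
    rw [Matrix.smul_mul, Matrix.sub_mul, Matrix.smul_mul, hPF, hEF]
  have hFFF : F * F * F = d⁻¹ • (t • (F * F) - F) := by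
    conv_lhs => rw [hFF]
    rw [Matrix.smul_mul, Matrix.sub_mul, Matrix.smul_mul, hPF]
  refine ⟨F, hEF, hFE, rfl, ?_⟩
  rw [hHEH, hHE, htrF, hHF, hFFF]
  simp only [smul_sub, smul_smul]
  rw [← mul_assoc, mul_inv_cancel₀ hd, one_mul, one_smul]
  abel

/-- The contraction. -/
theorem m1_con {E F N A E' : m1_M} (hEF : E * F = 1 - N) (hFE : F * E = 1 - N)
    (hEN : E * N = 0) (hNE : N * E = 0)
    (hF : ∀ i j, F i j = F j i) (hEs : ∀ i j, E i j = E j i) :
    ∑ i, ∑ j, F i j * ((E' * E + E * E') i j + (A * (E * E)) i j + (A * (E * E)) j i) =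
      2 * (E'.trace - (N * E').trace + ∑ i, ∑ j, E i j * A i j) := by
  have hFt : F.transpose = F := by
    ext i j
    exact hF j i
  have hEt : E.transpose = E := by
    ext i j
    exact hEs j i
  have hsum : ∀ X Y : m1_M, ∑ i, ∑ j, X i j * Y i j = (X.transpose * Y).trace := by
    intro X Y
    rw [Matrix.trace]
    simp only [Matrix.diag_apply, Matrix.mul_apply, Matrix.transpose_apply]
    rw [Finset.sum_comm]
  have e1 : ∑ i, ∑ j, F i j * ((E' * E + E * E') i j + (A * (E * E)) i j + (A * (E * E)) j i) =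
      (F * (E' * E + E * E')).trace + 2 * (F * (A * (E * E))).trace := by
    have h1 : ∑ i, ∑ j, F i j * (A * (E * E)) j i = ∑ i, ∑ j, F i j * (A * (E * E)) i j := by
      rw [Finset.sum_comm]
      exact Finset.sum_congr rfl fun i _ => Finset.sum_congr rfl fun j _ => by rw [hF j i]
    have h2 : ∀ Y : m1_M, (F * Y).trace = ∑ i, ∑ j, F i j * Y i j := by
      intro Y
      rw [hsum, hFt]
    rw [h2, h2]
    calc ∑ i, ∑ j, F i j * ((E' * E + E * E') i j + (A * (E * E)) i j + (A * (E * E)) j i)
        = ∑ i, ∑ j, F i j * (E' * E + E * E') i j + ∑ i, ∑ j, F i j * (A * (E * E)) i j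
          + ∑ i, ∑ j, F i j * (A * (E * E)) j i := by
          simp only [← Finset.sum_add_distrib, mul_add]
      _ = _ := by rw [h1]; ring
  have e2 : (F * (E' * E + E * E')).trace = 2 * (E'.trace - (N * E').trace) := by
    have a1 : (F * (E' * E)).trace = ((1 - N) * E').trace := by
      rw [← Matrix.mul_assoc, Matrix.trace_mul_comm (F * E') E, ← Matrix.mul_assoc, hEF]
    have a2 : (F * (E * E')).trace = ((1 - N) * E').trace := by
      rw [← Matrix.mul_assoc, hFE]
    rw [Matrix.mul_add, Matrix.trace_add, a1, a2, Matrix.sub_mul, Matrix.one_mul, Matrix.trace_sub]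
    ring
  have e3 : (F * (A * (E * E))).trace = ∑ i, ∑ j, E i j * A i j := by
    rw [hsum, hEt, Matrix.trace_mul_comm F, Matrix.mul_assoc, Matrix.mul_assoc, hEF, Matrix.mul_sub, Matrix.mul_one,
      hEN, sub_zero, Matrix.trace_mul_comm]
  rw [e1, e2, e3]
  ring

end alg

namespace NullData
variable {D : NullData}

theorem m1_dg (hD : D.IsNull) (s : ℝ) (i j : Fin 3) : ContDiff ℝ ∞ (fun y : E3 => D.g s y i j) :=
  (hD.smooth_g i j).comp (contDiff_const.prodMk contDiff_id)

theorem m1_coord (i : Fin 3) : ContDiff ℝ ∞ (fun y : E3 => y i) := (EuclideanSpace.proj i : E3 →L[ℝ] ℝ).contDiff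

theorem m1_pdcoord (i k : Fin 3) (x : E3) : pd k (fun y : E3 => y i) x = if i = k then 1 else 0 := by
  rw [m1_pd ((m1_coord i).differentiable (by simp) x)]
  have h : fderiv ℝ (fun y : E3 => y i) x = (EuclideanSpace.proj i : E3 →L[ℝ] ℝ) :=
    (EuclideanSpace.proj i : E3 →L[ℝ] ℝ).fderiv
  rw [h]
  simp

theorem mom_eq (hD : D.Admissible) {V : E3 → Fin 3 → ℝ} (hV : ∀ i, ContDiff ℝ ∞ (fun y => V y i))
    (hVt : ∀ n : S2, ∑ i, (n : E3) i * V n i = 0) (s : ℝ) (hs : 0 ≤ s) (n : S2) :
    D.mom s V n * D.dA s n =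
      - ((∑ k, V n k * pd k D.tt n) + (∑ i, ∑ j, D.bb n i j * pd i (fun y => V y j) n)
        + s * ∑ i, ∑ j, proj n i j * pd i (fun y => V y j) n) := by
  have hu : ∑ i, (n : E3) i ^ 2 = 1 := unit_n n
  -- the extension of `E`
  set Ey : E3 → Fin 3 → Fin 3 → ℝ := fun y => sh (fun i => y i) (D.bb y) s with hEy
  have hEs : ∀ i j, ContDiff ℝ ∞ (fun y => Ey y i j) := by
    intro i j
    exact (bb_smooth hD.null i j).add (contDiff_const.mul
      ((contDiff_const (c := if i = j then (1 : ℝ) else 0)).sub ((m1_coord i).mul (m1_coord j))))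
  have hEd : ∀ i j, DifferentiableAt ℝ (fun y => Ey y i j) n := fun i j => (hEs i j).differentiable (by simp) _
  have hcd : ∀ i, DifferentiableAt ℝ (fun y : E3 => y i) n := fun i => (m1_coord i).differentiable (by simp) _
  have hTan : ∀ m : S2, Tan (fun i => (m : E3) i) (Ey m) := fun m => sh_tan (unit_n m) (bb_tan hD m) s
  -- matrices at `n`
  set E : m1_M := Matrix.of (Ey n) with hE
  set H : m1_M := Matrix.of (D.gi s n) with hH
  set N : m1_M := Matrix.of (fun i j => (n : E3) i * (n : E3) j) with hN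
  set E' : m1_M := Matrix.of (fun i j => ∑ k, V n k * pd k (fun y => Ey y i j) n) with hE'
  set A : m1_M := Matrix.of (fun i j => pd i (fun y => V y j) n) with hA
  have hun : ∑ i, (n : E3) i * (n : E3) i = 1 := by
    rw [← hu]
    exact Finset.sum_congr rfl fun i _ => (pow_two _).symm
  have hP1 : ∀ i j, (1 - N) i j = proj n i j := by
    intro i j
    simp [hN, proj, Matrix.one_apply]
  have hNN : N * N = N := by
    ext i j
    rw [Matrix.mul_apply]
    simp only [hN, Matrix.of_apply]
    calc ∑ k, (n : E3) i * (n : E3) k * ((n : E3) k * (n : E3) j) =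
          (n : E3) i * (n : E3) j * ∑ k, (n : E3) k * (n : E3) k := by
          rw [Finset.mul_sum]
          exact Finset.sum_congr rfl fun k _ => by ring
      _ = (n : E3) i * (n : E3) j := by rw [hun, mul_one]
  have hker : ∀ a : Fin 3 → Fin 3 → ℝ, Tan (fun i => (n : E3) i) a → (Matrix.of a : m1_M) * N = 0 := by
    intro a ha
    ext i j
    rw [Matrix.mul_apply]
    simp only [hN, Matrix.of_apply, Matrix.zero_apply]
    calc ∑ k, a i k * ((n : E3) k * (n : E3) j) = (∑ k, a i k * (n : E3) k) * (n : E3) j := by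
          rw [Finset.sum_mul]
          exact Finset.sum_congr rfl fun k _ => by ring
      _ = 0 := by rw [ha.ker i, zero_mul]
  have hker' : ∀ a : Fin 3 → Fin 3 → ℝ, Tan (fun i => (n : E3) i) a → N * (Matrix.of a : m1_M) = 0 := by
    intro a ha
    ext i j
    rw [Matrix.mul_apply]
    simp only [hN, Matrix.of_apply, Matrix.zero_apply]
    calc ∑ k, (n : E3) i * (n : E3) k * a k j = (n : E3) i * (∑ k, a j k * (n : E3) k) := by
          rw [Finset.mul_sum]
          exact Finset.sum_congr rfl fun k _ => by rw [ha.symm k j]; ring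
      _ = 0 := by rw [ha.ker j, mul_zero]
  have hEN : E * N = 0 := hker _ (hTan n)
  have hNE : N * E = 0 := hker' _ (hTan n)
  have hNH : N * H = 0 := hker' _ ⟨hD.null.gi_symm s hs n, hD.null.gi_tan s hs n⟩
  have hg : ∀ m : S2, ∀ i j, D.g s m i j = ∑ k, Ey m i k * Ey m k j := by
    intro m i j
    rw [g_eq hD m s hs]
    rfl
  have hG : E * E * H = 1 - N := by
    ext i j
    rw [hP1, ← hD.null.gi_inv s hs n i j, Matrix.mul_apply]
    refine Finset.sum_congr rfl fun k _ => ?_
    rw [hg n i k, Matrix.mul_apply]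
    rfl
  set d := D.dA s n with hd
  have hdt : dt (Ey n) = d := by
    rw [hd, dA_eq hD n s hs]
    exact sh_dt hu (bb_tan hD n) s
  have hdp : d ≠ 0 := by
    have h1 := tt_pos hD n
    have h2 := dd_pos hD n
    rw [hd, dA_eq hD n s hs]
    positivity
  have hC : E * E = (tr (Ey n)) • E - d • (1 - N) := by
    ext i j
    have h1 := NShell.cayley (Ey n) (fun i => (n : E3) i) (tr (Ey n)) (dt (Ey n)) hu (hTan n).symm (hTan n).ker
      rfl rfl i j
    rw [Matrix.sub_apply, Matrix.smul_apply, Matrix.smul_apply, hP1, Matrix.mul_apply, smul_eq_mul, smul_eq_mul]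
    rw [hdt] at h1
    simp only [proj, hE, Matrix.of_apply]
    linear_combination h1
  have htr : E.trace = tr (Ey n) := rfl
  have hPt : (1 - N).trace = 2 := by
    rw [Matrix.trace_sub, Matrix.trace_one]
    have h1 : N.trace = 1 := hun
    rw [h1]
    norm_num
  obtain ⟨F, hEF, hFE, hFd, hM⟩ := m1_alg hdp hNN hEN hNE hNH hG hC htr hPt
  have hFs : ∀ i j, F i j = F j i := by
    intro i j
    rw [hFd, Matrix.smul_apply, Matrix.smul_apply, Matrix.sub_apply, Matrix.sub_apply, Matrix.smul_apply,
      Matrix.smul_apply, hP1, hP1]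
    have h1 : E i j = E j i := (hTan n).symm i j
    have h2 : proj n i j = proj n j i := by
      unfold proj
      by_cases hij : i = j
      · rw [hij]
      · have hji : ¬ j = i := fun h => hij h.symm
        simp only [hij, hji, if_false]
        ring
    rw [h1, h2]
  -- the derivative of the metric
  have hDg : ∀ i j, ∑ k, V n k * pd k (fun y => D.g s y i j) n = (E' * E + E * E') i j := by
    intro i j
    have h1 : ∑ k, V n k * pd k (fun y => D.g s y i j) n =
        ∑ k, V n k * pd k (fun y => ∑ l, Ey y i l * Ey y l j) n := by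
      refine m1_tan ((m1_dg hD.null s i j).differentiable (by simp) _) ?_ (fun m => hg m i j) (hVt n)
      exact DifferentiableAt.fun_sum fun l _ => (hEd i l).fun_mul (hEd l j)
    have h2 : ∀ k, pd k (fun y => ∑ l, Ey y i l * Ey y l j) n =
        ∑ l, (Ey n i l * pd k (fun y => Ey y l j) n + Ey n l j * pd k (fun y => Ey y i l) n) := by
      intro k
      rw [m1_sum Finset.univ (f := fun l y => Ey y i l * Ey y l j) (fun l _ => (hEd i l).fun_mul (hEd l j))]
      exact Finset.sum_congr rfl fun l _ => m1_mul (hEd i l) (hEd l j) k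
    rw [h1, Matrix.add_apply, Matrix.mul_apply, Matrix.mul_apply]
    simp only [h2, hE', hE, Matrix.of_apply]
    simp only [Fin.sum_univ_three]
    ring
  have hlie : ∀ i j, D.lie s V n i j = (E' * E + E * E') i j + (A * (E * E)) i j + (A * (E * E)) j i := by
    intro i j
    have hEE : ∀ i j, (E * E) i j = D.g s n i j := by
      intro i j
      rw [hg n i j, Matrix.mul_apply]
      rfl
    rw [← hDg i j, Matrix.mul_apply, Matrix.mul_apply]
    simp only [hEE]
    unfold lie
    rw [← Finset.sum_add_distrib, ← Finset.sum_add_distrib]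
    refine Finset.sum_congr rfl fun k _ => ?_
    rw [hD.null.g_symm s hs n i k]
    simp only [hA, Matrix.of_apply]
    ring
  -- trace of `E'`
  have htE : E'.trace = ∑ k, V n k * pd k D.tt n := by
    have hbd : ∀ i, DifferentiableAt ℝ (fun y => D.bb y i i) n := fun i =>
      (bb_smooth hD.null i i).differentiable (by simp) _
    have h1 : ∀ i k, pd k (fun y => Ey y i i) n = pd k (fun y => D.bb y i i) n -
        2 * s * (n : E3) i * (if i = k then 1 else 0) := by
      intro i k
      have hq : DifferentiableAt ℝ (fun y : E3 => s * (1 - y i * y i)) n :=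
        (differentiableAt_const _).fun_mul ((differentiableAt_const _).fun_sub ((hcd i).fun_mul (hcd i)))
      have e1 : (fun y => Ey y i i) = fun y => D.bb y i i + s * (1 - y i * y i) := by
        funext y
        simp [hEy, sh, pr]
      have e2 : pd k (fun y : E3 => s * (1 - y i * y i)) n = s * (0 - ((n : E3) i * (if i = k then 1 else 0) +
          (n : E3) i * (if i = k then 1 else 0))) + (1 - (n : E3) i * (n : E3) i) * 0 := by
        have hc : ∀ c : ℝ, pd k (fun _ : E3 => c) n = 0 := by
          intro c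
          simp [pd]
        rw [m1_mul (differentiableAt_const _) ((differentiableAt_const _).fun_sub ((hcd i).fun_mul (hcd i))),
          m1_sub (differentiableAt_const _) ((hcd i).fun_mul (hcd i)), m1_mul (hcd i) (hcd i), hc, hc, m1_pdcoord]
      rw [e1, m1_add (hbd i) hq, e2]
      ring
    have h2 : ∀ k, pd k D.tt n = ∑ i, pd k (fun y => D.bb y i i) n := fun k =>
      m1_sum Finset.univ (f := fun i y => D.bb y i i) (fun i _ => hbd i) k
    have h3 := hVt n
    have e0 : E'.trace = ∑ i, ∑ k, V n k * pd k (fun y => Ey y i i) n := rfl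
    rw [e0]
    simp only [h1, h2]
    simp only [Fin.sum_univ_three] at h3 ⊢
    simp
    linear_combination (-2 * s) * h3
  have hnE : (N * E').trace = 0 := by
    -- `E y y = 0` on the sphere
    have h1 : ∀ i, ∑ k, V n k * pd k (fun y => ∑ j, Ey y i j * y j) n = 0 := by
      intro i
      exact m1_tan0 (DifferentiableAt.fun_sum fun j _ => (hEd i j).fun_mul (hcd j)) (fun m => (hTan m).ker i) (hVt n)
    have h2 : ∀ i k, pd k (fun y => ∑ j, Ey y i j * y j) n =
        ∑ j, (Ey n i j * (if j = k then 1 else 0) + (n : E3) j * pd k (fun y => Ey y i j) n) := by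
      intro i k
      rw [m1_sum Finset.univ (f := fun j y => Ey y i j * y j) (fun j _ => (hEd i j).fun_mul (hcd j))]
      refine Finset.sum_congr rfl fun j _ => ?_
      rw [m1_mul (hEd i j) (hcd j), m1_pdcoord]
    have h3 : ∀ j, ∑ i, (n : E3) i * Ey n i j = 0 := by
      intro j
      rw [← (hTan n).ker j]
      exact Finset.sum_congr rfl fun i _ => by rw [(hTan n).symm i j]; ring
    have e0 : (N * E').trace = ∑ i, ∑ j, (n : E3) i * (n : E3) j * ∑ k, V n k * pd k (fun y => Ey y j i) n := by
      rw [Matrix.trace]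
      refine Finset.sum_congr rfl fun i _ => ?_
      rw [Matrix.diag_apply, Matrix.mul_apply]
      rfl
    simp only [h2] at h1
    have a0 := h1 0
    have a1 := h1 1
    have a2 := h1 2
    have b0 := h3 0
    have b1 := h3 1
    have b2 := h3 2
    rw [e0]
    simp only [Fin.sum_univ_three] at a0 a1 a2 b0 b1 b2 ⊢
    simp only [Fin.isValue, if_true, zero_ne_one, one_ne_zero, Fin.reduceEq, if_false, mul_one, mul_zero] at a0 a1 a2
    linear_combination (n : E3) 0 * a0 + (n : E3) 1 * a1 + (n : E3) 2 * a2 - V n 0 * b0 - V n 1 * b1 - V n 2 * b2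
  have hfin := m1_con (A := A) (E' := E') hEF hFE hEN hNE hFs (hTan n).symm
  rw [htE, hnE] at hfin
  -- the left hand side
  have hMM : ∀ i j, ((∑ k, ∑ l, D.gi s n i k * D.gi s n j l * D.chi s n k l) - D.exL s n * D.gi s n i j) * d =
      - F i j := by
    intro i j
    have h1 := congrFun (congrFun hM i) j
    rw [Matrix.neg_apply, Matrix.smul_apply, Matrix.sub_apply, Matrix.smul_apply, smul_eq_mul, smul_eq_mul] at h1
    rw [← h1]
    have hchi : ∀ k l, D.chi s n k l = E k l := by
      intro k l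
      rw [chi_eq hD n s hs]
      rfl
    have e1 : (H * E * H) i j = ∑ k, ∑ l, D.gi s n i k * D.gi s n j l * D.chi s n k l := by
      rw [Matrix.mul_assoc, Matrix.mul_apply]
      refine Finset.sum_congr rfl fun k _ => ?_
      rw [Matrix.mul_apply, Finset.mul_sum]
      refine Finset.sum_congr rfl fun l _ => ?_
      rw [hchi, hD.null.gi_symm s hs n j l]
      simp only [hH, Matrix.of_apply]
      ring
    have e2 : (H * E).trace = D.exL s n := by
      unfold exL
      rw [Matrix.trace]
      refine Finset.sum_congr rfl fun i _ => ?_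
      rw [Matrix.diag_apply, Matrix.mul_apply]
      refine Finset.sum_congr rfl fun j _ => ?_
      rw [hchi]
      have h4 : E j i = E i j := (hTan n).symm j i
      rw [h4]
      rfl
    rw [e1, e2]
    simp only [hH, Matrix.of_apply]
    ring
  have hL : D.mom s V n * d = - (∑ i, ∑ j, F i j * D.lie s V n i j) / 2 := by
    unfold mom
    rw [div_mul_eq_mul_div, Finset.sum_mul, ← Finset.sum_neg_distrib]
    congr 1
    refine Finset.sum_congr rfl fun i _ => ?_
    rw [Finset.sum_mul, ← Finset.sum_neg_distrib]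
    refine Finset.sum_congr rfl fun j _ => ?_
    rw [← neg_mul, ← hMM i j]
    ring
  rw [hL]
  simp only [hlie]
  rw [hfin]
  have hsplit : ∑ i, ∑ j, E i j * A i j = (∑ i, ∑ j, D.bb n i j * pd i (fun y => V y j) n)
        + s * ∑ i, ∑ j, proj n i j * pd i (fun y => V y j) n := by
    rw [Finset.mul_sum, ← Finset.sum_add_distrib]
    refine Finset.sum_congr rfl fun i _ => ?_
    rw [Finset.mul_sum, ← Finset.sum_add_distrib]
    refine Finset.sum_congr rfl fun j _ => ?_
    simp only [hE, hA, hEy, Matrix.of_apply, sh, pr, proj]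
    ring
  rw [hsplit]
  ring

end NullData
end NullPen
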