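import Pool.Agent.Lib.H17P.K1
import Pool.Agent.Lib.NullShell.Fin

set_option autoImplicit false

/-!
Chunk PER, part 1: the coefficients `cq` of the kernel of the inverse of `1 - lap`.
-/

open Filter Topology

namespace NShell

/-- Coefficients of the kernel of the inverse of `1 - lap` (up to a constant). -/
noncomputable def cq : ℕ → ℝ
  | 0 => 1
  | n + 1 => cq n * (1 + (n : ℝ) * (n + 1)) / (((n : ℝ) + 1) ^ 2)

theorem cq_succ (n : ℕ) :
    cq (n + 1) = cq n * (1 + (n : ℝ) * (n + 1)) / (((n : ℝ) + 1) ^ 2) := rfl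

theorem cq_pos (n : ℕ) : 0 < cq n := by
  induction n with
  | zero => exact one_pos
  | succ n ih =>
    rw [cq_succ]
    positivity

theorem cq_rec (n : ℕ) : ((n : ℝ) + 1) ^ 2 * cq (n + 1) = cq n * (1 + n * (n + 1)) := by
  rw [cq_succ]
  field_simp

theorem cq_step (n : ℕ) : ((n : ℝ) + 2) * cq (n + 2)
    = ((n : ℝ) + 1) * cq (n + 1) * (1 + 1 / (((n : ℝ) + 1) * (n + 2))) := by
  rw [cq_succ (n + 1)]
  push_cast
  field_simp
  ring

theorem cq_le (n : ℕ) : ((n : ℝ) + 1) * cq (n + 1) ≤ Real.exp (1 - 1 / ((n : ℝ) + 1)) := by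
  induction n with
  | zero =>
    rw [cq_succ]
    simp [cq]
  | succ n ih =>
    have h := cq_step n
    have e : (((n + 1 : ℕ) : ℝ) + 1) = (n : ℝ) + 2 := by push_cast; ring
    rw [e, h]
    have h1 : 1 + 1 / (((n : ℝ) + 1) * (n + 2)) ≤ Real.exp (1 / (((n : ℝ) + 1) * (n + 2))) := by
      have := Real.add_one_le_exp (1 / (((n : ℝ) + 1) * (n + 2)))
      linarith
    calc ((n : ℝ) + 1) * cq (n + 1) * (1 + 1 / (((n : ℝ) + 1) * (n + 2)))
        ≤ Real.exp (1 - 1 / ((n : ℝ) + 1)) * Real.exp (1 / (((n : ℝ) + 1) * (n + 2))) := by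
          gcongr
      _ = Real.exp (1 - 1 / ((n : ℝ) + 2)) := by
          rw [← Real.exp_add]
          congr 1
          field_simp
          ring

theorem cq_le3 (n : ℕ) : ((n : ℝ) + 1) * cq (n + 1) ≤ 3 := by
  have h := cq_le n
  have h1 : Real.exp (1 - 1 / ((n : ℝ) + 1)) ≤ Real.exp 1 := by
    apply Real.exp_le_exp.2
    have : 0 ≤ 1 / ((n : ℝ) + 1) := by positivity
    linarith
  have h2 := Real.exp_one_lt_d9
  linarith

theorem cq_le_six (n : ℕ) : cq n ≤ 6 / ((n : ℝ) + 1) := by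
  rcases n with _ | n
  · simp [cq]
  · have h := cq_le3 n
    have h2 := cq_pos (n + 1)
    rw [le_div_iff₀ (by positivity)]
    push_cast
    have hn : (0 : ℝ) ≤ n := Nat.cast_nonneg n
    nlinarith

theorem cq_bound : ∃ C : ℝ, 0 < C ∧ ∀ n : ℕ, cq n ≤ C / (n + 1) := ⟨6, by norm_num, cq_le_six⟩

theorem cq_lim : ∃ lam : ℝ, 0 < lam ∧
    Tendsto (fun N : ℕ => 4 * Real.pi * (N + 1) * cq (N + 1)) atTop (𝓝 lam) := by
  have hmono : Monotone fun N : ℕ => ((N : ℝ) + 1) * cq (N + 1) := by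
    apply monotone_nat_of_le_succ
    intro n
    have h := cq_step n
    have e : (((n + 1 : ℕ) : ℝ) + 1) = (n : ℝ) + 2 := by push_cast; ring
    show ((n : ℝ) + 1) * cq (n + 1) ≤ (((n + 1 : ℕ) : ℝ) + 1) * cq (n + 1 + 1)
    rw [e, h]
    have h1 : 0 ≤ 1 / (((n : ℝ) + 1) * (n + 2)) := by positivity
    have h2 : 0 ≤ ((n : ℝ) + 1) * cq (n + 1) := by
      have := cq_pos (n + 1)
      positivity
    nlinarith
  have hbdd : BddAbove (Set.range fun N : ℕ => ((N : ℝ) + 1) * cq (N + 1)) := by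
    refine ⟨3, ?_⟩
    rintro _ ⟨N, rfl⟩
    exact cq_le3 N
  have hlim := tendsto_atTop_ciSup hmono hbdd
  set L := ⨆ N : ℕ, ((N : ℝ) + 1) * cq (N + 1) with hL
  have h0 : (1 : ℝ) ≤ L := by
    have h := le_ciSup hbdd 0
    have e : ((((0 : ℕ)) : ℝ) + 1) * cq (0 + 1) = 1 := by
      rw [cq_succ]
      simp [cq]
    calc (1 : ℝ) = ((((0 : ℕ)) : ℝ) + 1) * cq (0 + 1) := e.symm
      _ ≤ L := h
  refine ⟨4 * Real.pi * L, ?_, ?_⟩
  · have := Real.pi_pos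
    positivity
  · have h := hlim.const_mul (4 * Real.pi)
    refine h.congr fun N => ?_
    ring

/-- `sum_(n,m) c_n c_m / (max n m + 1)` is finite. -/
theorem cq_double : ∃ C : ℝ, ∀ N : ℕ, ∑ n ∈ Finset.range N, ∑ m ∈ Finset.range N,
    cq n * cq m / ((max n m : ℕ) + 1) ≤ C := by
  have hs : Summable fun n : ℕ => 1 / ((n : ℝ) + 1) ^ (3 / 2 : ℝ) := by
    have h := (summable_nat_add_iff 1).2
      (Real.summable_one_div_nat_rpow.2 (show (1 : ℝ) < 3 / 2 by norm_num))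
    refine h.congr fun n => ?_
    push_cast
    rfl
  have hnn : ∀ n : ℕ, 0 ≤ 1 / ((n : ℝ) + 1) ^ (3 / 2 : ℝ) := fun n => by positivity
  refine ⟨36 * (∑' n : ℕ, 1 / ((n : ℝ) + 1) ^ (3 / 2 : ℝ)) ^ 2, fun N => ?_⟩
  have key : ∀ n m : ℕ, cq n * cq m / ((max n m : ℕ) + 1)
      ≤ 36 * ((1 / ((n : ℝ) + 1) ^ (3 / 2 : ℝ)) * (1 / ((m : ℝ) + 1) ^ (3 / 2 : ℝ))) := by
    intro n m
    have hn : (0 : ℝ) < (n : ℝ) + 1 := by positivity
    have hm : (0 : ℝ) < (m : ℝ) + 1 := by positivity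
    have hr : ∀ x : ℝ, 0 < x → x ^ (3 / 2 : ℝ) = x * Real.sqrt x := by
      intro x hx
      rw [Real.sqrt_eq_rpow, show (3 / 2 : ℝ) = 1 + 1 / 2 by norm_num, Real.rpow_add hx,
        Real.rpow_one]
    rw [hr _ hn, hr _ hm]
    have hmax : Real.sqrt ((n : ℝ) + 1) * Real.sqrt ((m : ℝ) + 1) ≤ ((max n m : ℕ) : ℝ) + 1 := by
      rw [← Real.sqrt_mul hn.le]
      apply Real.sqrt_le_iff.2
      refine ⟨by positivity, ?_⟩
      have h1 : (n : ℝ) ≤ ((max n m : ℕ) : ℝ) := by exact_mod_cast le_max_left n m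
      have h2 : (m : ℝ) ≤ ((max n m : ℕ) : ℝ) := by exact_mod_cast le_max_right n m
      nlinarith
    have h1 := cq_le_six n
    have h2 := cq_le_six m
    have p1 := cq_pos n
    have p2 := cq_pos m
    have s1 : 0 < Real.sqrt ((n : ℝ) + 1) := Real.sqrt_pos.2 hn
    have s2 : 0 < Real.sqrt ((m : ℝ) + 1) := Real.sqrt_pos.2 hm
    calc cq n * cq m / ((max n m : ℕ) + 1)
        ≤ (6 / ((n : ℝ) + 1)) * (6 / ((m : ℝ) + 1)) /
            (Real.sqrt ((n : ℝ) + 1) * Real.sqrt ((m : ℝ) + 1)) := by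
          gcongr
      _ = 36 * ((1 / (((n : ℝ) + 1) * Real.sqrt ((n : ℝ) + 1)))
            * (1 / (((m : ℝ) + 1) * Real.sqrt ((m : ℝ) + 1)))) := by
          field_simp
          ring
  calc ∑ n ∈ Finset.range N, ∑ m ∈ Finset.range N, cq n * cq m / ((max n m : ℕ) + 1)
      ≤ ∑ n ∈ Finset.range N, ∑ m ∈ Finset.range N,
          36 * ((1 / ((n : ℝ) + 1) ^ (3 / 2 : ℝ)) * (1 / ((m : ℝ) + 1) ^ (3 / 2 : ℝ))) :=
        Finset.sum_le_sum fun n _ => Finset.sum_le_sum fun m _ => key n m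
    _ = 36 * ((∑ n ∈ Finset.range N, 1 / ((n : ℝ) + 1) ^ (3 / 2 : ℝ)) *
          (∑ m ∈ Finset.range N, 1 / ((m : ℝ) + 1) ^ (3 / 2 : ℝ))) := by
        rw [Finset.sum_mul_sum, Finset.mul_sum]
        apply Finset.sum_congr rfl
        intro n _
        rw [Finset.mul_sum]
    _ ≤ 36 * (∑' n : ℕ, 1 / ((n : ℝ) + 1) ^ (3 / 2 : ℝ)) ^ 2 := by
        have h1 : ∑ n ∈ Finset.range N, 1 / ((n : ℝ) + 1) ^ (3 / 2 : ℝ)
            ≤ ∑' n : ℕ, 1 / ((n : ℝ) + 1) ^ (3 / 2 : ℝ) := hs.sum_le_tsum _ fun n _ => hnn n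
        have h0 : 0 ≤ ∑ n ∈ Finset.range N, 1 / ((n : ℝ) + 1) ^ (3 / 2 : ℝ) :=
          Finset.sum_nonneg fun n _ => hnn n
        nlinarith

end NShell
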