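import Pool.Agent.Lib.H17P.PERa

set_option autoImplicit false

/-!
Chunk PER, part 2: approximate identity with the coefficients `cq`.
-/

open Filter Topology Set MeasureTheory

namespace NShell

open Pool.Agent.Lib.PenroseSph (E3 S2 sm)

namespace Fr
variable (A : Fr)

theorem approx_idq (lam : ℝ) (hlam : Tendsto (fun N : ℕ => 4 * Real.pi * (N + 1) * cq (N + 1)) atTop (𝓝 lam))
    (f : S2 → ℝ) (hf : Continuous f) (ε : ℝ) (hε : 0 < ε) :
    ∃ N0 : ℕ, ∀ N : ℕ, N0 ≤ N → ∀ a, |((N : ℝ) + 1) ^ 2 * cq (N + 1) * A.JJ N f a - lam * f a| ≤ ε := by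
  obtain ⟨M0, hM0⟩ := (isCompact_univ (X := S2)).exists_bound_of_continuousOn hf.continuousOn
  obtain ⟨M, hMp, hM⟩ : ∃ M : ℝ, 0 ≤ M ∧ ∀ b, |f b| ≤ M :=
    ⟨max M0 0, le_max_right _ _, fun b => (hM0 b (mem_univ b)).trans (le_max_left _ _)⟩
  have hpi := Real.pi_pos
  have hlam0 : 0 ≤ lam := by
    apply ge_of_tendsto hlam
    filter_upwards with N
    have := cq_pos (N + 1)
    positivity
  obtain ⟨C, hC0, hC⟩ := cq_bound
  -- the choice of the constants
  obtain ⟨δ0, hδ0, hunif⟩ := A.uu_unif f hf (ε / (4 * (lam + 1))) (by positivity)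
  set η := ε / (4 * (lam + 1)) with hη
  have hη0 : 0 < η := by positivity
  set δ := min δ0 (1 / 2) with hδ
  have hδp : 0 < δ := lt_min hδ0 (by norm_num)
  have hδh : δ ≤ 1 / 2 := min_le_right _ _
  have hunif' : ∀ a b, 1 - A.uu a b < δ → |f a - f b| < η := fun a b hab =>
    hunif a b (hab.trans_le (min_le_left _ _))
  have hr0 : 0 ≤ 1 - δ := by linarith
  have hr1 : 1 - δ < 1 := by linarith
  -- limits
  have hlim1 : Tendsto (fun N : ℕ => 8 * Real.pi * M * C * (((N : ℝ) + 1) * (1 - δ) ^ N)) atTop (𝓝 0) := by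
    have h1 := tendsto_self_mul_const_pow_of_lt_one hr0 hr1
    have h2 := tendsto_pow_atTop_nhds_zero_of_lt_one hr0 hr1
    have h3 := (h1.add h2).const_mul (8 * Real.pi * M * C)
    rw [add_zero, mul_zero] at h3
    refine h3.congr fun N => ?_
    ring
  have ev1 : ∀ᶠ N : ℕ in atTop, 8 * Real.pi * M * C * (((N : ℝ) + 1) * (1 - δ) ^ N) < ε / 4 :=
    hlim1.eventually_lt_const (by positivity)
  have ev2 : ∀ᶠ N : ℕ in atTop, |4 * Real.pi * (N + 1) * cq (N + 1) - lam| < min 1 (ε / (4 * (M + 1))) := by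
    have h := (Metric.tendsto_nhds.1 hlam) (min 1 (ε / (4 * (M + 1)))) (by positivity)
    exact h
  obtain ⟨N0, hN0⟩ := eventually_atTop.1 (ev1.and ev2)
  refine ⟨N0, fun N hN a => ?_⟩
  obtain ⟨h1, h2⟩ := hN0 N hN
  have h2a := h2.trans_le (min_le_left _ _)
  have h2b := h2.trans_le (min_le_right _ _)
  have hcqp := cq_pos (N + 1)
  have hloc := A.p4_local f hf hM hMp hη0.le (by linarith) hunif' N a
  set w : ℝ := ((N : ℝ) + 1) ^ 2 * cq (N + 1) with hw
  have hw0 : 0 < w := by positivity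
  set L : ℝ := 4 * Real.pi * (N + 1) * cq (N + 1) with hL
  have hwL : w * (4 * Real.pi / (N + 1)) = L := by
    rw [hw, hL]
    field_simp
  have hL1 : L ≤ lam + 1 := by
    have := (abs_lt.1 h2a).2
    linarith
  have hL0 : 0 < L := by positivity
  have hwC : w ≤ C * ((N : ℝ) + 1) := by
    have h3 := hC (N + 1)
    push_cast at h3
    have h4 : cq (N + 1) ≤ C / ((N : ℝ) + 1) := by
      refine h3.trans ?_
      apply div_le_div_of_nonneg_left hC0.le (by positivity)
      linarith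
    calc w = ((N : ℝ) + 1) ^ 2 * cq (N + 1) := rfl
      _ ≤ ((N : ℝ) + 1) ^ 2 * (C / ((N : ℝ) + 1)) := by gcongr
      _ = C * ((N : ℝ) + 1) := by field_simp
  have hmain : |w * A.JJ N f a - L * f a| ≤ ε / 4 + ε / 4 := by
    have e : w * A.JJ N f a - L * f a = w * (A.JJ N f a - 4 * Real.pi / (N + 1) * f a) := by
      rw [← hwL]
      ring
    rw [e, abs_mul, abs_of_pos hw0]
    calc w * |A.JJ N f a - 4 * Real.pi / (N + 1) * f a|
        ≤ w * (η * (4 * Real.pi / (N + 1)) + 2 * M * (1 - δ) ^ N * (4 * Real.pi)) := by gcongr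
      _ = η * (w * (4 * Real.pi / (N + 1))) + w * (2 * M * (1 - δ) ^ N * (4 * Real.pi)) := by ring
      _ = η * L + w * (2 * M * (1 - δ) ^ N * (4 * Real.pi)) := by rw [hwL]
      _ ≤ η * (lam + 1) + (C * ((N : ℝ) + 1)) * (2 * M * (1 - δ) ^ N * (4 * Real.pi)) := by
          have : 0 ≤ (1 - δ) ^ N := pow_nonneg hr0 N
          gcongr
      _ = η * (lam + 1) + 8 * Real.pi * M * C * (((N : ℝ) + 1) * (1 - δ) ^ N) := by ring
      _ ≤ ε / 4 + ε / 4 := by
          have : η * (lam + 1) = ε / 4 := by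
            rw [hη]
            field_simp
          linarith
  have hsecond : |L * f a - lam * f a| ≤ ε / 4 := by
    rw [← sub_mul, abs_mul]
    calc |L - lam| * |f a| ≤ ε / (4 * (M + 1)) * M := by
          have := hM a
          gcongr
      _ ≤ ε / 4 := by
          rw [div_mul_eq_mul_div, div_le_div_iff₀ (by positivity) (by norm_num)]
          nlinarith
  have htri : |w * A.JJ N f a - lam * f a| ≤ |w * A.JJ N f a - L * f a| + |L * f a - lam * f a| :=
    abs_sub_le _ _ _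
  linarith

end Fr
end NShell
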