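import Mathlib

set_option autoImplicit false

/-!
Null hypersurfaces which extend from a closed spacelike surface to null infinity: induced metric, null second fundamental form,
torsion, expansion, the constraint equations along the hypersurface, Bondi energy.
-/

open MeasureTheory Filter Topology
open scoped ContDiff

namespace NullPen

/-- Euclidean three space. -/
abbrev E3 := EuclideanSpace ℝ (Fin 3)

/-- The unit sphere; its points are the generators of the null hypersurface. -/
abbrev S2 := Metric.sphere (0 : E3) 1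

/-- Surface measure of the unit sphere. -/
noncomputable def sm : Measure S2 := (volume : Measure E3).toSphere

/-- Partial derivative. -/
noncomputable def pd (k : Fin 3) (f : E3 → ℝ) (x : E3) : ℝ :=
  deriv (fun t : ℝ => f (x + t • EuclideanSpace.single k (1 : ℝ))) 0

/-- Projection on the tangent plane of the sphere at `n`. -/
def proj (n : E3) (i j : Fin 3) : ℝ := (if i = j then 1 else 0) - n i * n j

/-- Data on a null hypersurface `N = [0,∞) × S2`. The point `(s, n)` lies on the generator `n` at affine distance `s` from the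
initial surface. `L` is the affine null generator, `k` the other null normal of the surfaces `s = const`, with `<L, k> = 2`.
Tensors tangent to the surfaces `s = const` are given by their components in Euclidean three space. -/
structure NullData where
  /-- induced metric of the surfaces `s = const` -/
  g : ℝ → E3 → Fin 3 → Fin 3 → ℝ
  /-- inverse metric -/
  gi : ℝ → E3 → Fin 3 → Fin 3 → ℝ
  /-- torsion one-form, `ζ X = <D_X L, k> / 2` -/
  ζ : ℝ → E3 → Fin 3 → ℝ
  /-- expansion of the surfaces `s = const` in the direction `k` -/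
  θ : ℝ → E3 → ℝ
  /-- component `- G(L, k)` of the Einstein tensor -/
  ρ : ℝ → E3 → ℝ

namespace NullData

variable (D : NullData)

/-- The null second fundamental form `<D_X L, Y>`, half of the derivative of the metric along the generators. -/
noncomputable def chi (s : ℝ) (n : E3) (i j : Fin 3) : ℝ := deriv (fun t => D.g t n i j) s / 2

/-- The expansion in the direction `L`. -/
noncomputable def exL (s : ℝ) (n : E3) : ℝ := ∑ i, ∑ j, D.gi s n i j * D.chi s n i j

/-- Area density of the surfaces `s = const` with respect to the unit sphere: square root of the determinant of the metric on the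
tangent plane. -/
noncomputable def dA (s : ℝ) (n : E3) : ℝ :=
  Real.sqrt (((∑ i, D.g s n i i) ^ 2 - ∑ i, ∑ j, D.g s n i j ^ 2) / 2)

/-- Area of the surface `s = const`. -/
noncomputable def area (s : ℝ) : ℝ := ∫ n : S2, D.dA s n ∂sm

/-- Squared norm of the torsion. -/
noncomputable def torSq (s : ℝ) (n : E3) : ℝ := ∑ i, ∑ j, D.gi s n i j * D.ζ s n i * D.ζ s n j

/-- Lie derivative of the metric with respect to a vector field on the sphere. -/
noncomputable def lie (s : ℝ) (V : E3 → Fin 3 → ℝ) (n : E3) (i j : Fin 3) : ℝ :=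
  ∑ k, (V n k * pd k (fun y => D.g s y i j) n + D.g s n k j * pd i (fun y => V y k) n
    + D.g s n i k * pd j (fun y => V y k) n)

/-- Half of the scalar product of `chi - exL g` with the Lie derivative of the metric. Its integral is the integral of
`(d exL - div chi) (V)`. -/
noncomputable def mom (s : ℝ) (V : E3 → Fin 3 → ℝ) (n : E3) : ℝ :=
  (∑ i, ∑ j, ((∑ k, ∑ l, D.gi s n i k * D.gi s n j l * D.chi s n k l) - D.exL s n * D.gi s n i j)
    * D.lie s V n i j) / 2

/-- The data are smooth, `g s` is a Riemannian metric on the sphere, and the two constraint equations hold: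
the torsion equation `ζ' + exL ζ = d exL - div chi` (tested with the vector fields `V`), valid if `G(L, X) = 0`
for `X` tangent to `N`, and the integral over the sphere of the equation
`θ' + exL θ = 2 K - 2 |ζ|^2 - 2 div ζ - ρ` (Gauss-Bonnet has been used), with the dominant energy condition `ρ >= 0`. -/
structure IsNull : Prop where
  smooth_g : ∀ i j, ContDiff ℝ ∞ (fun p : ℝ × E3 => D.g p.1 p.2 i j)
  smooth_ζ : ∀ i, ContDiff ℝ ∞ (fun p : ℝ × E3 => D.ζ p.1 p.2 i)
  cont_θ : Continuous (fun p : ℝ × E3 => D.θ p.1 p.2)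
  cont_ρ : Continuous (fun p : ℝ × E3 => D.ρ p.1 p.2)
  g_symm : ∀ s, 0 ≤ s → ∀ n : S2, ∀ i j, D.g s n i j = D.g s n j i
  g_tan : ∀ s, 0 ≤ s → ∀ n : S2, ∀ i, ∑ j, D.g s n i j * (n : E3) j = 0
  g_pos : ∀ s, 0 ≤ s → ∀ n : S2, ∀ v : Fin 3 → ℝ, v ≠ 0 → ∑ i, (n : E3) i * v i = 0 →
    0 < ∑ i, ∑ j, D.g s n i j * v i * v j
  gi_symm : ∀ s, 0 ≤ s → ∀ n : S2, ∀ i j, D.gi s n i j = D.gi s n j i
  gi_tan : ∀ s, 0 ≤ s → ∀ n : S2, ∀ i, ∑ j, D.gi s n i j * (n : E3) j = 0
  gi_inv : ∀ s, 0 ≤ s → ∀ n : S2, ∀ i j, ∑ k, D.g s n i k * D.gi s n k j = proj n i j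
  ζ_tan : ∀ s, 0 ≤ s → ∀ n : S2, ∑ i, (n : E3) i * D.ζ s n i = 0
  dec : ∀ s, 0 ≤ s → ∀ n : S2, 0 ≤ D.ρ s n
  torsion : ∀ V : E3 → Fin 3 → ℝ, (∀ i, ContDiff ℝ ∞ (fun y => V y i)) → (∀ n : S2, ∑ i, (n : E3) i * V n i = 0) →
    ∀ s, 0 < s → HasDerivAt (fun t => ∫ n : S2, (∑ i, D.ζ t n i * V n i) * D.dA t n ∂sm)
      (∫ n : S2, D.mom s V n * D.dA s n ∂sm) s
  expansion : ∀ s, 0 < s → HasDerivAt (fun t => ∫ n : S2, D.θ t n * D.dA t n ∂sm)
    (8 * Real.pi - 2 * (∫ n : S2, D.torSq s n * D.dA s n ∂sm) - ∫ n : S2, D.ρ s n * D.dA s n ∂sm) s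

/-- No gravitational radiation and no matter crosses `N`: `<R(L, X) L, Y> = 0` for `X`, `Y` tangent to `N`, that is,
`chi' = chi g⁻¹ chi`. -/
def NotCrossed : Prop := ∀ s, 0 < s → ∀ n : S2, ∀ i j,
  deriv (fun t => D.chi t n i j) s = ∑ k, ∑ l, D.chi s n i k * D.gi s n k l * D.chi s n l j

/-- `N` extends to null infinity and `L` is normalised by an asymptotic observer: the metrics `s ^ (-2) g s` converge to the
metric of the unit sphere. -/
def Normalised : Prop := ∀ n : S2, ∀ i j, Tendsto (fun s : ℝ => D.g s n i j / s ^ 2) atTop (𝓝 (proj n i j))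

/-- `E` is the Bondi energy of `N` for this observer: the limit of the Hawking energies. -/
def BondiEnergy (E : ℝ) : Prop :=
  Tendsto (fun s : ℝ => (Real.sqrt (16 * Real.pi * D.area s) - ∫ n : S2, D.θ s n * D.dA s n ∂sm) / (16 * Real.pi))
    atTop (𝓝 E)

/-- `N` is a regular null hypersurface which no radiation crosses, starts at a trapped or marginally trapped surface and
extends to null infinity. -/
structure Admissible : Prop where
  null : D.IsNull
  free : D.NotCrossed
  norm : D.Normalised
  trapped : ∀ n : S2, D.θ 0 n ≤ 0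

end NullData

end NullPen
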