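import Pool.Agent.Lib.H17P.B1
import Pool.Agent.Lib.NullShell.STD

set_option autoImplicit false

/-!
Chunk TR0. `bet hD i j` is the smooth function `Σ_kl bb_kl r_i^k r_j^l` on the sphere (`r_i = NShell.rotv i n`, the rotation
fields). `Σ_i r_i r_i^T = proj` on the sphere, so `Σ_i bet_ii = tt`, `Σ_ij bet_ij^2 = Σ_ij bb_ij^2`, `Σ_j bet_ij x_j = 0` (`Σ_j x_j r_j = 0`).
-/

open MeasureTheory Filter Topology
open scoped ContDiff

namespace NullPen
namespace NullData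
variable {D : NullData}

open NShell in
/-- `B` on the rotation fields. -/
noncomputable def bet (hD : D.Admissible) (i j : Fin 3) : SFun :=
  SFun.of (fun y => ∑ k, ∑ l, D.bb y k l * NShell.rotv i y k * NShell.rotv j y l) (by
    have hr : ∀ i k : Fin 3, ContDiff ℝ ∞ (fun y : E3 => NShell.rotv i y k) := fun i k =>
      (EuclideanSpace.proj k : E3 →L[ℝ] ℝ).contDiff.comp (NShell.contDiff_rotv i)
    exact ContDiff.sum fun k _ => ContDiff.sum fun l _ => ((bb_smooth hD.null k l).mul (hr i k)).mul (hr j l))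

theorem tr0_sum (f : Fin 3 → NShell.SFun) (n : S2) : (∑ i, f i).1 n = ∑ i, (f i).1 n := by
  simp only [Fin.sum_univ_three]
  rfl

theorem bet_apply (hD : D.Admissible) (i j : Fin 3) (n : S2) :
    (bet hD i j).1 n = ∑ k, ∑ l, D.bb n k l * NShell.rotv i n k * NShell.rotv j n l := rfl

theorem tr0_rotv (i k : Fin 3) (n : E3) : NShell.rotv i n k =
    n (i + 1) * (if k = i + 2 then 1 else 0) - n (i + 2) * (if k = i + 1 then 1 else 0) := by
  unfold NShell.rotv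
  simp [Pi.single_apply, EuclideanSpace.single]

theorem tr0_r (n : E3) : (NShell.rotv 0 n 0 = 0 ∧ NShell.rotv 0 n 1 = - n 2 ∧ NShell.rotv 0 n 2 = n 1) ∧
    (NShell.rotv 1 n 0 = n 2 ∧ NShell.rotv 1 n 1 = 0 ∧ NShell.rotv 1 n 2 = - n 0) ∧
    (NShell.rotv 2 n 0 = - n 1 ∧ NShell.rotv 2 n 1 = n 0 ∧ NShell.rotv 2 n 2 = 0) := by
  have e1 : (1 : Fin 3) + 1 = 2 := rfl
  have e2 : (1 : Fin 3) + 2 = 0 := rfl
  have e3 : (2 : Fin 3) + 1 = 0 := rfl
  have e4 : (2 : Fin 3) + 2 = 1 := rfl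
  refine ⟨⟨?_, ?_, ?_⟩, ⟨?_, ?_, ?_⟩, ⟨?_, ?_, ?_⟩⟩ <;> rw [tr0_rotv] <;> simp [e1, e2, e3, e4]

/-- The matrix of the rotation fields. -/
noncomputable def tr0_R (n : E3) : Matrix (Fin 3) (Fin 3) ℝ := Matrix.of fun i k => NShell.rotv i n k

theorem tr0_RR (n : S2) (k l : Fin 3) : ∑ i, NShell.rotv i (n : E3) k * NShell.rotv i (n : E3) l = proj n k l := by
  have hu := unit_n n
  obtain ⟨⟨a0, a1, a2⟩, ⟨b0, b1, b2⟩, ⟨c0, c1, c2⟩⟩ := tr0_r (n : E3)
  unfold proj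
  simp only [Fin.sum_univ_three] at hu ⊢
  fin_cases k <;> fin_cases l <;> simp [a0, a1, a2, b0, b1, b2, c0, c1, c2] <;> linarith

theorem tr0_xr (n : S2) (l : Fin 3) : ∑ j, (n : E3) j * NShell.rotv j (n : E3) l = 0 := by
  obtain ⟨⟨a0, a1, a2⟩, ⟨b0, b1, b2⟩, ⟨c0, c1, c2⟩⟩ := tr0_r (n : E3)
  simp only [Fin.sum_univ_three]
  fin_cases l <;> simp [a0, a1, a2, b0, b1, b2, c0, c1, c2] <;> ring

theorem bet_symm (hD : D.Admissible) (i j : Fin 3) : bet hD i j = bet hD j i := by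
  apply Subtype.ext
  funext n
  rw [bet_apply, bet_apply, Finset.sum_comm]
  refine Finset.sum_congr rfl fun k _ => Finset.sum_congr rfl fun l _ => ?_
  rw [(bb_tan hD n).symm l k]
  ring

theorem bet_x (hD : D.Admissible) (i : Fin 3) : ∑ j, bet hD i j * NShell.stdSA.x j = 0 := by
  apply Subtype.ext
  funext n
  have h1 : (∑ j, bet hD i j * NShell.stdSA.x j).1 n = ∑ j, (bet hD i j).1 n * (n : E3) j :=
    tr0_sum _ n
  rw [h1]
  simp only [bet_apply]
  have h3 : ∀ l, ∑ j, (n : E3) j * NShell.rotv j (n : E3) l = 0 := tr0_xr n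
  calc ∑ j, (∑ k, ∑ l, D.bb n k l * NShell.rotv i n k * NShell.rotv j n l) * (n : E3) j
      = ∑ k, ∑ l, D.bb n k l * NShell.rotv i n k * ∑ j, (n : E3) j * NShell.rotv j (n : E3) l := by
        simp only [Fin.sum_univ_three]
        ring
    _ = 0 := by simp only [h3, mul_zero, Finset.sum_const_zero]

theorem tr0_mat (hD : D.Admissible) (n : S2) : (Matrix.of fun i j => (bet hD i j).1 n) =
    tr0_R n * Matrix.of (D.bb n) * (tr0_R n).transpose := by
  ext i j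
  rw [Matrix.mul_assoc, Matrix.mul_apply]
  simp only [Matrix.of_apply, bet_apply]
  refine Finset.sum_congr rfl fun k _ => ?_
  rw [Matrix.mul_apply, Finset.mul_sum]
  refine Finset.sum_congr rfl fun l _ => ?_
  simp only [tr0_R, Matrix.of_apply, Matrix.transpose_apply]
  ring

theorem tr0_BN (hD : D.Admissible) (n : S2) : (Matrix.of (D.bb n) : Matrix (Fin 3) (Fin 3) ℝ) *
    ((tr0_R n).transpose * tr0_R n) = Matrix.of (D.bb n) := by
  ext i j
  rw [Matrix.mul_apply]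
  have h1 : ∀ k l, ((tr0_R n).transpose * tr0_R n) k l = proj n k l := by
    intro k l
    rw [Matrix.mul_apply, ← tr0_RR n k l]
    rfl
  simp only [h1, Matrix.of_apply]
  have h2 := (bb_tan hD n).ker i
  calc ∑ k, D.bb n i k * proj n k j = D.bb n i j - (∑ k, D.bb n i k * (n : E3) k) * (n : E3) j := by
        unfold proj
        rw [Finset.sum_mul]
        simp only [mul_sub, mul_ite, mul_one, mul_zero, Finset.sum_sub_distrib, Finset.sum_ite_eq', Finset.mem_univ,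
          if_true]
        congr 1
        exact Finset.sum_congr rfl fun k _ => by ring
    _ = D.bb n i j := by rw [h2, zero_mul, sub_zero]

theorem bet_tr (hD : D.Admissible) (n : S2) : (∑ i, bet hD i i).1 n = D.tt n := by
  rw [tr0_sum]
  have h3 : ∑ j, (bet hD j j).1 n = (Matrix.of fun i j => (bet hD i j).1 n).trace := rfl
  rw [h3, tr0_mat hD, Matrix.mul_assoc, Matrix.trace_mul_comm, Matrix.mul_assoc, tr0_BN hD]
  rfl

theorem tr0_sq (a : Fin 3 → Fin 3 → ℝ) (hs : ∀ i j, a i j = a j i) :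
    ∑ i, ∑ j, a i j ^ 2 = ((Matrix.of a : Matrix (Fin 3) (Fin 3) ℝ) * Matrix.of a).trace := by
  rw [Matrix.trace]
  refine Finset.sum_congr rfl fun i _ => ?_
  rw [Matrix.diag_apply, Matrix.mul_apply]
  refine Finset.sum_congr rfl fun j _ => ?_
  simp only [Matrix.of_apply]
  rw [hs j i, pow_two]

theorem bet_dt (hD : D.Admissible) (n : S2) :
    ((1 / 2 : ℝ) • ((∑ i, bet hD i i) ^ 2 - ∑ i, ∑ j, bet hD i j ^ 2)).1 n = D.dd n := by
  have h1 : ((1 / 2 : ℝ) • ((∑ i, bet hD i i) ^ 2 - ∑ i, ∑ j, bet hD i j ^ 2)).1 n =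
      1 / 2 * ((∑ i, bet hD i i).1 n ^ 2 - (∑ i, ∑ j, bet hD i j ^ 2).1 n) := rfl
  have h2 : (∑ i, ∑ j, bet hD i j ^ 2).1 n = ∑ i, ∑ j, (bet hD i j).1 n ^ 2 := by
    rw [tr0_sum]
    refine Finset.sum_congr rfl fun i _ => ?_
    rw [tr0_sum]
    rfl
  have h3 : ∑ i, ∑ j, (bet hD i j).1 n ^ 2 = ∑ i, ∑ j, D.bb n i j ^ 2 := by
    rw [tr0_sq (fun i j => (bet hD i j).1 n) (fun i j => by rw [bet_symm]), tr0_mat hD,
      tr0_sq _ (bb_tan hD n).symm]
    have e : tr0_R n * Matrix.of (D.bb n) * (tr0_R n).transpose * (tr0_R n * Matrix.of (D.bb n) * (tr0_R n).transpose) =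
        tr0_R n * (Matrix.of (D.bb n) * ((tr0_R n).transpose * tr0_R n) * Matrix.of (D.bb n) * (tr0_R n).transpose) := by
      simp only [Matrix.mul_assoc]
    rw [e, tr0_BN hD, Matrix.trace_mul_comm, Matrix.mul_assoc, Matrix.mul_assoc, tr0_BN hD]
  rw [h1, h2, h3, bet_tr]
  unfold dd dt sq tt
  ring

end NullData
end NullPen
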