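import Pool.Agent.Lib.H17P.W2
import Pool.Agent.Lib.H17P.TR0
import Pool.Agent.Lib.H17P.K1

set_option autoImplicit false

/-!
Chunk TR. Translation to the sphere algebra. `bet hD i j` is the smooth function `Σ_kl bb_kl r_i^k r_j^l` on the sphere (`r_i = NShell.rotv i n`, the rotation
fields). `Σ_i r_i r_i^T = proj` on the sphere, so `Σ_i bet_ii = tt`, `Σ_ij bet_ij^2 = Σ_ij bb_ij^2`, `Σ_j bet_ij x_j = 0` (`Σ_j x_j r_j = 0`).
`test`: `energy_test` with `V = (1/2) Σ_i (L_i f) r_i` (half of the gradient of `f`), extended by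
`V y k = (1/2) Σ_i fderiv (lft f) y (rotv i y) (rotv i y) k`, and `tau_eq` :
`Σ_k V_k pd k tt = (1/2) gam f tt`, `Σ bb_ij pd i V_j = (1/2) Σ bet_pq hes f p q` (`Σ_kl bb_kl D_k V_l = Σ_pq bet_pq <r_q, D_{r_p} V>`,
`<r_i, r_q> = pr i q`, `D_{r_p} r_i = x_i e_p - δ_ip x`, `Σ_i (L_i f) x_i = 0`), `Σ bb_ij V_i V_j = (1/4) Σ bet_pq L_p f L_q f`, `|V|^2 = (1/4) gam f f`. So
the left side of `energy_test` is `∫ (tt + 2 gam f tt + 2 <bet, hes f> - Σ bet_pq L_p f L_q f - (1/2) tt gam f f)`, and `∫ gam f tt = - ∫ tt lap f` (`SA.green`); with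
`ZZ f = 2 hes - L f L f - (lap f - (1/2) gam) pr` this is `∫ (tt rf + <bet, ZZ f>)`.
-/

open MeasureTheory Filter Topology
open scoped ContDiff

namespace NullPen
namespace NullData
variable {D : NullData}

/-- The rotation fields as an array. -/
noncomputable def tR (n : E3) (i k : Fin 3) : ℝ := NShell.rotv i n k

theorem tR_orth (n : S2) (i j : Fin 3) : ∑ k, tR n i k * tR n j k = proj n i j := by
  have hu := unit_n n
  obtain ⟨⟨a0, a1, a2⟩, ⟨b0, b1, b2⟩, ⟨c0, c1, c2⟩⟩ := tr0_r (n : E3)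
  unfold proj tR
  simp only [Fin.sum_univ_three] at hu ⊢
  fin_cases i <;> fin_cases j <;> simp [a0, a1, a2, b0, b1, b2, c0, c1, c2] <;> linarith

theorem tR_n (n : E3) (i : Fin 3) : ∑ k, n k * tR n i k = 0 := by
  obtain ⟨⟨a0, a1, a2⟩, ⟨b0, b1, b2⟩, ⟨c0, c1, c2⟩⟩ := tr0_r n
  unfold tR
  simp only [Fin.sum_univ_three]
  fin_cases i <;> simp [a0, a1, a2, b0, b1, b2, c0, c1, c2] <;> ring

theorem tR_two (n : E3) (m p j : Fin 3) : tR (NShell.rotv p n) m j =
    n m * (if p = j then 1 else 0) - n j * (if p = m then 1 else 0) := by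
  obtain ⟨⟨a0, a1, a2⟩, ⟨b0, b1, b2⟩, ⟨c0, c1, c2⟩⟩ := tr0_r n
  obtain ⟨⟨x0, x1, x2⟩, ⟨y0, y1, y2⟩, ⟨z0, z1, z2⟩⟩ := tr0_r (NShell.rotv p n)
  unfold tR
  fin_cases m <;> fin_cases p <;> fin_cases j <;>
    simp_all

theorem tR_smooth (i k : Fin 3) : ContDiff ℝ ∞ (fun y : E3 => tR y i k) :=
  (EuclideanSpace.proj k : E3 →L[ℝ] ℝ).contDiff.comp (NShell.contDiff_rotv i)

/-- `tR` is linear in the point. -/
theorem tR_fd (n v : E3) (i k : Fin 3) : fderiv ℝ (fun y : E3 => tR y i k) n v = tR v i k := by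
  have hc : ∀ j : Fin 3, fderiv ℝ (fun y : E3 => y j) n v = v j := by
    intro j
    have h : HasFDerivAt (fun y : E3 => y j) (EuclideanSpace.proj j : E3 →L[ℝ] ℝ) n :=
      (EuclideanSpace.proj j : E3 →L[ℝ] ℝ).hasFDerivAt
    rw [h.fderiv]
    rfl
  have hd : ∀ j : Fin 3, DifferentiableAt ℝ (fun y : E3 => y j) n := fun j =>
    (m1_coord j).differentiable (by simp) _
  have e : (fun y : E3 => tR y i k) = fun y => y (i + 1) * (if k = i + 2 then 1 else 0) -
      y (i + 2) * (if k = i + 1 then 1 else 0) := by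
    funext y
    exact tr0_rotv i k y
  rw [e, fderiv_fun_sub ((hd _).mul_const _) ((hd _).mul_const _), fderiv_mul_const (hd _),
    fderiv_mul_const (hd _)]
  unfold tR
  rw [tr0_rotv]
  simp only [ContinuousLinearMap.sub_apply, ContinuousLinearMap.smul_apply, hc, smul_eq_mul]
  ring

theorem tR_dir {F : E3 → ℝ} {n : E3} (hF : DifferentiableAt ℝ F n) (p : Fin 3) :
    ∑ k, tR n p k * pd k F n = fderiv ℝ F n (NShell.rotv p n) := by
  have h1 : NShell.rotv p n = ∑ k, tR n p k • EuclideanSpace.single k (1 : ℝ) := by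
    ext j
    simp [tR, Fin.sum_univ_three, Pi.single_apply]
    fin_cases j <;> simp
  conv_rhs => rw [h1, map_sum]
  refine Finset.sum_congr rfl fun k _ => ?_
  rw [map_smul, smul_eq_mul, m1_pd hF]

/-- Half of the gradient. -/
noncomputable def trV (f : NShell.SFun) (y : E3) (k : Fin 3) : ℝ :=
  1 / 2 * ∑ i, NShell.lft (NShell.stdL i f) y * tR y i k

theorem trV_smooth (f : NShell.SFun) (k : Fin 3) : ContDiff ℝ ∞ (fun y => trV f y k) :=
  contDiff_const.mul (ContDiff.sum fun i _ => (NShell.lft_smooth _).mul (tR_smooth i k))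

theorem trV_eq (f : NShell.SFun) (n : S2) (k : Fin 3) :
    trV f n k = 1 / 2 * ∑ i, (NShell.stdL i f).1 n * tR n i k := by
  unfold trV
  simp only [NShell.lft_eq]

theorem trV_tan (f : NShell.SFun) (n : S2) : ∑ k, (n : E3) k * trV f n k = 0 := by
  simp only [trV_eq]
  have h : ∀ i, ∑ k, (n : E3) k * tR n i k = 0 := tR_n n
  calc ∑ k, (n : E3) k * (1 / 2 * ∑ i, (NShell.stdL i f).1 n * tR n i k)
      = 1 / 2 * ∑ i, (NShell.stdL i f).1 n * ∑ k, (n : E3) k * tR n i k := by
        simp only [Fin.sum_univ_three]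
        ring
    _ = 0 := by simp only [h, mul_zero, Finset.sum_const_zero]

theorem tr_bb (hD : D.Admissible) (n : S2) (i j : Fin 3) :
    D.bb n i j = ∑ p, ∑ q, (bet hD p q).1 n * tR n p i * tR n q j := by
  have h1 := tr0_BN hD n
  have h2 : ((tr0_R n).transpose * tr0_R n) * (Matrix.of (D.bb n) : Matrix (Fin 3) (Fin 3) ℝ) = Matrix.of (D.bb n) := by
    have h3 := congrArg Matrix.transpose h1
    have h4 : (Matrix.of (D.bb n) : Matrix (Fin 3) (Fin 3) ℝ).transpose = Matrix.of (D.bb n) := by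
      ext a b
      exact (bb_tan hD n).symm b a
    rwa [Matrix.transpose_mul, Matrix.transpose_mul, Matrix.transpose_transpose, h4] at h3
  have h5 : (Matrix.of (D.bb n) : Matrix (Fin 3) (Fin 3) ℝ) =
      (tr0_R n).transpose * (Matrix.of fun i j => (bet hD i j).1 n) * tr0_R n := by
    rw [tr0_mat hD]
    have e : (tr0_R n).transpose * (tr0_R n * Matrix.of (D.bb n) * (tr0_R n).transpose) * tr0_R n =
        ((tr0_R n).transpose * tr0_R n) * (Matrix.of (D.bb n) * ((tr0_R n).transpose * tr0_R n)) := by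
      simp only [Matrix.mul_assoc]
    rw [e, h1, h2]
  have h6 := congrFun (congrFun h5 i) j
  rw [Matrix.mul_assoc, Matrix.mul_apply] at h6
  change D.bb n i j = _ at h6
  rw [h6]
  refine Finset.sum_congr rfl fun p _ => ?_
  rw [Matrix.mul_apply, Finset.mul_sum]
  refine Finset.sum_congr rfl fun q _ => ?_
  simp only [tr0_R, tR, Matrix.of_apply, Matrix.transpose_apply]
  ring

theorem tr_con (hD : D.Admissible) (n : S2) (X : Fin 3 → Fin 3 → ℝ) :
    ∑ i, ∑ j, D.bb n i j * X i j = ∑ p, ∑ q, (bet hD p q).1 n * ∑ i, ∑ j, tR n p i * tR n q j * X i j := by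
  simp only [tr_bb hD n]
  simp only [Fin.sum_univ_three]
  ring

theorem tr_gam (hD : D.Admissible) (f : NShell.SFun) (n : S2) :
    ∑ k, trV f n k * pd k D.tt n = 1 / 2 * (NShell.stdSA.gam f (∑ i, bet hD i i)).1 n := by
  have hF : ContDiff ℝ ∞ (fun y => D.tt y) := tt_smooth hD.null
  have h1 : ∀ i, ∑ k, tR n i k * pd k D.tt n = (NShell.stdL i (∑ i, bet hD i i)).1 n := by
    intro i
    rw [tR_dir (hF.differentiable (by simp) _), NShell.stdL_of i _ (fun y => D.tt y) hF (fun m => bet_tr hD m) n]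
  have h2 : (NShell.stdSA.gam f (∑ i, bet hD i i)).1 n =
      ∑ i, (NShell.stdL i f).1 n * (NShell.stdL i (∑ i, bet hD i i)).1 n := tr0_sum _ n
  rw [h2]
  simp only [← h1, trV_eq]
  simp only [Fin.sum_univ_three]
  ring

theorem tr_rad (f : NShell.SFun) (n : S2) : ∑ i, (NShell.stdL i f).1 n * (n : E3) i = 0 := by
  have h := congrArg (fun F : NShell.SFun => F.1 n) (NShell.stdSA.rad f)
  have h2 : (n : E3) 0 * (NShell.stdL 0 f).1 n + (n : E3) 1 * (NShell.stdL 1 f).1 n + (n : E3) 2 * (NShell.stdL 2 f).1 n = 0 := h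
  simp only [Fin.sum_univ_three]
  linarith

theorem tr_rad2 (f : NShell.SFun) (n : S2) (p : Fin 3) :
    ∑ i, (NShell.stdL p (NShell.stdL i f)).1 n * (n : E3) i = - ∑ i, (NShell.stdL i f).1 n * tR n p i := by
  have h0 : ∑ i, NShell.stdL i f * NShell.stdx i = 0 := by
    apply Subtype.ext
    funext m
    exact (tr0_sum _ m).trans (tr_rad f m)
  have h1 := congrArg (fun F : NShell.SFun => (NShell.stdL p F).1 n) h0
  have h2 : ∀ i, (NShell.stdL p (NShell.stdx i)).1 n = tR n p i := by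
    intro i
    rw [NShell.stdL_of p (NShell.stdx i) (fun y => y i) (EuclideanSpace.proj i : E3 →L[ℝ] ℝ).contDiff
      (fun _ => rfl) n]
    have h : HasFDerivAt (fun y : E3 => y i) (EuclideanSpace.proj i : E3 →L[ℝ] ℝ) (n : E3) :=
      (EuclideanSpace.proj i : E3 →L[ℝ] ℝ).hasFDerivAt
    rw [h.fderiv]
    rfl
  have h3 : (NShell.stdL p (∑ i, NShell.stdL i f * NShell.stdx i)).1 n =
      ∑ i, ((NShell.stdL i f).1 n * (NShell.stdL p (NShell.stdx i)).1 n +
        (n : E3) i * (NShell.stdL p (NShell.stdL i f)).1 n) := by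
    rw [map_sum, tr0_sum]
    refine Finset.sum_congr rfl fun i _ => ?_
    rw [Derivation.leibniz]
    rfl
  simp only [h3, h2] at h1
  have h4 : (NShell.stdL p (0 : NShell.SFun)).1 n = 0 := by rw [map_zero]; rfl
  rw [h4] at h1
  simp only [Fin.sum_univ_three] at h1 ⊢
  linarith

theorem tr_hes (hD : D.Admissible) (f : NShell.SFun) (n : S2) :
    ∑ i, ∑ j, D.bb n i j * pd i (fun y => trV f y j) n =
      1 / 2 * (∑ p, ∑ q, bet hD p q * NShell.stdSA.hes f p q).1 n := by
  have hbx : ∀ p, ∑ q, (bet hD p q).1 n * (n : E3) q = 0 := by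
    intro p
    have h := congrArg (fun F : NShell.SFun => F.1 n) (bet_x hD p)
    have h2 : (∑ q, bet hD p q * NShell.stdSA.x q).1 n = ∑ q, (bet hD p q).1 n * (n : E3) q := tr0_sum _ n
    rw [← h2]
    exact h
  have hdV : ∀ p j, fderiv ℝ (fun y => trV f y j) n (NShell.rotv p n) =
      1 / 2 * ∑ m, ((NShell.stdL p (NShell.stdL m f)).1 n * tR n m j + (NShell.stdL m f).1 n *
        tR (NShell.rotv p n) m j) := by
    intro p j
    have hd : ∀ m, DifferentiableAt ℝ (fun y => NShell.lft (NShell.stdL m f) y * tR y m j) n := fun m =>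
      ((NShell.lft_smooth _).mul (tR_smooth m j)).differentiable (by simp) _
    have e1 : fderiv ℝ (fun y => trV f y j) n = (1 / 2 : ℝ) • ∑ m, fderiv ℝ (fun y => NShell.lft (NShell.stdL m f) y * tR y m j) n := by
      unfold trV
      rw [fderiv_const_mul (DifferentiableAt.fun_sum fun m _ => hd m), fderiv_fun_sum fun m _ => hd m]
    rw [e1, ContinuousLinearMap.smul_apply, ContinuousLinearMap.sum_apply, smul_eq_mul]
    congr 1
    refine Finset.sum_congr rfl fun m _ => ?_
    rw [fderiv_fun_mul ((NShell.lft_smooth _).differentiable (by simp) _) ((tR_smooth m j).differentiable (by simp) _)]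
    rw [ContinuousLinearMap.add_apply, ContinuousLinearMap.smul_apply, ContinuousLinearMap.smul_apply, tR_fd,
      NShell.lft_eq, smul_eq_mul, smul_eq_mul]
    have e2 : fderiv ℝ (NShell.lft (NShell.stdL m f)) n (NShell.rotv p n) = (NShell.stdL p (NShell.stdL m f)).1 n := rfl
    rw [e2]
    ring
  have hpq : ∀ p q, ∑ i, ∑ j, tR n p i * tR n q j * pd i (fun y => trV f y j) n =
      1 / 2 * ((NShell.stdL p (NShell.stdL q f)).1 n + (∑ m, (NShell.stdL m f).1 n * tR n p m) * (n : E3) q) := by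
    intro p q
    have e1 : ∑ i, ∑ j, tR n p i * tR n q j * pd i (fun y => trV f y j) n =
        ∑ j, tR n q j * fderiv ℝ (fun y => trV f y j) n (NShell.rotv p n) := by
      rw [Finset.sum_comm]
      refine Finset.sum_congr rfl fun j _ => ?_
      rw [← tR_dir ((trV_smooth f j).differentiable (by simp) _), Finset.mul_sum]
      exact Finset.sum_congr rfl fun i _ => by ring
    rw [e1]
    simp only [hdV]
    have e2 : ∑ j, tR n q j * (1 / 2 * ∑ m, ((NShell.stdL p (NShell.stdL m f)).1 n * tR n m j +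
        (NShell.stdL m f).1 n * tR (NShell.rotv p n) m j)) =
        1 / 2 * (∑ m, (NShell.stdL p (NShell.stdL m f)).1 n * ∑ j, tR n q j * tR n m j) +
        1 / 2 * ∑ m, (NShell.stdL m f).1 n * ∑ j, tR n q j * tR (NShell.rotv p n) m j := by
      simp only [Fin.sum_univ_three]
      ring
    rw [e2]
    have e3 : ∀ m, ∑ j, tR n q j * tR (NShell.rotv p n) m j = (n : E3) m * tR n q p := by
      intro m
      have h1 := tR_n (n : E3) q
      simp only [tR_two]
      have e4 : ∑ j, tR n q j * ((n : E3) m * (if p = j then 1 else 0) - (n : E3) j * (if p = m then 1 else 0)) =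
          (n : E3) m * (∑ j, tR n q j * (if p = j then 1 else 0)) - (if p = m then 1 else 0) * ∑ j, (n : E3) j * tR n q j := by
        simp only [Fin.sum_univ_three]
        ring
      rw [e4, h1, mul_zero, sub_zero]
      simp
    have e5 : ∑ m, (NShell.stdL m f).1 n * ((n : E3) m * tR n q p) = 0 := by
      have h1 := tr_rad f n
      calc ∑ m, (NShell.stdL m f).1 n * ((n : E3) m * tR n q p) =
          (∑ m, (NShell.stdL m f).1 n * (n : E3) m) * tR n q p := by
            rw [Finset.sum_mul]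
            exact Finset.sum_congr rfl fun m _ => by ring
        _ = 0 := by rw [h1, zero_mul]
    simp only [e3, e5, tR_orth]
    have e6 : ∑ m, (NShell.stdL p (NShell.stdL m f)).1 n * proj n q m = (NShell.stdL p (NShell.stdL q f)).1 n -
        (n : E3) q * ∑ m, (NShell.stdL p (NShell.stdL m f)).1 n * (n : E3) m := by
      unfold proj
      simp only [mul_sub, mul_ite, mul_one, mul_zero, Finset.sum_sub_distrib, Finset.sum_ite_eq, Finset.mem_univ,
        if_true, Finset.mul_sum]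
      congr 1
      exact Finset.sum_congr rfl fun m _ => by ring
    rw [e6, tr_rad2]
    ring
  rw [tr_con hD]
  simp only [hpq]
  have hH : (∑ p, ∑ q, bet hD p q * NShell.stdSA.hes f p q).1 n =
      ∑ p, ∑ q, (bet hD p q).1 n * (NShell.stdSA.hes f p q).1 n := by
    rw [tr0_sum]
    refine Finset.sum_congr rfl fun p _ => ?_
    rw [tr0_sum]
    rfl
  rw [hH]
  have hh : ∀ p q, (NShell.stdSA.hes f p q).1 n = (NShell.stdL p (NShell.stdL q f)).1 n +
      (n : E3) q * (NShell.cr NShell.stdx (fun k => NShell.stdL k f) p).1 n := fun p q => rfl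
  simp only [hh]
  have k : ∀ (c : Fin 3 → ℝ), ∑ p, ∑ q, (bet hD p q).1 n * ((n : E3) q * c p) = 0 := by
    intro c
    refine Finset.sum_eq_zero fun p _ => ?_
    calc ∑ q, (bet hD p q).1 n * ((n : E3) q * c p) = (∑ q, (bet hD p q).1 n * (n : E3) q) * c p := by
          rw [Finset.sum_mul]
          exact Finset.sum_congr rfl fun q _ => by ring
      _ = 0 := by rw [hbx p, zero_mul]
  have k1 := k (fun p => ∑ m, (NShell.stdL m f).1 n * tR n p m)
  have k2 := k (fun p => (NShell.cr NShell.stdx (fun k => NShell.stdL k f) p).1 n)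
  have s1 : ∑ p, ∑ q, (bet hD p q).1 n * (1 / 2 * ((NShell.stdL p (NShell.stdL q f)).1 n +
      (∑ m, (NShell.stdL m f).1 n * tR n p m) * (n : E3) q)) =
      1 / 2 * (∑ p, ∑ q, (bet hD p q).1 n * (NShell.stdL p (NShell.stdL q f)).1 n) +
      1 / 2 * ∑ p, ∑ q, (bet hD p q).1 n * ((n : E3) q * (∑ m, (NShell.stdL m f).1 n * tR n p m)) := by
    rw [Finset.mul_sum, Finset.mul_sum, ← Finset.sum_add_distrib]
    refine Finset.sum_congr rfl fun p _ => ?_
    rw [Finset.mul_sum, Finset.mul_sum, ← Finset.sum_add_distrib]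
    exact Finset.sum_congr rfl fun q _ => by ring
  have s2 : ∑ p, ∑ q, (bet hD p q).1 n * ((NShell.stdL p (NShell.stdL q f)).1 n +
      (n : E3) q * (NShell.cr NShell.stdx (fun k => NShell.stdL k f) p).1 n) =
      (∑ p, ∑ q, (bet hD p q).1 n * (NShell.stdL p (NShell.stdL q f)).1 n) +
      ∑ p, ∑ q, (bet hD p q).1 n * ((n : E3) q * (NShell.cr NShell.stdx (fun k => NShell.stdL k f) p).1 n) := by
    rw [← Finset.sum_add_distrib]
    refine Finset.sum_congr rfl fun p _ => ?_
    rw [← Finset.sum_add_distrib]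
    exact Finset.sum_congr rfl fun q _ => by ring
  rw [s1, s2, k1, k2]
  ring

theorem tr_quad (hD : D.Admissible) (f : NShell.SFun) (n : S2) :
    ∑ i, ∑ j, (2 * D.bb n i j + if i = j then D.tt n else 0) * trV f n i * trV f n j =
      1 / 2 * (∑ p, ∑ q, bet hD p q * (NShell.stdSA.L p f * NShell.stdSA.L q f)).1 n +
      1 / 4 * ((∑ i, bet hD i i) * NShell.stdSA.gam f f).1 n := by
  have e1 : ∑ i, ∑ j, (2 * D.bb n i j + if i = j then D.tt n else 0) * trV f n i * trV f n j =
      2 * (∑ i, ∑ j, D.bb n i j * (trV f n i * trV f n j)) + D.tt n * ∑ i, trV f n i * trV f n i := by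
    simp only [Fin.sum_univ_three]
    simp only [Fin.isValue, if_true, zero_ne_one, one_ne_zero, Fin.reduceEq, if_false]
    ring
  have hr : ∀ p, ∑ i, tR n p i * trV f n i = 1 / 2 * (NShell.stdL p f).1 n := by
    intro p
    simp only [trV_eq]
    have e2 : ∑ i, tR n p i * (1 / 2 * ∑ m, (NShell.stdL m f).1 n * tR n m i) =
        1 / 2 * ∑ m, (NShell.stdL m f).1 n * ∑ i, tR n p i * tR n m i := by
      simp only [Fin.sum_univ_three]
      ring
    rw [e2]
    simp only [tR_orth]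
    congr 1
    have e3 : ∑ m, (NShell.stdL m f).1 n * proj n p m = (NShell.stdL p f).1 n -
        (n : E3) p * ∑ m, (NShell.stdL m f).1 n * (n : E3) m := by
      unfold proj
      simp only [mul_sub, mul_ite, mul_one, mul_zero, Finset.sum_sub_distrib, Finset.sum_ite_eq, Finset.mem_univ,
        if_true, Finset.mul_sum]
      congr 1
      exact Finset.sum_congr rfl fun m _ => by ring
    rw [e3, tr_rad, mul_zero, sub_zero]
  have e2 : ∑ i, ∑ j, D.bb n i j * (trV f n i * trV f n j) =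
      1 / 4 * ∑ p, ∑ q, (bet hD p q).1 n * ((NShell.stdL p f).1 n * (NShell.stdL q f).1 n) := by
    rw [tr_con hD, Finset.mul_sum]
    refine Finset.sum_congr rfl fun p _ => ?_
    rw [Finset.mul_sum]
    refine Finset.sum_congr rfl fun q _ => ?_
    have e3 : ∑ i, ∑ j, tR n p i * tR n q j * (trV f n i * trV f n j) =
        (∑ i, tR n p i * trV f n i) * ∑ j, tR n q j * trV f n j := by
      rw [Finset.sum_mul_sum]
      exact Finset.sum_congr rfl fun i _ => Finset.sum_congr rfl fun j _ => by ring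
    rw [e3, hr, hr]
    ring
  have e3 : ∑ i, trV f n i * trV f n i = 1 / 4 * ∑ i, (NShell.stdL i f).1 n * (NShell.stdL i f).1 n := by
    have h1 : ∑ i, trV f n i * trV f n i = 1 / 2 * ∑ m, (NShell.stdL m f).1 n * ∑ i, tR n m i * trV f n i := by
      have h2 : ∀ i, trV f n i * trV f n i = 1 / 2 * (∑ m, (NShell.stdL m f).1 n * tR n m i) * trV f n i := by
        intro i
        rw [← trV_eq]
      simp only [h2]
      simp only [Fin.sum_univ_three]
      ring
    rw [h1]
    simp only [hr]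
    simp only [Fin.sum_univ_three]
    ring
  have e4 : (∑ p, ∑ q, bet hD p q * (NShell.stdSA.L p f * NShell.stdSA.L q f)).1 n =
      ∑ p, ∑ q, (bet hD p q).1 n * ((NShell.stdL p f).1 n * (NShell.stdL q f).1 n) := by
    rw [tr0_sum]
    refine Finset.sum_congr rfl fun p _ => ?_
    rw [tr0_sum]
    rfl
  have e5 : ((∑ i, bet hD i i) * NShell.stdSA.gam f f).1 n =
      D.tt n * ∑ i, (NShell.stdL i f).1 n * (NShell.stdL i f).1 n := by
    have h1 : ((∑ i, bet hD i i) * NShell.stdSA.gam f f).1 n =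
      (∑ i, bet hD i i).1 n * (NShell.stdSA.gam f f).1 n := rfl
    have h2 : (NShell.stdSA.gam f f).1 n = ∑ i, (NShell.stdL i f).1 n * (NShell.stdL i f).1 n := tr0_sum _ n
    rw [h1, h2, bet_tr]
  rw [e1, e2, e3, e4, e5]
  ring

theorem test (hD : D.Admissible) {E : ℝ} (hE : D.BondiEnergy E) (f : NShell.SFun) :
    NShell.stdFr.toSM.I ((∑ i, bet hD i i) * NShell.stdSA.rf f + ∑ i, ∑ j, bet hD i j * NShell.stdSA.ZZ f i j)
      ≤ 16 * Real.pi * E := by
  set T : NShell.SFun := ∑ i, bet hD i i with hT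
  set S := NShell.stdFr.toSM with hS
  have h := energy_test hD hE (V := trV f) (trV_smooth f) (trV_tan f)
  rw [tau_eq hD (trV_smooth f) (trV_tan f)] at h
  have i1 : ∫ n : S2, D.tt n ∂sm = S.I T := by
    change _ = ∫ n, T.1 n ∂_
    exact integral_congr_ae (Eventually.of_forall fun n => (bet_tr hD n).symm)
  have i2 : ∫ n : S2, ((∑ k, trV f n k * pd k D.tt n) + ∑ i, ∑ j, D.bb n i j * pd i (fun y => trV f y j) n) ∂sm =
      S.I ((1 / 2 : ℝ) • NShell.stdSA.gam f T + (1 / 2 : ℝ) • ∑ p, ∑ q, bet hD p q * NShell.stdSA.hes f p q) := by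
    change _ = ∫ n, ((1 / 2 : ℝ) • NShell.stdSA.gam f T + (1 / 2 : ℝ) • ∑ p, ∑ q, bet hD p q * NShell.stdSA.hes f p q).1 n ∂_
    refine integral_congr_ae (Eventually.of_forall fun n => ?_)
    change _ = 1 / 2 * (NShell.stdSA.gam f T).1 n + 1 / 2 * (∑ p, ∑ q, bet hD p q * NShell.stdSA.hes f p q).1 n
    rw [← tr_gam hD f n, ← tr_hes hD f n]
  have i3 : ∫ n : S2, (∑ i, ∑ j, (2 * D.bb n i j + if i = j then D.tt n else 0) * trV f n i * trV f n j) ∂sm =
      S.I ((1 / 2 : ℝ) • (∑ p, ∑ q, bet hD p q * (NShell.stdSA.L p f * NShell.stdSA.L q f)) +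
        (1 / 4 : ℝ) • (T * NShell.stdSA.gam f f)) := by
    change _ = ∫ n, ((1 / 2 : ℝ) • (∑ p, ∑ q, bet hD p q * (NShell.stdSA.L p f * NShell.stdSA.L q f)) +
        (1 / 4 : ℝ) • (T * NShell.stdSA.gam f f)).1 n ∂_
    refine integral_congr_ae (Eventually.of_forall fun n => ?_)
    exact tr_quad hD f n
  rw [i1, i2, i3] at h
  have hg := NShell.stdSA.green S.I S.I0 T f
  have hpr : ∑ i, ∑ j, bet hD i j * NShell.stdSA.pr i j = T :=
    NShell.stdSA.pr_tr (bet hD) (bet_symm hD) (bet_x hD)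
  have hZ : ∑ i, ∑ j, bet hD i j * NShell.stdSA.ZZ f i j =
      (2 : ℝ) • (∑ p, ∑ q, bet hD p q * NShell.stdSA.hes f p q) -
      (∑ p, ∑ q, bet hD p q * (NShell.stdSA.L p f * NShell.stdSA.L q f)) -
      (NShell.stdSA.lap f - (1 / 2 : ℝ) • NShell.stdSA.gam f f) * T := by
    rw [← hpr]
    unfold NShell.SA.ZZ
    rw [two_smul]
    simp only [Fin.sum_univ_three]
    ring
  have hrf : T * NShell.stdSA.rf f = T - T * NShell.stdSA.lap f - T * NShell.stdSA.gam f f := by
    unfold NShell.SA.rf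
    ring
  have hZ2 : (NShell.stdSA.lap f - (1 / 2 : ℝ) • NShell.stdSA.gam f f) * T =
      T * NShell.stdSA.lap f - (1 / 2 : ℝ) • (T * NShell.stdSA.gam f f) := by
    rw [sub_mul, smul_mul_assoc, mul_comm _ T, mul_comm _ T]
  rw [hZ, hrf, hZ2]
  have hgc : NShell.stdSA.gam f T = NShell.stdSA.gam T f := NShell.stdSA.gam_comm f T
  rw [hgc] at h
  simp only [map_add, map_sub, S.I_smul] at h ⊢
  linarith

end NullData
end NullPen
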