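import Pool.Agent.Lib.H17P.E1

set_option autoImplicit false

/-!
Chunk W2. The energy inequality with a test field: Fubini in `energy_ge` (`torSq dA` is continuous on `[0,S] × S2`, `torSq_cont`), then `ray_ineq` for every
`n` with `v = V n`, integrate over the sphere, let `S → ∞` (the error term is `C/S`).
-/

open MeasureTheory Filter Topology
open scoped ContDiff

namespace NullPen
namespace NullData
variable {D : NullData}

theorem W2_integrable (hD : D.Admissible) (S : ℝ) :
    Integrable (Function.uncurry (fun (s : ℝ) (n : S2) => D.torSq (max s 0) n * D.dA (max s 0) n))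
      ((volume.restrict (Set.Ioc 0 S)).prod sm) := by
  have := m3_fin
  have hf : Continuous (Function.uncurry (fun (s : ℝ) (n : S2) => D.torSq (max s 0) n * D.dA (max s 0) n)) :=
    E1_K_cont' hD
  have h1 : IntegrableOn (Function.uncurry (fun (s : ℝ) (n : S2) => D.torSq (max s 0) n * D.dA (max s 0) n))
      (Set.Icc 0 S ×ˢ (Set.univ : Set S2)) ((volume : Measure ℝ).prod sm) :=
    hf.continuousOn.integrableOn_compact (isCompact_Icc.prod isCompact_univ)
  have h2 := h1.mono_set (Set.prod_mono Set.Ioc_subset_Icc_self (Set.Subset.refl (Set.univ : Set S2)))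
  rw [IntegrableOn, ← Measure.prod_restrict, Measure.restrict_univ] at h2
  exact h2

theorem W2_swap (hD : D.Admissible) {S : ℝ} (hS : 0 ≤ S) :
    ∫ s in (0 : ℝ)..S, (∫ n : S2, D.torSq s n * D.dA s n ∂sm) =
      ∫ n : S2, (∫ s in Set.Ioc (0 : ℝ) S, D.torSq (max s 0) n * D.dA (max s 0) n) ∂sm := by
  have := m3_fin
  have e1 : ∫ s in (0 : ℝ)..S, (∫ n : S2, D.torSq s n * D.dA s n ∂sm) =
      ∫ s in Set.Ioc (0 : ℝ) S, (∫ n : S2, D.torSq (max s 0) n * D.dA (max s 0) n ∂sm) := by
    rw [intervalIntegral.integral_of_le hS]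
    refine setIntegral_congr_fun measurableSet_Ioc fun s hs => ?_
    rw [max_eq_left hs.1.le]
  rw [e1]
  exact integral_integral_swap (W2_integrable hD S)

theorem W2_comb {f1 f2 f3 g : S2 → ℝ} (i1 : Integrable f1 sm) (i2 : Integrable f2 sm) (i3 : Integrable f3 sm)
    (ig : Integrable g sm) (S : ℝ) (h : ∀ n, 4 * f1 n - 2 * f2 n - f3 n / S ≤ 2 * g n) :
    4 * (∫ n, f1 n ∂sm) - 2 * (∫ n, f2 n ∂sm) - (∫ n, f3 n ∂sm) / S ≤ 2 * ∫ n, g n ∂sm := by
  have e1 : ∫ n, (4 * f1 n - 2 * f2 n - f3 n / S) ∂sm =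
      4 * (∫ n, f1 n ∂sm) - 2 * (∫ n, f2 n ∂sm) - (∫ n, f3 n ∂sm) / S := by
    rw [integral_sub (f := fun n => 4 * f1 n - 2 * f2 n) ((i1.const_mul 4).sub (i2.const_mul 2)) (i3.div_const S),
      integral_sub (i1.const_mul 4) (i2.const_mul 2), integral_const_mul, integral_const_mul, integral_div]
  rw [← e1, ← integral_const_mul]
  exact integral_mono (((i1.const_mul 4).sub (i2.const_mul 2)).sub (i3.div_const S)) (ig.const_mul 2) h

theorem W2_bound (hD : D.Admissible) {V : E3 → Fin 3 → ℝ}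
    (hV : ∀ i, ContDiff ℝ ∞ (fun y => V y i)) (hVt : ∀ n : S2, ∑ i, (n : E3) i * V n i = 0) {S : ℝ} (hS : 1 ≤ S) :
    4 * (∫ n : S2, (∑ i, D.TT n i * V n i) ∂sm)
      - 2 * (∫ n : S2, (∑ i, ∑ j, (2 * D.bb n i j + if i = j then D.tt n else 0) * V n i * V n j) ∂sm)
      - (∫ n : S2, 32 * (1 + D.tt n) ^ 2 * ((∑ i, D.cc n i ^ 2) + (∑ i, D.TT n i ^ 2) + ∑ i, V n i ^ 2) ∂sm) / S
    ≤ 2 * ∫ s in (0 : ℝ)..S, (∫ n : S2, D.torSq s n * D.dA s n ∂sm) := by
  have := m3_fin
  have hS0 : (0 : ℝ) ≤ S := by linarith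
  have c1 : Continuous fun n : S2 => ∑ i, D.TT n i * V n i :=
    continuous_finsetSum _ fun i _ => (m3_res (TT_smooth hD.null i).continuous).mul (m3_res (hV i).continuous)
  have ct : Continuous fun n : S2 => D.tt n := m3_res (tt_smooth hD.null).continuous
  have c2 : Continuous fun n : S2 =>
      ∑ i, ∑ j, (2 * D.bb n i j + if i = j then D.tt n else 0) * V n i * V n j := by
    refine continuous_finsetSum _ fun i _ => continuous_finsetSum _ fun j _ => ?_
    refine ((Continuous.add (continuous_const.mul (m3_res (bb_smooth hD.null i j).continuous)) ?_).mul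
      (m3_res (hV i).continuous)).mul (m3_res (hV j).continuous)
    by_cases hij : i = j
    · simp only [hij, if_true]; exact ct
    · simp only [hij, if_false]; exact continuous_const
  have c3 : Continuous fun n : S2 =>
      32 * (1 + D.tt n) ^ 2 * ((∑ i, D.cc n i ^ 2) + (∑ i, D.TT n i ^ 2) + ∑ i, V n i ^ 2) := by
    refine (continuous_const.mul ((continuous_const.add ct).pow 2)).mul ((Continuous.add ?_ ?_).add ?_)
    · exact continuous_finsetSum _ fun i _ => (m3_res (cc_smooth hD.null i).continuous).pow 2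
    · exact continuous_finsetSum _ fun i _ => (m3_res (TT_smooth hD.null i).continuous).pow 2
    · exact continuous_finsetSum _ fun i _ => (m3_res (hV i).continuous).pow 2
  have i1 := m3_int c1
  have i2 := m3_int c2
  have i3 := m3_int c3
  rw [W2_swap hD hS0]
  refine W2_comb i1 i2 i3 (W2_integrable hD S).integral_prod_right S ?_
  · intro n
    have h1 := ray_ineq hD n (V n) (hVt n) hS
    have h2 : ∫ s in (0 : ℝ)..S, D.torSq s n * D.dA s n =
        ∫ s in Set.Ioc (0 : ℝ) S, D.torSq (max s 0) n * D.dA (max s 0) n := by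
      rw [intervalIntegral.integral_of_le hS0]
      refine setIntegral_congr_fun measurableSet_Ioc fun s hs => ?_
      rw [max_eq_left hs.1.le]
    rw [h2] at h1
    exact h1

theorem energy_test (hD : D.Admissible) {E : ℝ} (hE : D.BondiEnergy E) {V : E3 → Fin 3 → ℝ}
    (hV : ∀ i, ContDiff ℝ ∞ (fun y => V y i)) (hVt : ∀ n : S2, ∑ i, (n : E3) i * V n i = 0) :
    (∫ n : S2, D.tt n ∂sm) + 4 * (∫ n : S2, (∑ i, D.TT n i * V n i) ∂sm)
      - 2 * (∫ n : S2, (∑ i, ∑ j, (2 * D.bb n i j + if i = j then D.tt n else 0) * V n i * V n j) ∂sm)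
    ≤ 16 * Real.pi * E := by
  set C : ℝ := ∫ n : S2, 32 * (1 + D.tt n) ^ 2 *
    ((∑ i, D.cc n i ^ 2) + (∑ i, D.TT n i ^ 2) + ∑ i, V n i ^ 2) ∂sm with hC
  set A : ℝ := (∫ n : S2, D.tt n ∂sm) + 4 * (∫ n : S2, (∑ i, D.TT n i * V n i) ∂sm)
      - 2 * (∫ n : S2, (∑ i, ∑ j, (2 * D.bb n i j + if i = j then D.tt n else 0) * V n i * V n j) ∂sm) with hA
  have t1 : Tendsto (fun S : ℝ => A - C / S) atTop (𝓝 (A - 0)) :=
    tendsto_const_nhds.sub (Tendsto.div_atTop tendsto_const_nhds tendsto_id)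
  rw [sub_zero] at t1
  refine le_of_tendsto t1 ?_
  filter_upwards [eventually_ge_atTop 1] with S hS
  have h1 := W2_bound hD hV hVt hS
  have h2 := energy_ge hD hE (S := S) (by linarith)
  rw [← hC] at h1
  linarith

end NullData
end NullPen
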